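import Pool.Agent.H7CA.Corr

/-!
# Linear arrays against linear space
-/

namespace Pool.Agent.H7CA

open Pool.Agent.PPS Pool.Agent.H7LS Filter Asymptotics

theorem size_bits_le {t e : ℕ} (h : t < 2 ^ e) : size t.bits ≤ 4 * e + 1 := by
  refine (size_word_le _).trans ?_
  rw [Nat.size_eq_bits_len]
  have := Nat.size_le.mpr h
  omega

theorem num_lt (P : PP) : num P < 2 ^ (size P + 1) := by
  have h := valW_lt (code P ++ [true])
  have h2 : (code P ++ [true]).length = size P + 1 := by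
    rw [List.length_append]; rfl
  rw [h2] at h
  exact h

theorem le_num (P : PP) : 2 ^ size P ≤ num P := by
  have h : (num P).bits.length = size P + 1 := by
    rw [bits_num, List.length_append]; rfl
  rw [Nat.size_eq_bits_len] at h
  exact Nat.lt_size.mp (by omega)

theorem log_num_le (P : PP) : Nat.log 2 (num P) ≤ size P := by
  have h1 := num_lt P
  have h2 : num P ≠ 0 := by
    have := le_num P
    have := Nat.two_pow_pos (size P)
    omega
  have := (Nat.log_lt_iff_lt_pow (by omega) h2).mpr h1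
  omega

theorem size_prm_le {b : List Bool} {n m s h r0 T : ℕ} (h2 : h < 2 ^ m) (h3 : s < 2 ^ m)
    (h4 : r0 < 2 ^ m) : size (prm b n m s h r0 T) ≤ 4 * b.length + 20 * m + 11 := by
  unfold prm
  simp only [size_pair]
  have e1 := size_word_le b
  have e2 := size_bits_le h2
  have e3 := size_bits_le h3
  have e4 := size_bits_le h4
  have e5 := size_word_le (wordN m (2 ^ m - T))
  have e6 := size_word_le (wordN m n)
  rw [length_wordN] at e5 e6
  omega

/-! ### The choice of the time step -/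

section

variable (T s : ℕ)

theorem h_le (hT : s = 0 → T = 0) : Nat.sqrt (T / s) + 1 ≤ Nat.sqrt (T * s) + 1 := by
  rcases Nat.eq_zero_or_pos s with h | h
  · rw [hT h]; simp
  · refine Nat.succ_le_succ (Nat.sqrt_le_sqrt ?_)
    exact (Nat.div_le_self T s).trans (Nat.le_mul_of_pos_right _ h)

theorem hs_le : (Nat.sqrt (T / s) + 1) * s ≤ Nat.sqrt (T * s) + s := by
  rw [Nat.add_mul, Nat.one_mul]
  refine Nat.add_le_add_right ?_ _
  rw [Nat.le_sqrt]
  have h1 := Nat.sqrt_le (T / s)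
  have h2 := Nat.div_mul_le_self T s
  calc Nat.sqrt (T / s) * s * (Nat.sqrt (T / s) * s)
      = (Nat.sqrt (T / s) * Nat.sqrt (T / s)) * s * s := by ring
    _ ≤ (T / s) * s * s := Nat.mul_le_mul_right _ (Nat.mul_le_mul_right _ h1)
    _ ≤ T * s := Nat.mul_le_mul_right _ h2

theorem Th_le (hT : s = 0 → T = 0) : T / (Nat.sqrt (T / s) + 1) ≤ Nat.sqrt (T * s) := by
  rcases Nat.eq_zero_or_pos s with h | h
  · rw [hT h]; simp
  · obtain ⟨b, hb⟩ : ∃ b, b = Nat.sqrt (T / s) + 1 := ⟨_, rfl⟩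
    obtain ⟨y, hy⟩ : ∃ y, y = T / b := ⟨_, rfl⟩
    rw [← hb, ← hy, Nat.le_sqrt]
    have hb0 : 0 < b := by omega
    have h1 : T / s < b * b := by rw [hb]; exact Nat.lt_succ_sqrt (T / s)
    have h2 : T < b * b * s := by
      have := Nat.lt_mul_div_succ T h
      calc T < s * (T / s + 1) := this
        _ ≤ s * (b * b) := Nat.mul_le_mul_left _ h1
        _ = b * b * s := by ring
    have h3 : y * b ≤ T := by rw [hy]; exact Nat.div_mul_le_self T b
    have h4 : y ≤ b * s := by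
      have h5 : y * b < b * s * b := by
        calc y * b ≤ T := h3
          _ < b * b * s := h2
          _ = b * s * b := by ring
      exact (Nat.lt_of_mul_lt_mul_right h5).le
    have h5 : y * y * b ≤ T * s * b := by
      calc y * y * b = y * b * y := by ring
        _ ≤ T * (b * s) := Nat.mul_le_mul h3 h4
        _ = T * s * b := by ring
    exact Nat.le_of_mul_le_mul_right h5 hb0

end

/-- The numbers for one input length. -/
theorem params_ok {k n s T : ℕ} (hk : 1 ≤ k) (hn : 2 ≤ n) (hT : s = 0 → T = 0)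
    (hs : s ≤ n ^ k) (h q w m : ℕ) (hTs : T * w * s ≤ n ^ (2 * k))
    (hh : h = Nat.sqrt (T * w / s) + 1) (hq : q = Nat.sqrt (T * w * s)) (hw : w = Nat.log 2 n)
    (hm : m = (2 * k + 5) * (w + 1)) :
    T + (h + h) * (Nat.clog 2 (h + h) + 1 + T / h) < 2 ^ m ∧ n < 2 ^ m ∧
    (∀ b : List Bool, Nat.log 2 (num (prm b n m s h (T % h) T)) ≤
      4 * b.length + 20 * m + 11) ∧
    m + ((h + h) * (4 * s + 2) + 8) + (Nat.clog 2 (h + h) + 1 + T / h + 1) * (m + w) ≤
    7 * (m * m) + 16 * ((2 * k + 5) * q) + 8 * s := by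
  have hnw : n < 2 ^ (w + 1) := by rw [hw]; exact Nat.lt_pow_succ_log_self (by omega) n
  have hw1 : 1 ≤ w := by rw [hw]; exact Nat.log_pos (by omega) hn
  have hTw : s = 0 → T * w = 0 := fun h0 => by rw [hT h0, Nat.zero_mul]
  have hq1 : q ≤ n ^ k := by
    rw [hq]
    have h1 : Nat.sqrt (T * w * s) ≤ Nat.sqrt (n ^ k * n ^ k) := by
      refine Nat.sqrt_le_sqrt ?_
      rw [← pow_add, ← Nat.two_mul]
      exact hTs
    rwa [Nat.sqrt_eq] at h1
  have hh1 : h ≤ q + 1 := by rw [hh, hq]; exact h_le (T * w) s hTw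
  have hh0 : 1 ≤ h := by omega
  have hhs : h * s ≤ q + s := by rw [hh, hq]; exact hs_le (T * w) s
  have hTh0 : T * w / h ≤ q := by rw [hh, hq]; exact Th_le (T * w) s hTw
  have hTh : T / h * w ≤ q := by
    refine le_trans ?_ hTh0
    rw [Nat.le_div_iff_mul_le hh0]
    calc T / h * w * h = T / h * h * w := by ring
      _ ≤ T * w := Nat.mul_le_mul_right _ (Nat.div_mul_le_self T h)
  have hTh1 : T / h ≤ q := (Nat.le_mul_of_pos_right _ hw1).trans hTh
  have hT1 : T ≤ n ^ (2 * k) := by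
    rcases Nat.eq_zero_or_pos s with h1 | h1
    · rw [hT h1]; exact Nat.zero_le _
    · exact ((Nat.le_mul_of_pos_right _ hw1).trans (Nat.le_mul_of_pos_right _ h1)).trans hTs
  have hnk : 1 ≤ n ^ k := Nat.one_le_pow _ _ (by omega)
  have hh2 : h ≤ 2 * n ^ k := by omega
  have hD1 : Nat.clog 2 (h + h) ≤ h + h := by
    refine Nat.clog_le_of_le_pow ?_
    exact (h + h).lt_two_pow_self.le
  have hpk : n ^ k ≤ 2 ^ ((w + 1) * k) := by
    rw [pow_mul]; exact Nat.pow_le_pow_left hnw.le k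
  have hD2 : Nat.clog 2 (h + h) ≤ (w + 1) * k + 2 := by
    refine Nat.clog_le_of_le_pow ?_
    rw [pow_add]
    omega
  have hm1 : (w + 1) * k + 4 ≤ m := by
    rw [hm]
    have h1 : (2 * k + 5) * (w + 1) = (w + 1) * k + (w + 1) * k + 5 * w + 5 := by ring
    omega
  have hm7 : 7 ≤ m := by
    rw [hm]
    calc 7 ≤ 2 * k + 5 := by omega
      _ ≤ (2 * k + 5) * (w + 1) := Nat.le_mul_of_pos_right _ (by omega)
  have hmw : w ≤ m := by
    rw [hm]
    have : w + 1 ≤ (2 * k + 5) * (w + 1) := Nat.le_mul_of_pos_left _ (by omega)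
    omega
  have hp1 : 4 * 2 ^ ((w + 1) * k) < 2 ^ m := by
    have h1 : 2 ^ ((w + 1) * k + 4) ≤ 2 ^ m := Nat.pow_le_pow_right (by omega) hm1
    rw [pow_add] at h1
    omega
  have hnm : n < 2 ^ m := by
    refine hnw.trans_le (Nat.pow_le_pow_right (by omega) ?_)
    rw [hm]
    exact Nat.le_mul_of_pos_left _ (by omega)
  have hr0 : T % h < h := Nat.mod_lt _ (by omega)
  refine ⟨?_, hnm, ?_, ?_⟩
  · have h1 : (h + h) * (Nat.clog 2 (h + h) + 1 + T / h) ≤ 4 * n ^ k * (6 * n ^ k) :=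
      Nat.mul_le_mul (by omega) (by omega)
    have h2 : 4 * n ^ k * (6 * n ^ k) = 24 * n ^ (2 * k) := by
      rw [Nat.two_mul k, pow_add]; ring
    have h3 : n ^ (2 * k) * 32 ≤ n ^ (2 * k) * n ^ 5 := by
      refine Nat.mul_le_mul_left _ ?_
      calc 32 = 2 ^ 5 := rfl
        _ ≤ n ^ 5 := Nat.pow_le_pow_left hn 5
    have h4 : n ^ (2 * k) * n ^ 5 ≤ 2 ^ m := by
      rw [← pow_add, hm, show (2 * k + 5) * (w + 1) = (w + 1) * (2 * k + 5) from
        Nat.mul_comm _ _, pow_mul]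
      exact Nat.pow_le_pow_left hnw.le _
    have h5 : 1 ≤ n ^ (2 * k) := Nat.one_le_pow _ _ (by omega)
    omega
  · intro b
    exact (log_num_le _).trans (size_prm_le (by omega) (by omega) (by omega))
  · have h1 : (h + h) * (4 * s + 2) = 8 * (h * s) + 4 * h := by ring
    have h2 : (Nat.clog 2 (h + h) + 1 + T / h + 1) * (m + w) ≤ (m + T / h) * (2 * m) :=
      Nat.mul_le_mul (by omega) (by omega)
    have h3 : (m + T / h) * (2 * m) = 2 * (m * m) + 2 * (T / h * m) := by ring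
    have h4 : T / h * m ≤ 2 * ((2 * k + 5) * q) := by
      calc T / h * m = (2 * k + 5) * (T / h * (w + 1)) := by rw [hm]; ring
        _ ≤ (2 * k + 5) * (2 * q) := by
          refine Nat.mul_le_mul_left _ ?_
          rw [Nat.mul_add, Nat.mul_one]
          omega
        _ = 2 * ((2 * k + 5) * q) := by ring
    have h5 : 5 * q ≤ (2 * k + 5) * q := Nat.mul_le_mul_right _ (by omega)
    have h6 : 7 * m ≤ m * m := Nat.mul_le_mul_right _ hm7
    omega

theorem sq_log_isLittleO : (fun n : ℕ => ((Nat.log 2 n : ℝ) + 1) * ((Nat.log 2 n : ℝ) + 1))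
    =o[atTop] (fun n : ℕ => (n : ℝ)) := by
  have h1 : (fun n : ℕ => Real.log (n : ℝ) ^ 2) =o[atTop] (fun n : ℕ => (n : ℝ)) :=
    (Real.isLittleO_pow_log_id_atTop (n := 2)).comp_tendsto tendsto_natCast_atTop_atTop
  refine IsBigO.trans_isLittleO (IsBigO.of_bound ((2 / Real.log 2) ^ 2) ?_) h1
  filter_upwards [eventually_ge_atTop 2] with n hn
  have h2 : (Nat.log 2 n : ℝ) ≤ Real.logb 2 n := by
    have := Real.natLog_le_logb n 2
    exact_mod_cast this
  have h3 : Real.logb 2 n = Real.log n / Real.log 2 := rfl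
  have h4 : 0 < Real.log 2 := Real.log_pos (by norm_num)
  have h5 : Real.log 2 ≤ Real.log n := Real.log_le_log (by norm_num) (by exact_mod_cast hn)
  have h6 : (1 : ℝ) ≤ Real.log n / Real.log 2 := by rw [le_div_iff₀ h4]; linarith
  have h7 : (Nat.log 2 n : ℝ) + 1 ≤ 2 / Real.log 2 * Real.log n := by
    calc (Nat.log 2 n : ℝ) + 1 ≤ Real.log n / Real.log 2 + Real.log n / Real.log 2 := by
          rw [h3] at h2; linarith
      _ = 2 / Real.log 2 * Real.log n := by ring
  rw [Real.norm_of_nonneg (by positivity), Real.norm_of_nonneg (by positivity)]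
  calc ((Nat.log 2 n : ℝ) + 1) * ((Nat.log 2 n : ℝ) + 1)
      ≤ (2 / Real.log 2 * Real.log n) * (2 / Real.log 2 * Real.log n) :=
        mul_le_mul h7 h7 (by positivity) (by positivity)
    _ = (2 / Real.log 2) ^ 2 * Real.log n ^ 2 := by ring

/-- Small linear arrays do not decide all languages in polynomial space, even approximately. -/
theorem arrays (k : ℕ) (hk : 1 ≤ k) (K : ℕ) (c : ℝ) (hc : c < 1 / 2) :
    ∃ L ∈ SPC k, ∀ f ∈ FLIN, ∀ p s T : ℕ → ℕ,
      (fun n : ℕ => (p n : ℝ) + s n) =o[atTop] (fun n : ℕ => (n : ℝ) ^ k) →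
      (fun n : ℕ => (T n : ℝ) * s n * Nat.log 2 n) =o[atTop] (fun n : ℕ => (n : ℝ) ^ (2 * k)) →
      ∀ᶠ n : ℕ in atTop, ∀ b a : List Bool, b.length ≤ p n → a.length ≤ K * n ^ k →
        |({x : List Bool | x.length = n ∧
            ((cell (ruleW f b) n (s n) x a (T n) 0).getD 0 false = true ↔ x ∈ L)}.ncard : ℝ) /
            2 ^ n - 1 / 2| ≤ 2 ^ (-(c * n)) := by
  obtain ⟨L, hL, hlow⟩ := lower_bound' k hk K c hc
  refine ⟨L, hL, ?_⟩
  intro f hf p s T ho0 ho2
  have ho1 : (fun n : ℕ => (s n : ℝ)) =o[atTop] (fun n : ℕ => (n : ℝ) ^ k) := by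
    refine IsBigO.trans_isLittleO (IsBigO.of_bound 1 (Eventually.of_forall fun n => ?_)) ho0
    rw [one_mul, Real.norm_of_nonneg (by positivity), Real.norm_of_nonneg (by positivity)]
    have : (0 : ℝ) ≤ p n := Nat.cast_nonneg _
    linarith
  obtain ⟨T', hT'⟩ : ∃ T' : ℕ → ℕ, T' = fun n => if s n = 0 then 0 else T n := ⟨_, rfl⟩
  have hT0 : ∀ n, s n = 0 → T' n = 0 := fun n h => by rw [hT']; simp [h]
  have hTle : ∀ n, T' n ≤ T n := fun n => by
    rw [hT']; simp only; split_ifs <;> omega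
  obtain ⟨h, hh⟩ : ∃ h : ℕ → ℕ, h = fun n => Nat.sqrt (T' n * Nat.log 2 n / s n) + 1 :=
    ⟨_, rfl⟩
  obtain ⟨q, hq⟩ : ∃ q : ℕ → ℕ, q = fun n => Nat.sqrt (T' n * Nat.log 2 n * s n) := ⟨_, rfl⟩
  obtain ⟨m, hm⟩ : ∃ m : ℕ → ℕ, m = fun n => (2 * k + 5) * (Nat.log 2 n + 1) := ⟨_, rfl⟩
  -- the conditions for large n
  have hTn : ∀ n, T' n * Nat.log 2 n * s n ≤ T n * s n * Nat.log 2 n := by
    intro n
    calc T' n * Nat.log 2 n * s n = T' n * (s n * Nat.log 2 n) := by ring
      _ ≤ T n * (s n * Nat.log 2 n) := Nat.mul_le_mul_right _ (hTle n)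
      _ = T n * s n * Nat.log 2 n := by ring
  have ev1 : ∀ᶠ n : ℕ in atTop, s n ≤ n ^ k := by
    filter_upwards [ho1.bound (show (0 : ℝ) < 1 by norm_num)] with n hn
    rw [Real.norm_of_nonneg (by positivity), Real.norm_of_nonneg (by positivity),
      one_mul] at hn
    exact_mod_cast hn
  have ev2 : ∀ᶠ n : ℕ in atTop, T' n * Nat.log 2 n * s n ≤ n ^ (2 * k) := by
    filter_upwards [ho2.bound (show (0 : ℝ) < 1 by norm_num)] with n hn
    rw [Real.norm_of_nonneg (by positivity), Real.norm_of_nonneg (by positivity),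
      one_mul] at hn
    have h1 : T n * s n * Nat.log 2 n ≤ n ^ (2 * k) := by exact_mod_cast hn
    exact (hTn n).trans h1
  -- the little-o conditions
  have hqo : (fun n : ℕ => (q n : ℝ)) =o[atTop] (fun n : ℕ => (n : ℝ) ^ k) := by
    rw [isLittleO_iff]
    intro ε hε
    filter_upwards [ho2.bound (show (0 : ℝ) < ε ^ 2 by positivity)] with n hn
    rw [Real.norm_of_nonneg (by positivity), Real.norm_of_nonneg (by positivity)] at hn
    rw [Real.norm_of_nonneg (by positivity), Real.norm_of_nonneg (by positivity)]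
    refine le_of_sq_le_sq ?_ (by positivity)
    have h1 : (q n : ℝ) * q n ≤ (T n : ℝ) * s n * Nat.log 2 n := by
      have h2 : q n * q n ≤ T' n * Nat.log 2 n * s n := by rw [hq]; exact Nat.sqrt_le _
      exact_mod_cast h2.trans (hTn n)
    calc (q n : ℝ) ^ 2 = (q n : ℝ) * q n := by ring
      _ ≤ (T n : ℝ) * s n * Nat.log 2 n := h1
      _ ≤ ε ^ 2 * (n : ℝ) ^ (2 * k) := hn
      _ = (ε * (n : ℝ) ^ k) ^ 2 := by rw [mul_pow, ← pow_mul, Nat.mul_comm k 2]
  have hpow : (fun n : ℕ => (n : ℝ)) =O[atTop] (fun n : ℕ => (n : ℝ) ^ k) := by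
    refine IsBigO.of_bound 1 ?_
    filter_upwards [eventually_ge_atTop 1] with n hn
    rw [one_mul, Real.norm_of_nonneg (by positivity), Real.norm_of_nonneg (by positivity)]
    have := le_pow_self' n hk
    exact_mod_cast this
  have hG : (fun n : ℕ => 38 * (2 * (k : ℝ) + 5) ^ 2 *
      (((Nat.log 2 n : ℝ) + 1) * ((Nat.log 2 n : ℝ) + 1)) +
      16 * (2 * (k : ℝ) + 5) * (q n : ℝ) + 8 * ((p n : ℝ) + s n)) =o[atTop]
        (fun n : ℕ => (n : ℝ) ^ k) :=
    (((sq_log_isLittleO.trans_isBigO hpow).const_mul_left _).add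
      (hqo.const_mul_left _)).add (ho0.const_mul_left _)
  have key := hlow (arM f) (arM_addr_mem f) (arM_upd_mem hf) m
    (fun n => (h n + h n) * (4 * s n + 2) + 8)
    (fun n => Nat.clog 2 (h n + h n) + 1 + T' n / h n + 1)
    (fun n => 4 * p n + 20 * m n + 11) (by
      refine IsBigO.trans_isLittleO (IsBigO.of_bound 1 ?_) hG
      filter_upwards [ev1, ev2, eventually_ge_atTop 2] with n hn1 hn2 hn3
      obtain ⟨_, _, _, h2⟩ := params_ok hk hn3 (hT0 n) hn1 (h n) (q n) (Nat.log 2 n) (m n)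
        hn2 (by rw [hh]) (by rw [hq]) rfl (by rw [hm])
      rw [one_mul, Real.norm_of_nonneg (by positivity), Real.norm_of_nonneg (by positivity)]
      have h3 : ((m n + ((h n + h n) * (4 * s n + 2) + 8) +
        (Nat.clog 2 (h n + h n) + 1 + T' n / h n + 1) * (m n + Nat.log 2 n) : ℕ) : ℝ) ≤
        ((7 * (m n * m n) + 16 * ((2 * k + 5) * q n) + 8 * s n : ℕ) : ℝ) := by
        exact_mod_cast h2
      push_cast at h3 ⊢
      have h4 : (m n : ℝ) = (2 * (k : ℝ) + 5) * ((Nat.log 2 n : ℝ) + 1) := by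
        rw [hm]; push_cast; ring
      have h5 : (1 : ℝ) ≤ (m n : ℝ) := by
        have h6 : 1 ≤ m n := by rw [hm]; exact Nat.mul_pos (by omega) (by omega)
        exact_mod_cast h6
      have h7 : (m n : ℝ) ≤ (m n : ℝ) * m n := by nlinarith
      have h9 : (m n : ℝ) * m n = (2 * (k : ℝ) + 5) ^ 2 *
          (((Nat.log 2 n : ℝ) + 1) * ((Nat.log 2 n : ℝ) + 1)) := by rw [h4]; ring
      have h10 : (0 : ℝ) ≤ p n := Nat.cast_nonneg _
      rw [h9] at h3 h7
      linarith)
  filter_upwards [key, ev1, ev2, eventually_ge_atTop 2] with n hn1 hn2 hn3 hn4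
  intro b a hb ha
  obtain ⟨h1, h2, h3, _⟩ := params_ok hk hn4 (hT0 n) hn2 (h n) (q n) (Nat.log 2 n) (m n)
    hn3 (by rw [hh]) (by rw [hq]) rfl (by rw [hm])
  have hn1 := hn1 _ ((h3 b).trans (by omega)) a ha
  have hh0 : 1 ≤ h n := by rw [hh]; exact Nat.le_add_left _ _
  have hout : ∀ x : List Bool,
      (arM f).out (num (prm b n (m n) (s n) (h n) (T' n % h n) (T' n))) (m n)
        ((h n + h n) * (4 * s n + 2) + 8) (Nat.clog 2 (h n + h n) + 1 + T' n / h n + 1) x a =
      (cell (ruleW f b) n (s n) x a (T n) 0).getD 0 false := by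
    intro x
    rw [out_arM x a (h n) _ hh0 h2 le_rfl h1]
    rcases Nat.eq_zero_or_pos (s n) with h2 | h2
    · have e : ∀ t, (cell (ruleW f b) n (s n) x a t 0).getD 0 false = false := by
        intro t
        have h3 := length_cell (ruleW f b) n (s n) x a t 0
        rw [h2] at h3
        rw [h2, List.length_eq_zero_iff.mp h3]
        rfl
      rw [e, e]
    · have h3 : T' n = T n := by rw [hT']; simp only; rw [if_neg (by omega)]
      rw [h3]
  simp only [hout] at hn1
  exact hn1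

end Pool.Agent.H7CA
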