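import Pool.Agent.H7CA.CorrD
import Pool.Agent.H7CA.Asym

/-!
# Arrays against polynomial space
-/

namespace Pool.Agent.H7CA

open Pool.Agent.PPS Pool.Agent.H7LS Filter Asymptotics

/-! ### The output -/

section

variable {f : List Bool → List Bool} {b : List Bool} {d n μ s h r0 T s' : ℕ}
  {x a : List Bool}

theorem Gd_cycle (hr : r0 ≤ h)
    (hs' : (h + h + (h + h) + 2) ^ (d + 1) * (4 * s + 2) + (4 * h + 2 * (d + 1) +
      2 * ((d + 1) * μ) + 20) ≤ s') {r len t : ℕ} {fl : Bool} (hlen : len ≤ h + h)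
    (hG : Gd f b d n μ s h r0 T s' x a r 0 fl len t) :
    Gd f b d n μ s h r0 T s' x a (r + (d + 1)) 0 (decide (h + h ≤ len))
      (min (len + len - 2 * (bif decide (h + h ≤ len) then (bif fl then h else r0) else 0))
        (h + h))
      (t + (bif decide (h + h ≤ len) then (bif fl then h else r0) else 0)) := by
  have h1 : ∀ j, j ≤ d → Gd f b d n μ s h r0 T s' x a (r + j) j fl len t := by
    intro j
    induction j with
    | zero => intro _; exact hG
    | succ j ih =>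
      intro hj
      exact (Gd_next hr hs' (by omega) hlen (ih (by omega))).1 (by omega)
  have h2 := (Gd_next hr hs' (by omega) hlen (h1 d le_rfl)).2 (by omega)
  rw [Nat.two_mul]
  exact h2

theorem Gd_smy (hh : 1 ≤ h) (hr : r0 ≤ h) (hT : T < 2 ^ μ) (hn : n < 2 ^ μ)
    (hs' : (h + h + (h + h) + 2) ^ (d + 1) * (4 * s + 2) + (4 * h + 2 * (d + 1) +
      2 * ((d + 1) * μ) + 20) ≤ s') (hss : s ≤ s') (c : ℕ) :
    Gd f b d n μ s h r0 T s' x a ((d + 1) * c) 0 (smy h r0 c).1 (smy h r0 c).2.1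
      (smy h r0 c).2.2 := by
  induction c with
  | zero => exact Gd_zero hh hT hn hs' hss
  | succ c ih =>
    rw [smy]
    exact Gd_cycle hr hs' (smy_len_le hh c) ih

end

theorem nm_zero (μ d : ℕ) : nm μ d (fun _ => 0) = List.replicate (d * μ) false := by
  induction d with
  | zero => simp [nm]
  | succ d ih =>
    have e : Fin.tail (fun _ : Fin (d + 1) => 0) = fun _ : Fin d => 0 := rfl
    rw [nm, e, ih, wordN_zero, ← List.replicate_add, Nat.succ_mul, Nat.add_comm]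

/-- The answer of the simulation. -/
theorem out_arMD {f : List Bool → List Bool} {b : List Bool} {d n μ s T : ℕ} (x a : List Bool)
    (h s' : ℕ) (hh : 1 ≤ h) (hT : T < 2 ^ μ) (hn : n < 2 ^ μ)
    (hs' : (h + h + (h + h) + 2) ^ (d + 1) * (4 * s + 2) + (4 * h + 2 * (d + 1) +
      2 * ((d + 1) * μ) + 20) ≤ s') (hss : s ≤ s')
    (hm : (h + h) * ((d + 1) * (Nat.clog 2 (h + h) + 1 + T / h)) < 2 ^ μ) :
    (arMD f (d + 1)).out (numD (prmD b d n μ s h (T % h) T)) ((d + 1) * μ) s'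
      ((d + 1) * (Nat.clog 2 (h + h) + 1 + T / h) + 1) x a =
      (arr d (ruleD f b) n s x a T 0).getD 0 false := by
  have hr : T % h ≤ h := (Nat.mod_lt _ (by omega)).le
  have h7 : T % h + T / h * h = T := by
    rw [Nat.mul_comm]; exact Nat.mod_add_div T h
  have hG := Gd_smy (f := f) (b := b) (x := x) (a := a) hh hr hT hn hs' hss
    (Nat.clog 2 (h + h) + 1 + T / h)
  rw [smy_run hh hr] at hG
  simp only at hG
  rw [h7] at hG
  obtain ⟨X, h1, h2, h3⟩ := hG (List.replicate ((d + 1) * μ) false) (by simp)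
  have h6 := h3 (fun _ => 0) (nm_zero μ (d + 1)).symm (fun _ => by omega)
  have e1 : (fun l : Fin (d + 1) => (((fun _ => 0 : Fin (d + 1) → ℕ) l : ℕ) : ℤ) - T + T) =
      (0 : Fin (d + 1) → ℤ) := by
    funext l
    simp
  rw [e1] at h6
  have h8 : headB [] (d + 1) X = arr d (ruleD f b) n s x a T 0 := by
    rw [h6]
    exact headB_mkBox _ _ _ _ _ (fun i => by simp only [sd]; split_ifs <;> omega)
  unfold PMach.out
  rw [h1]
  unfold encD
  simp only [List.cons_append, List.getD_cons_zero]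
  rw [h8]

/-! ### Numbers -/

theorem exists_step {D T w s : ℕ} (hD : 1 ≤ D) (hT : s = 0 → T = 0) :
    ∃ h : ℕ, 1 ≤ h ∧ T * w ≤ h ^ (D + 1) * s ∧ h ≤ T * w + 1 ∧
      (h ^ D * s) ^ (D + 1) ≤ 2 ^ (D * (D + 1)) * ((T * w) ^ D * s) + s ^ (D + 1) := by
  classical
  have hex : ∃ h : ℕ, 1 ≤ h ∧ T * w ≤ h ^ (D + 1) * s := by
    refine ⟨T * w + 1, by omega, ?_⟩
    rcases Nat.eq_zero_or_pos s with h0 | h0
    · rw [hT h0]; simp
    · calc T * w ≤ T * w + 1 := by omega
        _ ≤ (T * w + 1) ^ (D + 1) := Nat.le_self_pow (by omega) _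
        _ ≤ (T * w + 1) ^ (D + 1) * s := Nat.le_mul_of_pos_right _ h0
  obtain ⟨h, hh⟩ : ∃ h, h = Nat.find hex := ⟨_, rfl⟩
  have hspec : 1 ≤ h ∧ T * w ≤ h ^ (D + 1) * s := by rw [hh]; exact Nat.find_spec hex
  have hmin : ∀ g, g < h → ¬ (1 ≤ g ∧ T * w ≤ g ^ (D + 1) * s) := by
    intro g hg; exact Nat.find_min hex (by rw [← hh]; exact hg)
  refine ⟨h, hspec.1, hspec.2, ?_, ?_⟩
  · by_contra hlt
    refine hmin (T * w + 1) (by omega) ⟨by omega, ?_⟩
    rcases Nat.eq_zero_or_pos s with h0 | h0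
    · rw [hT h0]; simp
    · calc T * w ≤ T * w + 1 := by omega
        _ ≤ (T * w + 1) ^ (D + 1) := Nat.le_self_pow (by omega) _
        _ ≤ (T * w + 1) ^ (D + 1) * s := Nat.le_mul_of_pos_right _ h0
  · rcases Nat.lt_or_ge h 2 with h1 | h1
    · have h2 : h = 1 := by omega
      rw [h2, one_pow, one_mul]
      exact Nat.le_add_left _ _
    · obtain ⟨g, hg⟩ : ∃ g, h = g + 1 := ⟨h - 1, by omega⟩
      have h2 := hmin g (by omega)
      have h3 : g ^ (D + 1) * s ≤ T * w := by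
        by_contra h4
        exact h2 ⟨by omega, by omega⟩
      have h4 : h ≤ 2 * g := by omega
      calc (h ^ D * s) ^ (D + 1) ≤ ((2 * g) ^ D * s) ^ (D + 1) :=
            Nat.pow_le_pow_left (Nat.mul_le_mul_right _ (Nat.pow_le_pow_left h4 _)) _
        _ = 2 ^ (D * (D + 1)) * ((g ^ (D + 1) * s) ^ D * s) := by
            rw [mul_pow, mul_pow, mul_pow, mul_pow, ← pow_mul, ← pow_mul, ← pow_mul,
              Nat.mul_comm (D + 1) D, pow_succ s D]
            ring
        _ ≤ 2 ^ (D * (D + 1)) * ((T * w) ^ D * s) :=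
            Nat.mul_le_mul_left _ (Nat.mul_le_mul_right _ (Nat.pow_le_pow_left h3 _))
        _ ≤ _ := Nat.le_add_right _ _

/-- The constant in the bound. -/
def cst (k D : ℕ) : ℕ := 6 * 6 ^ D + 30 + 5 * D + (D + 1) * (2 * D + 1) +
  2 * (2 * k * (D + 1) + D + 6) * (D * (D + 1))

theorem paramsD_ok {k n s T D h Y w μ : ℕ} (hk : 1 ≤ k) (hD : 1 ≤ D) (hn : 2 ≤ n)
    (hT : s = 0 → T = 0) (hs : s ≤ n ^ k) (hTs : (T * w) ^ D * s ≤ n ^ (k * (D + 1)))
    (hw : w = Nat.log 2 n) (hμ : μ = (w + 1) * (2 * k * (D + 1) + D + 6)) (h1 : 1 ≤ h)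
    (hY : Y = h ^ D * s) (h2 : T * w ≤ h ^ (D + 1) * s) (h3 : h ≤ T * w + 1) :
    T < 2 ^ μ ∧ n < 2 ^ μ ∧ (h + h) * (D * (Nat.clog 2 (h + h) + 1 + T / h)) < 2 ^ μ ∧
    s < 2 ^ μ ∧ h < 2 ^ μ ∧
    D * μ + ((h + h + (h + h) + 2) ^ D * (4 * s + 2) + (4 * h + 2 * D + 2 * (D * μ) + 20)) +
      (D * (Nat.clog 2 (h + h) + 1 + T / h) + 1) * (D * μ + w) ≤
    cst k D * (μ * μ + Y) := by
  have hnw : n < 2 ^ (w + 1) := by rw [hw]; exact Nat.lt_pow_succ_log_self (by omega) n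
  have hw1 : 1 ≤ w := by rw [hw]; exact Nat.log_pos (by omega) hn
  obtain ⟨κ, hκ⟩ : ∃ κ, κ = 2 * k * (D + 1) + D + 6 := ⟨_, rfl⟩
  have hκ7 : D + 7 ≤ κ := by
    have : 1 ≤ 2 * k * (D + 1) := Nat.mul_pos (by omega) (by omega)
    omega
  rw [← hκ] at hμ
  have hμκ : κ ≤ μ := by rw [hμ]; exact Nat.le_mul_of_pos_left _ (by omega)
  have hwμ : w + 1 ≤ μ := by rw [hμ]; exact Nat.le_mul_of_pos_right _ (by omega)
  obtain ⟨G, hG⟩ : ∃ G, G = n ^ (k * (D + 1)) := ⟨_, rfl⟩
  rw [← hG] at hTs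
  have hG1 : 1 ≤ G := by rw [hG]; exact Nat.one_le_pow _ _ (by omega)
  have hTw : T * w ≤ G := by
    rcases Nat.eq_zero_or_pos s with h0 | h0
    · rw [hT h0, Nat.zero_mul]; omega
    · rcases Nat.eq_zero_or_pos (T * w) with h4 | h4
      · omega
      · calc T * w ≤ (T * w) ^ D := Nat.le_self_pow (by omega) _
          _ ≤ (T * w) ^ D * s := Nat.le_mul_of_pos_right _ h0
          _ ≤ G := hTs
  have hTG : T ≤ G := (Nat.le_mul_of_pos_right _ hw1).trans hTw
  have hnk : n ^ k ≤ G := by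
    rw [hG]
    exact Nat.pow_le_pow_right (by omega) (Nat.le_mul_of_pos_right _ (by omega))
  have hnG : n ≤ G := (Nat.le_self_pow (by omega) n).trans hnk
  have hG2 : G * G ≤ 2 ^ ((w + 1) * (2 * k * (D + 1))) := by
    have e : G * G = n ^ (2 * k * (D + 1)) := by
      rw [hG, ← pow_add]; congr 1; ring
    rw [e, pow_mul 2 (w + 1) (2 * k * (D + 1))]
    exact Nat.pow_le_pow_left hnw.le _
  have hGμ : G * G * 2 ^ (D + 6) ≤ 2 ^ μ := by
    have e : μ = (w + 1) * (2 * k * (D + 1)) + (w + 1) * (D + 6) := by rw [hμ, hκ]; ring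
    rw [e, pow_add 2 ((w + 1) * (2 * k * (D + 1))) ((w + 1) * (D + 6))]
    exact Nat.mul_le_mul hG2 (Nat.pow_le_pow_right (by omega)
      (Nat.le_mul_of_pos_left _ (by omega)))
  have hGG : G ≤ G * G := Nat.le_mul_of_pos_left _ hG1
  have hD2 : D < 2 ^ D := D.lt_two_pow_self
  have hGμ2 : 64 * (G * G) * D < 2 ^ μ := by
    refine lt_of_lt_of_le ?_ hGμ
    rw [pow_add]
    calc 64 * (G * G) * D = (G * G) * (D * 2 ^ 6) := by ring
      _ < (G * G) * (2 ^ D * 2 ^ 6) :=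
        Nat.mul_lt_mul_of_pos_left (Nat.mul_lt_mul_of_pos_right hD2 (by norm_num))
          (Nat.mul_pos hG1 hG1)
  have hGD : 64 * (G * G) ≤ 64 * (G * G) * D := Nat.le_mul_of_pos_right _ hD
  have hclog : Nat.clog 2 (h + h) ≤ h + h := by
    refine Nat.clog_le_of_le_pow ?_
    exact (h + h).lt_two_pow_self.le
  have hTh0 : T / h ≤ T := Nat.div_le_self _ _
  have hcμ : Nat.clog 2 (h + h) ≤ μ := by
    refine Nat.clog_le_of_le_pow ?_
    omega
  refine ⟨by omega, by omega, ?_, by omega, by omega, ?_⟩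
  · refine lt_of_le_of_lt ?_ hGμ2
    calc (h + h) * (D * (Nat.clog 2 (h + h) + 1 + T / h)) ≤ (4 * G) * (D * (6 * G)) :=
          Nat.mul_le_mul (by omega) (Nat.mul_le_mul_left _ (by omega))
      _ = 24 * (G * G) * D := by ring
      _ ≤ 64 * (G * G) * D := Nat.mul_le_mul_right _ (by omega)
  · have hThw : T / h * w ≤ Y := by
      have h5 : T / h * w * h ≤ Y * h := by
        calc T / h * w * h = T / h * h * w := by ring
          _ ≤ T * w := Nat.mul_le_mul_right _ (Nat.div_mul_le_self T h)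
          _ ≤ h ^ (D + 1) * s := h2
          _ = Y * h := by rw [hY, pow_succ]; ring
      exact Nat.le_of_mul_le_mul_right h5 h1
    have hhD : h ^ D ≤ Y + 1 := by
      rcases Nat.eq_zero_or_pos s with h0 | h0
      · have h5 : T * w = 0 := by rw [hT h0, Nat.zero_mul]
        have h6 : h = 1 := by omega
        rw [h6, one_pow]; omega
      · rw [hY]
        have := Nat.le_mul_of_pos_right (h ^ D) h0
        omega
    have hh : h ≤ Y + 1 := (Nat.le_self_pow (by omega) h).trans hhD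
    obtain ⟨P, hP⟩ : ∃ P, P = 6 ^ D := ⟨_, rfl⟩
    obtain ⟨M, hM⟩ : ∃ M, M = μ * μ := ⟨_, rfl⟩
    have hμM : μ ≤ M := by rw [hM]; exact Nat.le_mul_of_pos_left _ (by omega)
    have hM1 : 1 ≤ M := by omega
    have a1 : (h + h + (h + h) + 2) ^ D * (4 * s + 2) ≤ 6 * (P * Y) + 2 * P := by
      calc (h + h + (h + h) + 2) ^ D * (4 * s + 2) ≤ (6 * h) ^ D * (4 * s + 2) :=
            Nat.mul_le_mul_right _ (Nat.pow_le_pow_left (by omega) _)
        _ = 4 * (P * (h ^ D * s)) + 2 * (P * h ^ D) := by rw [mul_pow, hP]; ring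
        _ ≤ 4 * (P * Y) + 2 * (P * (Y + 1)) := by
            rw [← hY]
            exact Nat.add_le_add_left (Nat.mul_le_mul_left _ (Nat.mul_le_mul_left _ hhD)) _
        _ = 6 * (P * Y) + 2 * P := by ring
    have a2 : (D * (Nat.clog 2 (h + h) + 1 + T / h) + 1) * (D * μ + w) ≤
        (D + 1) * (2 * D + 1) * M + 2 * κ * (D * (D + 1)) * Y := by
      have b1 : D * (Nat.clog 2 (h + h) + 1 + T / h) + 1 ≤ (2 * D + 1) * μ + D * (T / h) := by
        have b2 : D * (Nat.clog 2 (h + h) + 1 + T / h) ≤ D * (μ + μ + T / h) :=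
          Nat.mul_le_mul_left _ (by omega)
        have b3 : D * (μ + μ + T / h) = 2 * D * μ + D * (T / h) := by ring
        have b4 : (2 * D + 1) * μ = 2 * D * μ + μ := by ring
        omega
      have b2 : D * μ + w ≤ (D + 1) * μ := by
        have : (D + 1) * μ = D * μ + μ := by ring
        omega
      have b3 : T / h * μ ≤ 2 * κ * Y := by
        calc T / h * μ = κ * (T / h * (w + 1)) := by rw [hμ]; ring
          _ ≤ κ * (2 * Y) := by
            refine Nat.mul_le_mul_left _ ?_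
            have b5 : T / h ≤ T / h * w := Nat.le_mul_of_pos_right _ hw1
            rw [Nat.mul_add, Nat.mul_one]
            omega
          _ = 2 * κ * Y := by ring
      calc (D * (Nat.clog 2 (h + h) + 1 + T / h) + 1) * (D * μ + w)
          ≤ ((2 * D + 1) * μ + D * (T / h)) * ((D + 1) * μ) := Nat.mul_le_mul b1 b2
        _ = (D + 1) * (2 * D + 1) * M + (D * (D + 1)) * (T / h * μ) := by rw [hM]; ring
        _ ≤ (D + 1) * (2 * D + 1) * M + (D * (D + 1)) * (2 * κ * Y) :=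
            Nat.add_le_add_left (Nat.mul_le_mul_left _ b3) _
        _ = _ := by ring
    have a3 : D * μ ≤ D * M := Nat.mul_le_mul_left _ hμM
    have a4 : P ≤ P * M := Nat.le_mul_of_pos_right _ hM1
    have a5 : D ≤ D * M := Nat.le_mul_of_pos_right _ hM1
    have e : cst k D * (M + Y) = 6 * (P * M) + 30 * M + 5 * (D * M) +
        (D + 1) * (2 * D + 1) * M + 2 * κ * (D * (D + 1)) * M +
        (6 * (P * Y) + 30 * Y + 5 * (D * Y) + (D + 1) * (2 * D + 1) * Y +
          2 * κ * (D * (D + 1)) * Y) := by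
      unfold cst
      rw [← hP, ← hκ]
      ring
    rw [← hM, e]
    omega

theorem log_numD_le {b : List Bool} {d n μ s h r0 T : ℕ} (h2 : h < 2 ^ μ) (h3 : s < 2 ^ μ)
    (h4 : r0 < 2 ^ μ) : Nat.log 2 (numD (prmD b d n μ s h r0 T)) ≤
      4 * b.length + (4 * d + 20) * μ + 13 := by
  have hsz : size (prmD b d n μ s h r0 T) ≤ 4 * b.length + (4 * d + 20) * μ + 13 := by
    unfold prmD
    simp only [size_pair]
    have e1 := size_word_le b
    have e2 := size_bits_le h2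
    have e3 := size_bits_le h3
    have e4 := size_bits_le h4
    have e5 := size_word_le (wordN μ (2 ^ μ - T))
    have e6 := size_word_le (wordN μ n)
    have e7 := size_word_le (nm μ d (fun _ => T))
    rw [length_wordN] at e5 e6
    rw [length_nm] at e7
    have e8 : (4 * d + 20) * μ = 4 * (d * μ) + 20 * μ := by ring
    omega
  refine le_trans ?_ hsz
  obtain ⟨P, hP⟩ : ∃ P, P = prmD b d n μ s h r0 T := ⟨_, rfl⟩
  rw [← hP]
  have hlt : numD P < 2 ^ (size P + 1) := by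
    have h := valW_lt (code P ++ [true])
    have h2 : (code P ++ [true]).length = size P + 1 := by
      rw [List.length_append]; rfl
    rw [h2] at h
    exact h
  have hne : numD P ≠ 0 := by
    intro h0
    have h1 := bits_valW (code P)
    have h2 : valW (code P ++ [true]) = 0 := h0
    rw [h2] at h1
    simp at h1
  have := (Nat.log_lt_iff_lt_pow (by omega) hne).mpr hlt
  omega

/-- Small arrays do not decide all languages in polynomial space, even approximately. -/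
theorem arraysD (k : ℕ) (hk : 1 ≤ k) (K : ℕ) (c : ℝ) (hc : c < 1 / 2) :
    ∃ L ∈ SPC k, ∀ d : ℕ, ∀ f ∈ FLIN, ∀ p s T : ℕ → ℕ,
      (fun n : ℕ => (p n : ℝ) + s n) =o[atTop] (fun n : ℕ => (n : ℝ) ^ k) →
      (fun n : ℕ => ((T n : ℝ) * Nat.log 2 n) ^ (d + 1) * s n) =o[atTop]
        (fun n : ℕ => (n : ℝ) ^ (k * (d + 2))) →
      ∀ᶠ n : ℕ in atTop, ∀ b a : List Bool, b.length ≤ p n → a.length ≤ K * n ^ k →
        |({x : List Bool | x.length = n ∧
            ((arr d (ruleD f b) n (s n) x a (T n) 0).getD 0 false = true ↔ x ∈ L)}.ncard : ℝ) /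
            2 ^ n - 1 / 2| ≤ 2 ^ (-(c * n)) := by
  obtain ⟨L, hL, hlow⟩ := lower_bound' k hk K c hc
  refine ⟨L, hL, ?_⟩
  intro d f hf p s T ho0 ho2
  have ho1 : (fun n : ℕ => (s n : ℝ)) =o[atTop] (fun n : ℕ => (n : ℝ) ^ k) := by
    refine IsBigO.trans_isLittleO (IsBigO.of_bound 1 (Eventually.of_forall fun n => ?_)) ho0
    rw [one_mul, Real.norm_of_nonneg (by positivity), Real.norm_of_nonneg (by positivity)]
    have : (0 : ℝ) ≤ p n := Nat.cast_nonneg _
    linarith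
  obtain ⟨T', hT'⟩ : ∃ T' : ℕ → ℕ, T' = fun n => if s n = 0 then 0 else T n := ⟨_, rfl⟩
  have hT0 : ∀ n, s n = 0 → T' n = 0 := fun n h => by rw [hT']; simp [h]
  have hTle : ∀ n, T' n ≤ T n := fun n => by
    rw [hT']; simp only; split_ifs <;> omega
  choose h hh1 hh2 hh3 hh4 using fun n => exists_step (D := d + 1) (T := T' n)
    (w := Nat.log 2 n) (s := s n) (by omega) (hT0 n)
  obtain ⟨Y, hY⟩ : ∃ Y : ℕ → ℕ, Y = fun n => h n ^ (d + 1) * s n := ⟨_, rfl⟩
  obtain ⟨μ, hμ⟩ : ∃ μ : ℕ → ℕ, μ = fun n => (Nat.log 2 n + 1) *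
      (2 * k * (d + 1 + 1) + (d + 1) + 6) := ⟨_, rfl⟩
  -- the conditions for large n
  have hTn : ∀ n, (T' n * Nat.log 2 n) ^ (d + 1) * s n ≤
      (T n * Nat.log 2 n) ^ (d + 1) * s n := by
    intro n
    exact Nat.mul_le_mul_right _ (Nat.pow_le_pow_left (Nat.mul_le_mul_right _ (hTle n)) _)
  have ev1 : ∀ᶠ n : ℕ in atTop, s n ≤ n ^ k := by
    filter_upwards [ho1.bound (show (0 : ℝ) < 1 by norm_num)] with n hn
    rw [Real.norm_of_nonneg (by positivity), Real.norm_of_nonneg (by positivity),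
      one_mul] at hn
    exact_mod_cast hn
  have ev2 : ∀ᶠ n : ℕ in atTop, (T' n * Nat.log 2 n) ^ (d + 1) * s n ≤
      n ^ (k * (d + 1 + 1)) := by
    filter_upwards [ho2.bound (show (0 : ℝ) < 1 by norm_num)] with n hn
    rw [Real.norm_of_nonneg (by positivity), Real.norm_of_nonneg (by positivity),
      one_mul] at hn
    have h1 : (T n * Nat.log 2 n) ^ (d + 1) * s n ≤ n ^ (k * (d + 2)) := by exact_mod_cast hn
    exact (hTn n).trans h1
  -- the little-o conditions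
  have hYo : (fun n : ℕ => (Y n : ℝ)) =o[atTop] (fun n : ℕ => (n : ℝ) ^ k) := by
    rw [isLittleO_iff]
    intro ε hε
    obtain ⟨η, hη⟩ : ∃ η : ℝ, η = ε ^ (d + 2) / (2 * 2 ^ ((d + 1) * (d + 2))) := ⟨_, rfl⟩
    have hη0 : 0 < η := by rw [hη]; positivity
    obtain ⟨θ, hθ⟩ : ∃ θ : ℝ, θ = ε / 2 := ⟨_, rfl⟩
    have hθ0 : 0 < θ := by rw [hθ]; positivity
    filter_upwards [ho2.bound hη0, ho1.bound hθ0] with n hn hn'
    rw [Real.norm_of_nonneg (by positivity), Real.norm_of_nonneg (by positivity)] at hn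
    rw [Real.norm_of_nonneg (by positivity), Real.norm_of_nonneg (by positivity)] at hn'
    rw [Real.norm_of_nonneg (by positivity), Real.norm_of_nonneg (by positivity)]
    refine le_of_pow_le_pow_left₀ (n := d + 2) (by omega) (by positivity) ?_
    have h1 : (Y n : ℝ) ^ (d + 2) ≤ 2 ^ ((d + 1) * (d + 2)) *
        (((T n : ℝ) * Nat.log 2 n) ^ (d + 1) * s n) + (s n : ℝ) ^ (d + 2) := by
      have h2 : Y n ^ (d + 2) ≤ 2 ^ ((d + 1) * (d + 2)) *
        ((T n * Nat.log 2 n) ^ (d + 1) * s n) + s n ^ (d + 2) := by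
        rw [hY]
        exact (hh4 n).trans (Nat.add_le_add_right (Nat.mul_le_mul_left _ (hTn n)) _)
      exact_mod_cast h2
    have h3 : (s n : ℝ) ^ (d + 2) ≤ (θ * (n : ℝ) ^ k) ^ (d + 2) :=
      pow_le_pow_left₀ (by positivity) hn' _
    have h4 : (θ : ℝ) ^ (d + 2) ≤ ε ^ (d + 2) / 2 := by
      rw [hθ, div_pow]
      have h5 : (2 : ℝ) ≤ 2 ^ (d + 2) := by
        calc (2 : ℝ) = 2 ^ 1 := by norm_num
          _ ≤ 2 ^ (d + 2) := pow_le_pow_right₀ (by norm_num) (by omega)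
      exact div_le_div_of_nonneg_left (by positivity) (by norm_num) h5
    calc (Y n : ℝ) ^ (d + 2) ≤ 2 ^ ((d + 1) * (d + 2)) *
        (((T n : ℝ) * Nat.log 2 n) ^ (d + 1) * s n) + (s n : ℝ) ^ (d + 2) := h1
      _ ≤ 2 ^ ((d + 1) * (d + 2)) * (η * (n : ℝ) ^ (k * (d + 2))) +
          (θ * (n : ℝ) ^ k) ^ (d + 2) :=
        add_le_add (mul_le_mul_of_nonneg_left hn (by positivity)) h3
      _ = ε ^ (d + 2) / 2 * ((n : ℝ) ^ k) ^ (d + 2) + θ ^ (d + 2) * ((n : ℝ) ^ k) ^ (d + 2) := by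
        have h6 : (2 : ℝ) ^ ((d + 1) * (d + 2)) * η = ε ^ (d + 2) / 2 := by
          rw [hη]; field_simp
        rw [← mul_assoc, h6, mul_pow, pow_mul (n : ℝ) k (d + 2)]
      _ ≤ ε ^ (d + 2) / 2 * ((n : ℝ) ^ k) ^ (d + 2) +
          ε ^ (d + 2) / 2 * ((n : ℝ) ^ k) ^ (d + 2) :=
        add_le_add_right (mul_le_mul_of_nonneg_right h4 (by positivity)) _
      _ = (ε * (n : ℝ) ^ k) ^ (d + 2) := by rw [mul_pow]; ring
  have hpow : (fun n : ℕ => (n : ℝ)) =O[atTop] (fun n : ℕ => (n : ℝ) ^ k) := by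
    refine IsBigO.of_bound 1 ?_
    filter_upwards [eventually_ge_atTop 1] with n hn
    rw [one_mul, Real.norm_of_nonneg (by positivity), Real.norm_of_nonneg (by positivity)]
    have := le_pow_self' n hk
    exact_mod_cast this
  obtain ⟨κ, hκ⟩ : ∃ κ : ℕ, κ = 2 * k * (d + 1 + 1) + (d + 1) + 6 := ⟨_, rfl⟩
  obtain ⟨C, hC⟩ : ∃ C : ℕ, C = cst k (d + 1) + (4 * d + 20) + 13 := ⟨_, rfl⟩
  have hG : (fun n : ℕ => (C : ℝ) * ((κ : ℝ) ^ 2 *
      (((Nat.log 2 n : ℝ) + 1) * ((Nat.log 2 n : ℝ) + 1)) + (Y n : ℝ)) +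
      4 * ((p n : ℝ) + s n)) =o[atTop] (fun n : ℕ => (n : ℝ) ^ k) :=
    ((((sq_log_isLittleO.trans_isBigO hpow).const_mul_left _).add hYo).const_mul_left _).add
      (ho0.const_mul_left _)
  have key := hlow (arMD f (d + 1)) (arMD_addr_mem f _) (arMD_upd_mem hf _)
    (fun n => (d + 1) * μ n)
    (fun n => (h n + h n + (h n + h n) + 2) ^ (d + 1) * (4 * s n + 2) +
      (4 * h n + 2 * (d + 1) + 2 * ((d + 1) * μ n) + 20))
    (fun n => (d + 1) * (Nat.clog 2 (h n + h n) + 1 + T' n / h n) + 1)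
    (fun n => 4 * p n + (4 * d + 20) * μ n + 13) (by
      refine IsBigO.trans_isLittleO (IsBigO.of_bound 1 ?_) hG
      filter_upwards [ev1, ev2, eventually_ge_atTop 2] with n hn1 hn2 hn3
      obtain ⟨_, _, _, _, _, h2⟩ := paramsD_ok (h := h n) (Y := Y n) (w := Nat.log 2 n)
        (μ := μ n) hk (by omega) hn3 (hT0 n) hn1 hn2 rfl (by rw [hμ]) (hh1 n) (by rw [hY])
        (hh2 n) (hh3 n)
      rw [one_mul, Real.norm_of_nonneg (by positivity), Real.norm_of_nonneg (by positivity)]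
      have hμ1 : 1 ≤ μ n := by rw [hμ]; exact Nat.mul_pos (by omega) (by omega)
      have hμ2 : μ n ≤ μ n * μ n := Nat.le_mul_of_pos_left _ hμ1
      have h3 : (d + 1) * μ n + ((h n + h n + (h n + h n) + 2) ^ (d + 1) * (4 * s n + 2) +
          (4 * h n + 2 * (d + 1) + 2 * ((d + 1) * μ n) + 20)) +
          ((d + 1) * (Nat.clog 2 (h n + h n) + 1 + T' n / h n) + 1) *
            ((d + 1) * μ n + Nat.log 2 n) + (4 * p n + (4 * d + 20) * μ n + 13) ≤
          C * (μ n * μ n + Y n) + 4 * p n := by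
        have h4 : (4 * d + 20) * μ n ≤ (4 * d + 20) * (μ n * μ n) := Nat.mul_le_mul_left _ hμ2
        have h5 : C * (μ n * μ n + Y n) = cst k (d + 1) * (μ n * μ n + Y n) +
          (4 * d + 20) * (μ n * μ n) + 13 * (μ n * μ n) + ((4 * d + 20) + 13) * Y n := by
          rw [hC]; ring
        omega
      have h3' : (((d + 1) * μ n + ((h n + h n + (h n + h n) + 2) ^ (d + 1) *
          (4 * s n + 2) + (4 * h n + 2 * (d + 1) + 2 * ((d + 1) * μ n) + 20)) +
          ((d + 1) * (Nat.clog 2 (h n + h n) + 1 + T' n / h n) + 1) *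
            ((d + 1) * μ n + Nat.log 2 n) + (4 * p n + (4 * d + 20) * μ n + 13) : ℕ) : ℝ) ≤
          ((C * (μ n * μ n + Y n) + 4 * p n : ℕ) : ℝ) := by exact_mod_cast h3
      have h6 : ((C * (μ n * μ n + Y n) + 4 * p n : ℕ) : ℝ) ≤ (C : ℝ) * ((κ : ℝ) ^ 2 *
          (((Nat.log 2 n : ℝ) + 1) * ((Nat.log 2 n : ℝ) + 1)) + (Y n : ℝ)) +
          4 * ((p n : ℝ) + s n) := by
        have h7 : (μ n : ℝ) * μ n = (κ : ℝ) ^ 2 *
            (((Nat.log 2 n : ℝ) + 1) * ((Nat.log 2 n : ℝ) + 1)) := by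
          have h8 : (μ n : ℝ) = ((Nat.log 2 n : ℝ) + 1) * (κ : ℝ) := by
            rw [hμ, hκ]; push_cast; ring
          rw [h8]; ring
        push_cast
        rw [h7]
        have : (0 : ℝ) ≤ s n := Nat.cast_nonneg _
        linarith
      refine le_trans (le_of_eq ?_) (h3'.trans h6)
      push_cast
      ring)
  filter_upwards [key, ev1, ev2, eventually_ge_atTop 2] with n hn1 hn2 hn3 hn4
  intro b a hb ha
  obtain ⟨h1, h2, h3, h4, h5, _⟩ := paramsD_ok (h := h n) (Y := Y n) (w := Nat.log 2 n)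
    (μ := μ n) hk (by omega) hn4 (hT0 n) hn2 hn3 rfl (by rw [hμ]) (hh1 n) (by rw [hY])
    (hh2 n) (hh3 n)
  have hr0 : T' n % h n < h n := Nat.mod_lt _ (hh1 n)
  have hlog := log_numD_le (b := b) (d := d) (n := n) (T := T' n) h5 h4
    (show T' n % h n < 2 ^ μ n by omega)
  have hn1 := hn1 _ (hlog.trans (by omega)) a ha
  have hss : s n ≤ (h n + h n + (h n + h n) + 2) ^ (d + 1) * (4 * s n + 2) +
      (4 * h n + 2 * (d + 1) + 2 * ((d + 1) * μ n) + 20) := by
    have h6 : 1 * (4 * s n + 2) ≤ (h n + h n + (h n + h n) + 2) ^ (d + 1) * (4 * s n + 2) :=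
      Nat.mul_le_mul_right _ (Nat.one_le_pow _ _ (by omega))
    omega
  have hout : ∀ x : List Bool,
      (arMD f (d + 1)).out (numD (prmD b d n (μ n) (s n) (h n) (T' n % h n) (T' n)))
        ((d + 1) * μ n) ((h n + h n + (h n + h n) + 2) ^ (d + 1) * (4 * s n + 2) +
          (4 * h n + 2 * (d + 1) + 2 * ((d + 1) * μ n) + 20))
        ((d + 1) * (Nat.clog 2 (h n + h n) + 1 + T' n / h n) + 1) x a =
      (arr d (ruleD f b) n (s n) x a (T n) 0).getD 0 false := by
    intro x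
    rw [out_arMD x a (h n) _ (hh1 n) h1 h2 le_rfl hss h3]
    rcases Nat.eq_zero_or_pos (s n) with h2 | h2
    · have e : ∀ t, (arr d (ruleD f b) n (s n) x a t 0).getD 0 false = false := by
        intro t
        have h3 := length_arr d (ruleD f b) n (s n) x a t 0
        rw [h2] at h3
        rw [h2, List.length_eq_zero_iff.mp h3]
        rfl
      rw [e, e]
    · have h3 : T' n = T n := by rw [hT']; simp only; rw [if_neg (by omega)]
      rw [h3]
  simp only [hout] at hn1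
  exact hn1

end Pool.Agent.H7CA
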