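import Pool.Agent.H7CA.Mach

/-!
# Boxes of any dimension, as nested lists
-/

namespace Pool.Agent.H7CA

open Pool.Agent.PPS Pool.Agent.H7LS

variable {α β γ δ σ τ : Type} [Rep α] [Rep β] [Rep γ] [Rep δ] [Rep σ] [Rep τ]

/-- Nested lists of depth `d`. -/
def Bx (σ : Type) : ℕ → Type
  | 0 => σ
  | d + 1 => List (Bx σ d)

instance instRepBx {σ : Type} [Rep σ] : (d : ℕ) → Rep (Bx σ d)
  | 0 => inferInstanceAs (Rep σ)
  | d + 1 =>
    letI := instRepBx (σ := σ) d
    inferInstanceAs (Rep (List (Bx σ d)))

noncomputable instance instDRepBx {σ : Type} [Rep σ] [DRep σ] : (d : ℕ) → DRep (Bx σ d)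
  | 0 => inferInstanceAs (DRep σ)
  | d + 1 =>
    letI := instDRepBx (σ := σ) d
    inferInstanceAs (DRep (List (Bx σ d)))

/-- Map a closed function over a list. -/
theorem LT.mapC {f : β → γ} (hf : LT f) : LT (fun L : List β => L.map f) := by
  obtain ⟨C, hC0, hC⟩ := hf.exists_size_le
  refine LT.map' (l := fun L : List β => L) (f := fun p : List β × β => f p.2) (by fun_prop)
    (hf.comp (f := fun p : List β × β => p.2) (by fun_prop)) C ?_
  intro L
  exact size_map_le hC0 (fun b _ => hC b)

theorem LT.mapC' {f : β → γ} (hf : LT f) {L : α → List β} (hL : LT L) :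
    LT (fun a => (L a).map f) := (LT.mapC hf).comp hL

/-! ### Map -/

/-- Apply `f` to every cell. -/
def mapB (f : β → γ) : (d : ℕ) → Bx β d → Bx γ d
  | 0, x => f x
  | d + 1, L => List.map (mapB f d) L

theorem LT.mapB' {f : α × β → γ} (hf : LT f) {c : ℕ} (hc : 1 ≤ c)
    (hsz : ∀ a b, size (f (a, b)) ≤ c * size b) (d : ℕ) :
    LT (fun p : α × Bx β d => mapB (fun b => f (p.1, b)) d p.2) ∧
      ∀ (a : α) (X : Bx β d), size (mapB (fun b => f (a, b)) d X) ≤ c * size X := by
  induction d with
  | zero => exact ⟨hf, hsz⟩
  | succ d ih =>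
    obtain ⟨ih1, ih2⟩ := ih
    have h2 : ∀ (a : α) (X : List (Bx β d)),
        size (X.map (mapB (fun b => f (a, b)) d)) ≤ c * size X := by
      intro a X
      exact size_map_le hc (fun b _ => ih2 a b)
    refine ⟨?_, h2⟩
    refine LT.map' (l := fun p : α × List (Bx β d) => p.2)
      (f := fun q : (α × List (Bx β d)) × Bx β d => mapB (fun b => f (q.1.1, b)) d q.2)
      (by fun_prop)
      (ih1.comp (f := fun q : (α × List (Bx β d)) × Bx β d => (q.1.1, q.2)) (by fun_prop)) c ?_
    intro p
    refine (h2 p.1 p.2).trans (Nat.mul_le_mul_left _ ?_)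
    obtain ⟨a, X⟩ := p
    rw [size_pair]
    simp only
    omega

theorem LT.mapBC {f : β → γ} (hf : LT f) (d : ℕ) : LT (fun X : Bx β d => mapB f d X) := by
  obtain ⟨C, hC0, hC⟩ := hf.exists_size_le
  have h := (LT.mapB' (α := Bool) (f := fun p : Bool × β => f p.2)
    (hf.comp (f := fun p : Bool × β => p.2) (by fun_prop)) hC0 (fun _ b => hC b) d).1
  exact h.comp (f := fun X : Bx β d => (true, X)) (by fun_prop)

/-! ### Zip -/

/-- Pair the cells of two boxes. -/
def zipB : (d : ℕ) → Bx β d → Bx γ d → Bx (β × γ) d
  | 0, x, y => (x, y)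
  | d + 1, L, M => List.map (fun p : Bx β d × Bx γ d => zipB d p.1 p.2) (List.zip L M)

theorem LT.zipBC (d : ℕ) : LT (fun p : Bx β d × Bx γ d => zipB d p.1 p.2) := by
  induction d with
  | zero => exact LT.id
  | succ d ih =>
    have h : LT (fun p : List (Bx β d) × List (Bx γ d) =>
        (p.1.zip p.2).map (fun p : Bx β d × Bx γ d => zipB d p.1 p.2)) :=
      LT.mapC' ih (by fun_prop)
    exact h

/-! ### The neighbours -/

/-- Join three lists. -/
def app3 (q : List β × (List β × List β)) : List β := q.1 ++ (q.2.1 ++ q.2.2)

theorem LT_app3 : LT (fun q : List β × (List β × List β) => app3 q) := by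
  unfold app3
  fun_prop

/-- For every interior cell of a box, the contents of all cells at distance at most `1`. -/
def nbhB : (d : ℕ) → Bx β d → Bx (List β) d
  | 0, x => [x]
  | d + 1, L => List.map (fun p : Bx β d × (Bx β d × Bx β d) =>
      mapB app3 d (zipB d (nbhB d p.1) (zipB d (nbhB d p.2.1) (nbhB d p.2.2))))
      (List.zip L (List.zip (List.tail L) (List.tail (List.tail L))))

theorem LT.nbhBC (d : ℕ) : LT (fun X : Bx β d => nbhB d X) := by
  induction d with
  | zero =>
    have h : LT (fun x : β => [x]) := by fun_prop
    exact h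
  | succ d ih =>
    have h1 : LT (fun p : Bx β d × (Bx β d × Bx β d) =>
        (nbhB d p.1, (nbhB d p.2.1, nbhB d p.2.2))) :=
      (ih.comp LT.fst).prodMk ((ih.comp (LT.fst.comp LT.snd)).prodMk
        (ih.comp (LT.snd.comp LT.snd)))
    have h2 : LT (fun p : Bx β d × (Bx β d × Bx β d) =>
        mapB app3 d (zipB d (nbhB d p.1) (zipB d (nbhB d p.2.1) (nbhB d p.2.2)))) := by
      have h3 := (LT.zipBC (β := List β) (γ := List β) d).comp (LT.snd.comp h1)
      have h4 := (LT.zipBC (β := List β) (γ := List β × List β) d).comp
        ((LT.fst.comp h1).prodMk h3)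
      exact (LT.mapBC LT_app3 d).comp h4
    have h5 : LT (fun L : List (Bx β d) => (L.zip (L.tail.zip L.tail.tail)).map
        (fun p : Bx β d × (Bx β d × Bx β d) =>
        mapB app3 d (zipB d (nbhB d p.1) (zipB d (nbhB d p.2.1) (nbhB d p.2.2))))) :=
      LT.mapC' h2 (by fun_prop)
    exact h5

/-! ### Append, take, singletons -/

/-- Put two boxes together along axis `j`. -/
def appB : (d : ℕ) → ℕ → Bx β d → Bx β d → Bx β d
  | 0, _, x, _ => x
  | d + 1, 0, L, M => List.append L M
  | d + 1, j + 1, L, M => List.map (fun p : Bx β d × Bx β d => appB d j p.1 p.2) (List.zip L M)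

theorem size_appB (d : ℕ) : ∀ (j : ℕ) (X Y : Bx β d),
    size (appB d j X Y) ≤ size X + size Y := by
  induction d with
  | zero => intro j X Y; exact Nat.le_add_right _ _
  | succ d ih =>
    intro j X Y
    cases j with
    | zero =>
      have h : ∀ L M : List (Bx β d), size (L ++ M) ≤ size L + size M := by
        intro L M
        have := size_append L M
        omega
      exact h X Y
    | succ j =>
      have h : size (((X : List (Bx β d)).zip (Y : List (Bx β d))).map
          (fun p : Bx β d × Bx β d => appB d j p.1 p.2)) ≤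
          1 * size ((X : List (Bx β d)).zip (Y : List (Bx β d))) := by
        refine size_map_le le_rfl (fun p _ => ?_)
        obtain ⟨A, B⟩ := p
        rw [size_pair]
        have := ih j A B
        simp only
        omega
      rw [one_mul] at h
      exact h.trans (size_zip_le _ _)

theorem LT.appB' (d : ℕ) : LT (fun p : ℕ × (Bx β d × Bx β d) => appB d p.1 p.2.1 p.2.2) := by
  induction d with
  | zero =>
    have h : LT (fun p : ℕ × (β × β) => p.2.1) := by fun_prop
    exact h
  | succ d ih =>
    have h1 : LT (fun q : ℕ × (List (Bx β d) × List (Bx β d)) =>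
        (q.2.1.zip q.2.2).map (fun p : Bx β d × Bx β d => appB d q.1 p.1 p.2)) := by
      refine LT.map' (l := fun q : ℕ × (List (Bx β d) × List (Bx β d)) => q.2.1.zip q.2.2)
        (f := fun v : (ℕ × (List (Bx β d) × List (Bx β d))) × (Bx β d × Bx β d) =>
          appB d v.1.1 v.2.1 v.2.2) (by fun_prop)
        (ih.comp (f := fun v : (ℕ × (List (Bx β d) × List (Bx β d))) × (Bx β d × Bx β d) =>
          (v.1.1, v.2)) (by fun_prop)) 1 ?_
      intro q
      refine (size_map_le (c := 1) le_rfl (fun p _ => ?_)).trans ?_
      · obtain ⟨A, B⟩ := p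
        rw [size_pair]
        have := size_appB d q.1 A B
        simp only
        omega
      · obtain ⟨j, L, M⟩ := q
        rw [size_pair, size_pair]
        have := size_zip_le L M
        simp only
        omega
    have h2 : LT (fun p : ℕ × (List (Bx β d) × List (Bx β d)) => match p.1 with
        | 0 => p.2.1 ++ p.2.2
        | j + 1 => (p.2.1.zip p.2.2).map (fun q : Bx β d × Bx β d => appB d j q.1 q.2)) := by
      have h3 := LT.natCase (n := fun p : ℕ × (List (Bx β d) × List (Bx β d)) => p.1)
        (f := fun p => p.2.1 ++ p.2.2)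
        (g := fun v : ℕ × (ℕ × (List (Bx β d) × List (Bx β d))) =>
          (v.2.2.1.zip v.2.2.2).map (fun q : Bx β d × Bx β d => appB d v.1 q.1 q.2))
        (by fun_prop) (by fun_prop)
        (h1.comp (f := fun v : ℕ × (ℕ × (List (Bx β d) × List (Bx β d))) =>
          (v.1, v.2.2)) (by fun_prop))
      refine h3.of_eq (fun p => ?_)
      rcases p with ⟨_ | j, L, M⟩ <;> rfl
    refine h2.of_eq (fun p => ?_)
    rcases p with ⟨_ | j, L, M⟩ <;> rfl

/-- Cut a box to side `k`. -/
def takeB (k : ℕ) : (d : ℕ) → Bx β d → Bx β d
  | 0, x => x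
  | d + 1, L => List.map (takeB k d) (List.take k L)

theorem size_takeB (k d : ℕ) : ∀ X : Bx β d, size (takeB k d X) ≤ size X := by
  induction d with
  | zero => intro X; exact le_rfl
  | succ d ih =>
    intro X
    have h : size (((X : List (Bx β d)).take k).map (takeB k d)) ≤
        1 * size ((X : List (Bx β d)).take k) :=
      size_map_le le_rfl (fun A _ => by rw [one_mul]; exact ih A)
    rw [one_mul] at h
    exact h.trans (size_take_le _ _)

theorem LT.takeB' (d : ℕ) : LT (fun p : ℕ × Bx β d => takeB p.1 d p.2) := by
  induction d with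
  | zero =>
    have h : LT (fun p : ℕ × β => p.2) := by fun_prop
    exact h
  | succ d ih =>
    have h : LT (fun p : ℕ × List (Bx β d) => (p.2.take p.1).map (fun A => takeB p.1 d A)) := by
      refine LT.map' (l := fun p : ℕ × List (Bx β d) => p.2.take p.1)
        (f := fun v : (ℕ × List (Bx β d)) × Bx β d => takeB v.1.1 d v.2) (by fun_prop)
        (ih.comp (f := fun v : (ℕ × List (Bx β d)) × Bx β d => (v.1.1, v.2)) (by fun_prop))
        1 ?_
      intro p
      refine (size_map_le (c := 1) le_rfl (fun A _ => ?_)).trans ?_
      · rw [one_mul]; exact size_takeB _ _ _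
      · obtain ⟨k, L⟩ := p
        rw [size_pair, one_mul, one_mul]
        have := size_take_le L k
        simp only
        omega
    exact h

/-- A box with one cell. -/
def oneB : (d : ℕ) → β → Bx β d
  | 0, x => x
  | d + 1, x => [oneB d x]

theorem LT.oneBC (d : ℕ) : LT (fun x : β => (oneB d x : Bx β d)) := by
  induction d with
  | zero => exact LT.id
  | succ d ih =>
    have h : LT (fun A : Bx β d => [A]) := by fun_prop
    exact h.comp ih

/-- The first cell of a box. -/
def headB (x : β) : (d : ℕ) → Bx β d → β
  | 0, y => y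
  | d + 1, L => match List.head? L with
    | none => x
    | some A => headB x d A

theorem LT.headBC (x : β) (d : ℕ) : LT (fun X : Bx β d => headB x d X) := by
  induction d with
  | zero => exact LT.id
  | succ d ih =>
    have h : LT (fun L : List (Bx β d) => match L with
        | [] => x
        | A :: _ => headB x d A) := by
      have := LT.listCase (l := fun L : List (Bx β d) => L) (f := fun _ => x)
        (g := fun v : (Bx β d × List (Bx β d)) × List (Bx β d) => headB x d v.1.1)
        (by fun_prop) (by fun_prop)
        (ih.comp (f := fun v : (Bx β d × List (Bx β d)) × List (Bx β d) => v.1.1)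
          (by fun_prop))
      refine this.of_eq (fun L => ?_)
      cases L <;> rfl
    refine h.of_eq (fun L => ?_)
    cases L <;> rfl

/-! ### One step of a box of cells -/

/-- The concatenation of a list of words. -/
def cat (l : List (List Bool)) : List Bool := l.foldl (fun acc u => acc ++ u) []

theorem cat_eq (l : List (List Bool)) : cat l = l.flatten := by
  have h : ∀ (l : List (List Bool)) (acc : List Bool),
      l.foldl (fun acc u => acc ++ u) acc = acc ++ l.flatten := by
    intro l
    induction l with
    | nil => simp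
    | cons u l ih => intro acc; simp [ih]
  unfold cat
  rw [h, List.nil_append]

theorem length_flatten_le (l : List (List Bool)) : l.flatten.length ≤ size l := by
  induction l with
  | nil => simp
  | cons u l ih =>
    rw [List.flatten_cons, List.length_append, size_cons]
    have := le_size_word u
    omega

@[fun_prop]
theorem LT.cat' {l : α → List (List Bool)} (hl : LT l) : LT (fun a => cat (l a)) := by
  have h : LT (fun l : List (List Bool) => cat l) := by
    refine LT.foldl (l := fun l : List (List Bool) => l) (ini := fun _ => [])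
      (s := fun v : List (List Bool) × (List Bool × List Bool) => v.2.1 ++ v.2.2)
      (by fun_prop) (by fun_prop) (by fun_prop) 5 ?_
    intro l k
    show size (cat (l.take k)) ≤ _
    rw [cat_eq]
    have h1 := size_word_le (l.take k).flatten
    have h2 := length_flatten_le (l.take k)
    have h3 := size_take_le l k
    have h4 := size_pos l
    omega
  exact h.comp hl

/-- One step of a box of cells. -/
def stepB (f : List Bool → List Bool) (b : List Bool) (d : ℕ) (X : Bx (List Bool) d) :
    Bx (List Bool) d :=
  mapB (fun l : List (List Bool) => fit (l.headD []).length (f (blk b ++ cat l))) d (nbhB d X)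

theorem LT.stepB' {f : List Bool → List Bool} (hf : LT f) (d : ℕ) :
    LT (fun p : List Bool × Bx (List Bool) d => stepB f p.1 d p.2) := by
  have h1 : LT (fun q : List Bool × List (List Bool) =>
      fit (q.2.headD []).length (f (blk q.1 ++ cat q.2))) := by
    have h2 : LT (fun q : List Bool × List (List Bool) => blk q.1 ++ cat q.2) := by fun_prop
    have h3 := hf.comp h2
    fun_prop
  have h2 := (LT.mapB' (f := fun q : List Bool × List (List Bool) =>
      fit (q.2.headD []).length (f (blk q.1 ++ cat q.2))) h1 (c := 4) (by omega) (by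
      intro b l
      have h3 := size_word_le (fit (l.headD []).length (f (blk b ++ cat l)))
      rw [length_fit] at h3
      have h4 : 4 * (l.headD []).length + 1 ≤ 4 * size l := by
        cases l with
        | nil => rw [size_nil]; simp
        | cons u l =>
          rw [size_cons, List.headD_cons]
          have := le_size_word u
          omega
      simp only
      omega) d).1
  exact h2.comp (f := fun p : List Bool × Bx (List Bool) d => (p.1, nbhB d p.2))
    (LT.fst.prodMk ((LT.nbhBC d).comp LT.snd))

/-- One step, unless the result is too large. -/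
def stepG (f : List Bool → List Bool) (b : List Bool) (d q : ℕ) (X : Bx (List Bool) d) :
    Bx (List Bool) d :=
  bif decide (size (stepB f b d X) ≤ q) then stepB f b d X else X

/-- Many steps of a box of cells. -/
def evB (f : List Bool → List Bool) (b : List Bool) (d q t : ℕ) (X : Bx (List Bool) d) :
    Bx (List Bool) d := (fun y => stepG f b d q y)^[t] X

theorem LT.evB' {f : List Bool → List Bool} (hf : LT f) (d : ℕ) {b : α → List Bool}
    {q t : α → ℕ} {X : α → Bx (List Bool) d} (hb : LT b) (hq : LT q) (ht : LT t) (hX : LT X) :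
    LT (fun a => evB f (b a) d (q a) (t a) (X a)) := by
  obtain ⟨C, hC0, hC⟩ := hX.exists_size_le
  obtain ⟨C', hC0', hC'⟩ := hq.exists_size_le
  have h1 : LT (fun v : α × Bx (List Bool) d => stepB f (b v.1) d v.2) :=
    (LT.stepB' hf d).comp (f := fun v : α × Bx (List Bool) d => (b v.1, v.2)) (by fun_prop)
  have h2 : LT (fun v : α × Bx (List Bool) d => stepG f (b v.1) d (q v.1) v.2) := by
    unfold stepG
    fun_prop
  refine LT.iterateInv (s := fun v : α × Bx (List Bool) d => stepG f (b v.1) d (q v.1) v.2)
    ht hX h2 (fun a y => size y ≤ size (X a) + q a) (C + C') ?_ (fun a => Nat.le_add_right _ _)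
    ?_
  · intro a y hy
    have h3 := hC a
    have h4 := hC' a
    rw [size_nat] at h4
    have h5 : (C + C') * size a = C * size a + C' * size a := by ring
    omega
  · intro a y hy
    simp only [stepG]
    rcases Bool.eq_false_or_eq_true (decide (size (stepB f (b a) d y) ≤ q a)) with h | h
    · rw [h, cond_true]
      have := of_decide_eq_true h
      omega
    · rw [h, cond_false]
      exact hy

end Pool.Agent.H7CA
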