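import Mathlib
import Pool.Agent.H7LS.Defs

/-!
# Arrays of processors of any dimension (cellular automata)

An array of dimension `d + 1` has one cell for each vector of `d + 1` integers; every cell holds
a word of length `s`. In one step every cell changes its content to a function `φ` of the
contents of the `3 ^ (d + 1)` cells around it.
-/

namespace Pool.Agent.H7CA

open Pool.Agent.PPS Pool.Agent.H7LS

/-- The directions: all vectors of length `d` with entries `-1, 0, 1`, in lexicographic
order. -/
def dirs : (d : ℕ) → List (Fin d → ℤ)
  | 0 => [fun i => i.elim0]
  | d + 1 => [-1, 0, 1].flatMap (fun v : ℤ =>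
      (dirs d).map (fun e => (Fin.cons v e : Fin (d + 1) → ℤ)))

/-- `arr d φ n s x a t z` is the content of cell `z` of the array of dimension `d + 1` with the
local rule `φ` after `t` steps, on an input `x` of length `n` with advice `a`. At the beginning,
the cells `z = (j, 0, ..., 0)` with `j ≥ 0` hold a mark that says whether `j < n`, and the bits
number `j` of `x` and of `a`, followed by zeros; all other cells hold zeros. -/
def arr (d : ℕ) (φ : List (List Bool) → List Bool) (n s : ℕ) (x a : List Bool) :
    ℕ → (Fin (d + 1) → ℤ) → List Bool
  | 0, z => if 0 ≤ z 0 ∧ ∀ i : Fin d, z i.succ = 0 then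
      fit s [decide (z 0 < n), x.getD (z 0).toNat false, a.getD (z 0).toNat false]
      else fit s []
  | t + 1, z => fit s (φ ((dirs (d + 1)).map (fun e => arr d φ n s x a t (z + e))))

end Pool.Agent.H7CA
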