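import Pool.Agent.H7CA.Box
import Pool.Agent.H7CA.DefsD

/-!
# Boxes as restrictions of functions
-/

namespace Pool.Agent.H7CA

open Pool.Agent.PPS Pool.Agent.H7LS

/-- The values of `g` on the box with corner `z` and sides `b`. -/
def mkBox {σ : Type} : (d : ℕ) → ((Fin d → ℤ) → σ) → (Fin d → ℤ) → (Fin d → ℕ) → Bx σ d
  | 0, g, z, _ => g z
  | d + 1, g, z, b => List.map (fun t : ℕ => mkBox d (fun y => g (Fin.cons (z 0 + (t : ℤ)) y))
      (Fin.tail z) (Fin.tail b)) (List.range (b 0))

variable {β γ : Type}

theorem mapB_mkBox (f : β → γ) (d : ℕ) : ∀ (g : (Fin d → ℤ) → β) (z : Fin d → ℤ)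
    (b : Fin d → ℕ), mapB f d (mkBox d g z b) = mkBox d (fun y => f (g y)) z b := by
  induction d with
  | zero => intro g z b; rfl
  | succ d ih =>
    intro g z b
    show List.map (mapB f d) (List.map _ _) = List.map _ _
    rw [List.map_map]
    refine List.map_congr_left (fun t _ => ?_)
    exact ih _ _ _

theorem zipB_mkBox (d : ℕ) : ∀ (g : (Fin d → ℤ) → β) (g' : (Fin d → ℤ) → γ) (z : Fin d → ℤ)
    (b : Fin d → ℕ), zipB d (mkBox d g z b) (mkBox d g' z b) =
      mkBox d (fun y => (g y, g' y)) z b := by
  induction d with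
  | zero => intro g g' z b; rfl
  | succ d ih =>
    intro g g' z b
    show List.map _ (List.zip (List.map _ _) (List.map _ _)) = List.map _ _
    rw [List.zip_map', List.map_map]
    refine List.map_congr_left (fun t _ => ?_)
    exact ih _ _ _ _

theorem zip3_range {ω : Type} (F : ℕ → ω) (N : ℕ) :
    ((List.range N).map F).zip (((List.range N).map F).tail.zip
      ((List.range N).map F).tail.tail) =
      (List.range (N - 2)).map (fun t => (F t, (F (t + 1), F (t + 2)))) := by
  refine List.ext_getElem ?_ ?_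
  · simp; omega
  · intro j h1 h2
    simp

theorem cons_add_cons {d : ℕ} (a v : ℤ) (y e : Fin d → ℤ) :
    ((Fin.cons a y : Fin (d + 1) → ℤ) + Fin.cons v e) = Fin.cons (a + v) (y + e) := by
  funext i
  refine Fin.cases ?_ (fun i => ?_) i
  · simp
  · simp

theorem nbhB_mkBox (d : ℕ) : ∀ (g : (Fin d → ℤ) → β) (z : Fin d → ℤ) (b : Fin d → ℕ),
    nbhB d (mkBox d g z b) =
      mkBox d (fun y => (dirs d).map (fun e => g (y + e))) (z + 1) (fun i => b i - 2) := by
  induction d with
  | zero =>
    intro g z b
    show [g z] = [g ((z + 1) + _)]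
    congr 2
    exact Subsingleton.elim _ _
  | succ d ih =>
    intro g z b
    have h1 : nbhB (d + 1) (mkBox (d + 1) g z b) = (fun L : List (Bx β d) =>
        (L.zip (L.tail.zip L.tail.tail)).map (fun p : Bx β d × (Bx β d × Bx β d) =>
          mapB app3 d (zipB d (nbhB d p.1) (zipB d (nbhB d p.2.1) (nbhB d p.2.2)))))
        ((List.range (b 0)).map (fun t : ℕ => mkBox d
          (fun y => g (Fin.cons (z 0 + (t : ℤ)) y)) (Fin.tail z) (Fin.tail b))) := rfl
    rw [h1]
    simp only
    rw [zip3_range, List.map_map]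
    refine List.map_congr_left (fun t _ => ?_)
    simp only [Function.comp_apply]
    rw [ih, ih, ih, zipB_mkBox, zipB_mkBox, mapB_mkBox]
    have e1 : Fin.tail (z + 1) = Fin.tail z + 1 := rfl
    have e2 : (Fin.tail (fun i => b i - 2) : Fin d → ℕ) = fun i => Fin.tail b i - 2 := rfl
    rw [e1, e2]
    congr 1
    funext y
    unfold app3
    simp only [dirs, List.flatMap_cons, List.flatMap_nil, List.append_nil, List.map_append,
      List.map_map]
    have e3 : ∀ v w : ℤ, w = (z + 1) 0 + (t : ℤ) + v →
        (dirs d).map (fun e => g (Fin.cons w (y + e))) =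
        (dirs d).map ((fun e => g ((Fin.cons ((z + 1) 0 + (t : ℤ)) y : Fin (d + 1) → ℤ) + e)) ∘
          fun e => (Fin.cons v e : Fin (d + 1) → ℤ)) := by
      intro v w hw
      refine List.map_congr_left (fun e _ => ?_)
      simp only [Function.comp_apply]
      rw [cons_add_cons, hw]
    have e4 : (z + 1) 0 = z 0 + 1 := rfl
    rw [← e3 (-1) (z 0 + (t : ℤ)) (by rw [e4]; ring),
      ← e3 0 (z 0 + ((t + 1 : ℕ) : ℤ)) (by rw [e4]; push_cast; ring),
      ← e3 1 (z 0 + ((t + 2 : ℕ) : ℤ)) (by rw [e4]; push_cast; ring)]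

/-! ### Sides -/

/-- The sides while a box is doubled: `2 len` along the axes before `j`. -/
def sd (d j len : ℕ) : Fin d → ℕ := fun i => if (i : ℕ) < j then len + len else len

/-- The vector with entry `len` at `j`. -/
def shf (d j len : ℕ) : Fin d → ℕ := fun i => if (i : ℕ) = j then len else 0

theorem tail_sd_succ (d j len : ℕ) : Fin.tail (sd (d + 1) (j + 1) len) = sd d j len := by
  funext i
  simp [sd, Fin.tail]

theorem tail_sd_zero (d len : ℕ) : Fin.tail (sd (d + 1) 0 len) = sd d 0 len := by
  funext i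
  simp [sd, Fin.tail]

theorem sd_zero_apply (d len : ℕ) : sd (d + 1) 0 len 0 = len := by simp [sd]

theorem sd_succ_apply (d j len : ℕ) : sd (d + 1) (j + 1) len 0 = len + len := by simp [sd]

theorem sd_full (d len : ℕ) : sd d d len = fun _ => len + len := by
  funext i
  simp [sd]

theorem tail_shf_succ (d j len : ℕ) : Fin.tail (shf (d + 1) (j + 1) len) = shf d j len := by
  funext i
  simp [shf, Fin.tail]

theorem tail_shf_zero (d len : ℕ) : Fin.tail (shf (d + 1) 0 len) = 0 := by
  funext i
  simp [shf, Fin.tail]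

theorem appB_mkBox (d : ℕ) : ∀ (j len : ℕ) (g : (Fin d → ℤ) → β) (z z' : Fin d → ℤ), j < d →
    z' = (fun i => z i + (shf d j len i : ℤ)) →
    appB d j (mkBox d g z (sd d j len)) (mkBox d g z' (sd d j len)) =
      mkBox d g z (sd d (j + 1) len) := by
  induction d with
  | zero => intro j len g z z' hj; omega
  | succ d ih =>
    intro j len g z z' hj hz
    subst hz
    cases j with
    | zero =>
      show List.append (List.map _ (List.range (sd (d + 1) 0 len 0)))
        (List.map _ (List.range (sd (d + 1) 0 len 0))) =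
        List.map _ (List.range (sd (d + 1) (0 + 1) len 0))
      rw [sd_zero_apply, sd_succ_apply, List.range_add, List.map_append, List.map_map,
        tail_sd_zero, tail_sd_succ]
      refine congrArg (List.append _) ?_
      refine List.map_congr_left (fun t _ => ?_)
      simp only [Function.comp_apply]
      have e1 : (fun i => z i + (shf (d + 1) 0 len i : ℤ)) 0 + (t : ℤ) =
          z 0 + ((len + t : ℕ) : ℤ) := by
        simp [shf]; ring
      have e2 : Fin.tail (fun i => z i + (shf (d + 1) 0 len i : ℤ)) = Fin.tail z := by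
        funext i
        simp [shf, Fin.tail]
      rw [e1, e2]
    | succ j =>
      show List.map _ (List.zip (List.map _ (List.range (sd (d + 1) (j + 1) len 0)))
        (List.map _ (List.range (sd (d + 1) (j + 1) len 0)))) =
        List.map _ (List.range (sd (d + 1) (j + 1 + 1) len 0))
      rw [sd_succ_apply, sd_succ_apply, List.zip_map', List.map_map, tail_sd_succ,
        tail_sd_succ]
      refine List.map_congr_left (fun t _ => ?_)
      simp only [Function.comp_apply]
      have e1 : (fun i => z i + (shf (d + 1) (j + 1) len i : ℤ)) 0 + (t : ℤ) =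
          z 0 + (t : ℤ) := by
        simp [shf]
      have e2 : Fin.tail (fun i => z i + (shf (d + 1) (j + 1) len i : ℤ)) =
          fun i => Fin.tail z i + (shf d j len i : ℤ) := by
        funext i
        simp [shf, Fin.tail]
      rw [e1, e2]
      exact ih j len _ _ _ (by omega) rfl

theorem takeB_mkBox (k d : ℕ) : ∀ (g : (Fin d → ℤ) → β) (z : Fin d → ℤ) (b : Fin d → ℕ),
    takeB k d (mkBox d g z b) = mkBox d g z (fun i => min k (b i)) := by
  induction d with
  | zero => intro g z b; rfl
  | succ d ih =>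
    intro g z b
    show List.map _ (List.take k (List.map _ _)) = List.map _ _
    rw [← List.map_take, List.take_range, List.map_map]
    refine List.map_congr_left (fun t _ => ?_)
    exact ih _ _ _

theorem headB_mkBox (x : β) (d : ℕ) : ∀ (g : (Fin d → ℤ) → β) (z : Fin d → ℤ) (b : Fin d → ℕ),
    (∀ i, 1 ≤ b i) → headB x d (mkBox d g z b) = g z := by
  induction d with
  | zero => intro g z b _; rfl
  | succ d ih =>
    intro g z b hb
    obtain ⟨l, hl⟩ : ∃ l, b 0 = l + 1 := ⟨b 0 - 1, by have := hb 0; omega⟩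
    show (match List.head? (List.map _ (List.range (b 0))) with
      | none => x
      | some A => headB x d A) = _
    rw [hl, List.range_succ_eq_map, List.map_cons]
    simp only [List.head?_cons]
    rw [ih _ _ (Fin.tail b) (fun i => hb i.succ)]
    congr 1
    have e : z 0 + ((0 : ℕ) : ℤ) = z 0 := by simp
    rw [e]
    exact Fin.cons_self_tail z

theorem oneB_mkBox (d : ℕ) : ∀ (g : (Fin d → ℤ) → β) (z : Fin d → ℤ),
    oneB d (g z) = mkBox d g z (sd d 0 1) := by
  induction d with
  | zero => intro g z; rfl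
  | succ d ih =>
    intro g z
    show [oneB d (g z)] = List.map _ (List.range (sd (d + 1) 0 1 0))
    rw [sd_zero_apply, tail_sd_zero]
    have e1 := ih (fun y => g (Fin.cons (z 0 + ((0 : ℕ) : ℤ)) y)) (Fin.tail z)
    have e2 : (Fin.cons (z 0 + ((0 : ℕ) : ℤ)) (Fin.tail z) : Fin (d + 1) → ℤ) = z := by
      have e : z 0 + ((0 : ℕ) : ℤ) = z 0 := by simp
      rw [e]
      exact Fin.cons_self_tail z
    simp only [e2] at e1
    rw [e1]
    rfl

/-! ### Shapes -/

/-- The box `X` has sides `b` and cells of length `s`. -/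
def Shp (s : ℕ) : (d : ℕ) → (Fin d → ℕ) → Bx (List Bool) d → Prop
  | 0, _, x => List.length x = s
  | d + 1, b, L => List.length L = b 0 ∧ ∀ A, List.Mem A L → Shp s d (Fin.tail b) A

theorem shp_mkBox (s d : ℕ) : ∀ (g : (Fin d → ℤ) → List Bool) (z : Fin d → ℤ)
    (b : Fin d → ℕ), (∀ y, (g y).length = s) → Shp s d b (mkBox d g z b) := by
  induction d with
  | zero => intro g z b hg; exact hg z
  | succ d ih =>
    intro g z b hg
    refine ⟨?_, ?_⟩
    · show List.length (List.map _ (List.range (b 0))) = _
      simp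
    · intro A hA
      have hA' : A ∈ List.map (fun t : ℕ => mkBox d
        (fun y => g (Fin.cons (z 0 + (t : ℤ)) y)) (Fin.tail z) (Fin.tail b))
        (List.range (b 0)) := hA
      rw [List.mem_map] at hA'
      obtain ⟨t, _, rfl⟩ := hA'
      exact ih _ _ _ (fun y => hg _)

theorem exists_mkBox (s d : ℕ) : ∀ (b : Fin d → ℕ) (X : Bx (List Bool) d), Shp s d b X →
    ∃ g : (Fin d → ℤ) → List Bool, (∀ y, (g y).length = s) ∧ X = mkBox d g 0 b := by
  induction d with
  | zero =>
    intro b X hX
    exact ⟨fun _ => X, fun _ => hX, rfl⟩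
  | succ d ih =>
    intro b (X : List (Bx (List Bool) d)) hX
    obtain ⟨h1, h2⟩ := hX
    have h3 : ∀ t : ℕ, ∃ g : (Fin d → ℤ) → List Bool, (∀ y, (g y).length = s) ∧
        ∀ h : t < List.length X, X[t]'h = mkBox d g 0 (Fin.tail b) := by
      intro t
      by_cases ht : t < List.length X
      · obtain ⟨g, hg1, hg2⟩ := ih (Fin.tail b) (X[t]'ht) (h2 _ (List.getElem_mem ht))
        exact ⟨g, hg1, fun _ => hg2⟩
      · exact ⟨fun _ => List.replicate s false, fun _ => by simp, fun h => absurd h ht⟩
    choose g hg1 hg2 using h3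
    refine ⟨fun y => g (y 0).toNat (Fin.tail y), fun y => hg1 _ _, ?_⟩
    show X = List.map _ (List.range (b 0))
    refine List.ext_getElem (by simp [h1]) ?_
    intro t ht1 ht2
    rw [hg2 t ht1, List.getElem_map, List.getElem_range]
    have e1 : (Fin.tail (0 : Fin (d + 1) → ℤ)) = 0 := rfl
    rw [e1]
    congr 1
    funext y
    simp

theorem size_shp_le {s B : ℕ} (d : ℕ) : ∀ (b : Fin d → ℕ) (X : Bx (List Bool) d),
    Shp s d b X → (∀ i, b i ≤ B) → size X + 1 ≤ (B + 2) ^ d * (4 * s + 2) := by
  induction d with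
  | zero =>
    intro b X hX _
    have h : ∀ x : List Bool, x.length = s → size x + 1 ≤ (B + 2) ^ 0 * (4 * s + 2) := by
      intro x hx
      have := size_word_le x
      rw [pow_zero, one_mul]
      omega
    exact h X hX
  | succ d ih =>
    intro b X hX hb
    obtain ⟨h1, h2⟩ := hX
    have key : ∀ L : List (Bx (List Bool) d), (∀ A ∈ L, Shp s d (Fin.tail b) A) →
        size L ≤ L.length * ((B + 2) ^ d * (4 * s + 2)) + 1 := by
      intro L
      induction L with
      | nil => intro _; rw [size_nil]; simp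
      | cons A L ihL =>
        intro h
        rw [size_cons, List.length_cons, Nat.add_mul, Nat.one_mul]
        have h3 := ih (Fin.tail b) A (h A List.mem_cons_self) (fun i => hb i.succ)
        have h4 := ihL (fun A hA => h A (List.mem_cons_of_mem _ hA))
        omega
    have h3 : size X ≤ List.length X * ((B + 2) ^ d * (4 * s + 2)) + 1 :=
      key X (fun A hA => h2 A hA)
    rw [h1] at h3
    have h5 : b 0 * ((B + 2) ^ d * (4 * s + 2)) ≤ B * ((B + 2) ^ d * (4 * s + 2)) :=
      Nat.mul_le_mul_right _ (hb 0)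
    have h6 : (B + 2) ^ (d + 1) * (4 * s + 2) = B * ((B + 2) ^ d * (4 * s + 2)) +
        2 * ((B + 2) ^ d * (4 * s + 2)) := by rw [pow_succ]; ring
    have h7 : 1 ≤ (B + 2) ^ d * (4 * s + 2) :=
      Nat.mul_pos (Nat.pow_pos (by omega)) (by omega)
    omega

theorem shp_appB (s d : ℕ) : ∀ (j len : ℕ) (X Y : Bx (List Bool) d), j < d →
    Shp s d (sd d j len) X → Shp s d (sd d j len) Y →
      Shp s d (sd d (j + 1) len) (appB d j X Y) := by
  induction d with
  | zero => intro j len X Y hj; omega
  | succ d ih =>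
    intro j len X Y hj hX hY
    obtain ⟨h1, h2⟩ := hX
    obtain ⟨h3, h4⟩ := hY
    cases j with
    | zero =>
      rw [sd_zero_apply] at h1 h3
      rw [tail_sd_zero] at h2 h4
      refine ⟨?_, ?_⟩
      · show List.length (List.append X Y) = _
        rw [sd_succ_apply]
        have : ∀ L M : List (Bx (List Bool) d), (L.append M).length = L.length + M.length :=
          fun L M => List.length_append
        rw [this, h1, h3]
      · intro A hA
        rw [tail_sd_succ]
        have hA' : A ∈ ((X : List (Bx (List Bool) d)).append (Y : List (Bx (List Bool) d))) := hA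
        have h5 := List.mem_append.mp hA'
        rcases h5 with h5 | h5
        · exact h2 A h5
        · exact h4 A h5
    | succ j =>
      rw [sd_succ_apply] at h1 h3
      rw [tail_sd_succ] at h2 h4
      refine ⟨?_, ?_⟩
      · show List.length (List.map _ (List.zip X Y)) = _
        rw [sd_succ_apply, List.length_map, List.length_zip, h1, h3, Nat.min_self]
      · intro A hA
        rw [tail_sd_succ]
        have hA' : A ∈ List.map (fun p : Bx (List Bool) d × Bx (List Bool) d =>
          appB d j p.1 p.2) (List.zip X Y) := hA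
        rw [List.mem_map] at hA'
        obtain ⟨⟨A1, A2⟩, h5, rfl⟩ := hA'
        have h6 := List.of_mem_zip h5
        exact ih j len A1 A2 (by omega) (h2 A1 h6.1) (h4 A2 h6.2)

theorem shp_takeB (s k d : ℕ) (b : Fin d → ℕ) (X : Bx (List Bool) d) (h : Shp s d b X) :
    Shp s d (fun i => min k (b i)) (takeB k d X) := by
  obtain ⟨g, h1, rfl⟩ := exists_mkBox s d b X h
  rw [takeB_mkBox]
  exact shp_mkBox _ _ _ _ _ h1

theorem dirs_ne_nil (d : ℕ) : dirs d ≠ [] := by
  induction d with
  | zero => simp [dirs]
  | succ d ih => simp [dirs, ih]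

theorem stepB_mkBox (f : List Bool → List Bool) (b' : List Bool) (s d : ℕ)
    (g : (Fin d → ℤ) → List Bool) (hg : ∀ y, (g y).length = s) (z : Fin d → ℤ)
    (b : Fin d → ℕ) : stepB f b' d (mkBox d g z b) =
      mkBox d (fun y => fit s (f (blk b' ++ ((dirs d).map (fun e => g (y + e))).flatten)))
        (z + 1) (fun i => b i - 2) := by
  unfold stepB
  rw [nbhB_mkBox, mapB_mkBox]
  congr 1
  funext y
  rw [cat_eq]
  obtain ⟨e, l, hl⟩ := List.exists_cons_of_ne_nil (dirs_ne_nil d)
  rw [hl, List.map_cons, List.headD_cons, hg]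

theorem shp_stepB (f : List Bool → List Bool) (b' : List Bool) (s d : ℕ) (b : Fin d → ℕ)
    (X : Bx (List Bool) d) (h : Shp s d b X) : Shp s d (fun i => b i - 2) (stepB f b' d X) := by
  obtain ⟨g, h1, rfl⟩ := exists_mkBox s d b X h
  rw [stepB_mkBox f b' s d g h1]
  exact shp_mkBox _ _ _ _ _ (fun y => length_fit _ _)

theorem evB_eq (f : List Bool → List Bool) (b' : List Bool) (s d q B : ℕ) (b : Fin d → ℕ)
    (X : Bx (List Bool) d) (h : Shp s d b X) (hb : ∀ i, b i ≤ B)
    (hq : (B + 2) ^ d * (4 * s + 2) ≤ q) (t : ℕ) :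
    evB f b' d q t X = (stepB f b' d)^[t] X ∧
      Shp s d (fun i => b i - 2 * t) ((stepB f b' d)^[t] X) := by
  induction t with
  | zero => exact ⟨rfl, h⟩
  | succ t ih =>
    obtain ⟨ih1, ih2⟩ := ih
    have h1 := shp_stepB f b' s d _ _ ih2
    have h2 := size_shp_le d _ _ h1 (B := B) (fun i => by have := hb i; omega)
    refine ⟨?_, ?_⟩
    · unfold evB at ih1 ⊢
      rw [Function.iterate_succ_apply', Function.iterate_succ_apply', ih1]
      unfold stepG
      rw [decide_eq_true (by omega), cond_true]
    · rw [Function.iterate_succ_apply']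
      have e : (fun i => b i - 2 * (t + 1)) = fun i => b i - 2 * t - 2 := by
        funext i; omega
      rw [e]
      exact h1

end Pool.Agent.H7CA
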