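import Pool.Agent.H7CA.Mach
import Pool.Agent.H7LS.Gather

/-!
# Correctness of the simulation of a linear array
-/

namespace Pool.Agent.H7CA

open Pool.Agent.PPS Pool.Agent.H7LS

/-! ### Segments -/

/-- The values of `g` on `[z, z + len)`. -/
def seg (g : ℤ → List Bool) (z : ℤ) (len : ℕ) : List (List Bool) :=
  (List.range len).map (fun t : ℕ => g (z + (t : ℤ)))

theorem seg_zero (g : ℤ → List Bool) (z : ℤ) : seg g z 0 = [] := rfl

theorem seg_succ (g : ℤ → List Bool) (z : ℤ) (len : ℕ) :
    seg g z (len + 1) = g z :: seg g (z + 1) len := by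
  unfold seg
  rw [List.range_succ_eq_map, List.map_cons, List.map_map]
  congr 1
  · simp
  · refine List.map_congr_left (fun t _ => ?_)
    simp only [Function.comp_apply]
    congr 1
    push_cast
    ring

theorem length_seg (g : ℤ → List Bool) (z : ℤ) (len : ℕ) : (seg g z len).length = len := by
  simp [seg]

theorem seg_append (g : ℤ → List Bool) (z : ℤ) (len len' : ℕ) :
    seg g z len ++ seg g (z + len) len' = seg g z (len + len') := by
  induction len generalizing z with
  | zero => simp [seg_zero]
  | succ len ih =>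
    have e : len + 1 + len' = len + len' + 1 := by omega
    rw [seg_succ, e, seg_succ, List.cons_append, ← ih (z + 1)]
    congr 3
    push_cast
    ring

theorem take_seg (g : ℤ → List Bool) (z : ℤ) (len k : ℕ) :
    (seg g z len).take k = seg g z (min len k) := by
  unfold seg
  rw [← List.map_take, List.take_range, Nat.min_comm]

theorem length_cell (φ : List Bool → List Bool → List Bool → List Bool) (n s : ℕ)
    (x a : List Bool) (t : ℕ) (z : ℤ) : (cell φ n s x a t z).length = s := by
  cases t with
  | zero => rw [cell]; split_ifs <;> exact length_fit _ _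
  | succ t => rw [cell]; exact length_fit _ _

/-- The local rule that is given by a function and an advice word. -/
def ruleW (f : List Bool → List Bool) (b : List Bool) (u v w : List Bool) : List Bool :=
  f (blk b ++ blk u ++ blk v ++ blk w)

theorem stepL_seg (f : List Bool → List Bool) (b : List Bool) (n s : ℕ) (x a : List Bool)
    (t : ℕ) (z : ℤ) (len : ℕ) : stepL f b (seg (cell (ruleW f b) n s x a t) z len) =
      seg (cell (ruleW f b) n s x a (t + 1)) (z + 1) (len - 2) := by
  induction len generalizing z with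
  | zero => rfl
  | succ len ih =>
    match len with
    | 0 => rfl
    | 1 => rfl
    | len + 2 =>
      have ih := ih (z + 1)
      have e : len + 2 + 1 - 2 = (len + 2 - 2) + 1 := by omega
      have h3 : seg (cell (ruleW f b) n s x a t) z (len + 2 + 1) = cell (ruleW f b) n s x a t z ::
          cell (ruleW f b) n s x a t (z + 1) :: cell (ruleW f b) n s x a t (z + 1 + 1) ::
          seg (cell (ruleW f b) n s x a t) (z + 1 + 1 + 1) len := by
        rw [seg_succ, seg_succ, seg_succ]
      have h4 : seg (cell (ruleW f b) n s x a t) (z + 1) (len + 2) =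
          cell (ruleW f b) n s x a t (z + 1) :: cell (ruleW f b) n s x a t (z + 1 + 1) ::
          seg (cell (ruleW f b) n s x a t) (z + 1 + 1 + 1) len := by
        rw [seg_succ, seg_succ]
      rw [e, h3, stepL, ← h4, ih, length_cell, seg_succ]
      congr 1
      rw [cell]
      have h5 : z + 1 - 1 = z := by ring
      rw [h5]
      rfl

theorem iter_stepL_seg (f : List Bool → List Bool) (b : List Bool) (n s : ℕ)
    (x a : List Bool) (t : ℕ) (z : ℤ) (len d : ℕ) :
    (stepL f b)^[d] (seg (cell (ruleW f b) n s x a t) z len) =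
      seg (cell (ruleW f b) n s x a (t + d)) (z + d) (len - 2 * d) := by
  induction d with
  | zero => simp
  | succ d ih =>
    rw [Function.iterate_succ_apply', ih, stepL_seg]
    have e1 : len - 2 * d - 2 = len - 2 * (d + 1) := by omega
    have e2 : z + (d : ℤ) + 1 = z + ((d + 1 : ℕ) : ℤ) := by push_cast; ring
    rw [e1, e2]
    rfl

theorem length_stepL (f : List Bool → List Bool) (nb : List Bool) (L : List (List Bool)) :
    (stepL f nb L).length = L.length - 2 := by
  rw [stepL_eq]
  simp
  omega

theorem mem_stepL {f : List Bool → List Bool} {nb : List Bool} {s : ℕ} (L : List (List Bool))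
    (h : ∀ u ∈ L, u.length = s) : ∀ u ∈ stepL f nb L, u.length = s := by
  rw [stepL_eq]
  intro u hu
  rw [List.mem_map] at hu
  obtain ⟨p, hp, rfl⟩ := hu
  rw [length_fit]
  have h1 := (List.of_mem_zip (a := p.1) (b := p.2) hp).2
  have h2 := (List.of_mem_zip (a := p.2.1) (b := p.2.2) h1).1
  exact h _ (List.mem_of_mem_tail h2)

theorem iter_stepL_shape {f : List Bool → List Bool} {nb : List Bool} {s : ℕ}
    (L : List (List Bool)) (h : ∀ u ∈ L, u.length = s) (d : ℕ) :
    ((stepL f nb)^[d] L).length = L.length - 2 * d ∧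
      ∀ u ∈ (stepL f nb)^[d] L, u.length = s := by
  induction d with
  | zero => exact ⟨rfl, h⟩
  | succ d ih =>
    rw [Function.iterate_succ_apply']
    refine ⟨?_, mem_stepL _ ih.2⟩
    rw [length_stepL, ih.1]
    omega

/-! ### The schedule -/

/-- The flag, the number of cells and the time after `r` rounds. -/
def smy (h r0 : ℕ) : ℕ → Bool × ℕ × ℕ
  | 0 => (false, 1, 0)
  | r + 1 => (decide (h + h ≤ (smy h r0 r).2.1),
      min ((smy h r0 r).2.1 + (smy h r0 r).2.1 - 2 * (bif decide (h + h ≤ (smy h r0 r).2.1) then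
        (bif (smy h r0 r).1 then h else r0) else 0)) (h + h),
      (smy h r0 r).2.2 + (bif decide (h + h ≤ (smy h r0 r).2.1) then
        (bif (smy h r0 r).1 then h else r0) else 0))

theorem smy_len_le {h r0 : ℕ} (hh : 1 ≤ h) (r : ℕ) : (smy h r0 r).2.1 ≤ h + h := by
  cases r with
  | zero => rw [smy]; simp only; omega
  | succ r => rw [smy]; simp only; exact Nat.min_le_right _ _

theorem smy_double {h r0 : ℕ} (hh : 1 ≤ h) (r : ℕ) (hr : r ≤ Nat.clog 2 (h + h)) :
    smy h r0 r = (false, min (2 ^ r) (h + h), 0) := by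
  induction r with
  | zero => rw [smy]; simp; omega
  | succ r ih =>
    have ih := ih (by omega)
    have h1 : 2 ^ r < h + h := (Nat.lt_clog_iff_pow_lt (by omega)).mp (by omega)
    have h2 : min (2 ^ r) (h + h) = 2 ^ r := Nat.min_eq_left h1.le
    rw [h2] at ih
    have h3 : decide (h + h ≤ 2 ^ r) = false := decide_eq_false (by omega)
    rw [smy, ih]
    simp only [h3, cond_false]
    rw [pow_succ]
    congr 3
    omega

theorem smy_clog {h r0 : ℕ} (hh : 1 ≤ h) :
    smy h r0 (Nat.clog 2 (h + h)) = (false, h + h, 0) := by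
  rw [smy_double hh _ le_rfl]
  have : h + h ≤ 2 ^ Nat.clog 2 (h + h) := Nat.le_pow_clog (by omega) _
  rw [Nat.min_eq_right this]

theorem smy_run {h r0 : ℕ} (hh : 1 ≤ h) (hr : r0 ≤ h) (j : ℕ) :
    smy h r0 (Nat.clog 2 (h + h) + 1 + j) = (true, h + h, r0 + j * h) := by
  induction j with
  | zero =>
    rw [Nat.add_zero, smy, smy_clog hh]
    simp only [le_refl, decide_true, cond_true, cond_false]
    congr 2
    · omega
    · omega
  | succ j ih =>
    rw [← Nat.add_assoc, smy, ih]
    simp only [le_refl, decide_true, cond_true]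
    congr 2
    · omega
    · ring

/-! ### The memory -/

theorem valW_wordN_mod (L t : ℕ) : valW (wordN L t) = t % 2 ^ L := by
  induction L generalizing t with
  | zero => simp [wordN, valW, Nat.mod_one]
  | succ L ih =>
    rw [wordN, valW, ih, pow_succ', Nat.mod_mul]
    rcases Nat.mod_two_eq_zero_or_one t with h | h <;> simp [h]

theorem wordN_mod (L t : ℕ) : wordN L (t % 2 ^ L) = wordN L t := by
  have h1 := wordN_valW (wordN L t)
  rw [length_wordN, valW_wordN_mod] at h1
  exact h1

theorem bits_valW (w : List Bool) : (valW (w ++ [true])).bits = w ++ [true] := by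
  have hpos : ∀ w : List Bool, valW (w ++ [true]) ≠ 0 := by
    intro w
    induction w with
    | nil => simp [valW]
    | cons b w ih => rw [List.cons_append, valW]; omega
  induction w with
  | nil => simp [valW]
  | cons b w ih =>
    rw [List.cons_append, valW]
    have h1 : b.toNat + 2 * valW (w ++ [true]) = Nat.bit b (valW (w ++ [true])) := by
      rw [Nat.bit_val]; ring
    rw [h1, Nat.bits_append_bit _ _ (fun h => absurd h (hpos w)), ih]

/-- The parameters of the simulation. -/
def prm (b : List Bool) (n m s h r0 T : ℕ) : PP :=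
  (b, (h.bits, (s.bits, (r0.bits, (wordN m (2 ^ m - T), wordN m n)))))

/-- The number that carries the parameters. -/
def num (P : PP) : ℕ := valW (code P ++ [true])

theorem bits_num (P : PP) : (num P).bits = code P ++ [true] := bits_valW _

theorem par_num (P : PP) : par (num P).bits = P := by
  rw [bits_num, par_code]

theorem size_st_le {st : St} {s len : ℕ} (h1 : st.2.length = len)
    (h2 : ∀ u ∈ st.2, u.length = s) : size st ≤ len * (4 * s + 2) + 5 := by
  obtain ⟨b, L⟩ := st
  simp only at h1 h2
  rw [size_pair]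
  have h3 := size_bool_le b
  have h4 := size_le_wt L
  have h5 : ∀ L : List (List Bool), (∀ u ∈ L, u.length = s) →
      wt L = L.length * (4 * s + 2) + 1 := by
    intro L
    induction L with
    | nil => intro _; rw [wt]; simp
    | cons u L ih =>
      intro h
      rw [wt, ih (fun u hu => h u (List.mem_cons_of_mem _ hu)), h u List.mem_cons_self,
        List.length_cons]
      ring
  rw [h5 L h2, h1] at h4
  omega

theorem valCap_bits {q t : ℕ} (h : t ≤ q) : valCap q t.bits = t := by
  unfold valCap
  rw [valW_bits, Nat.min_eq_right h]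

theorem fit_two {s : ℕ} (hs : 2 ≤ s) (p q : Bool) : (fit s [p, q]).take 2 = [p, q] := by
  obtain ⟨s, rfl⟩ : ∃ t, s = t + 2 := ⟨s - 2, by omega⟩
  simp [fit]

theorem fit_getD_two (s : ℕ) (p q : Bool) : (fit s [p, q]).getD 2 false = false := by
  unfold fit
  rw [List.getD_eq_getElem?_getD, List.getElem?_take]
  split_ifs with h
  · simp only [List.cons_append, List.nil_append, List.getElem?_cons_succ]
    rw [List.getElem?_replicate]
    split_ifs <;> rfl
  · rfl

theorem mem_arM {f : List Bool → List Bool} {b : List Bool} {n m s h r0 T s' : ℕ}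
    (x a : List Bool) (hh : 1 ≤ h) (hr : r0 ≤ h) (hT : T < 2 ^ m) (hn : n < 2 ^ m)
    (hs' : (h + h) * (4 * s + 2) + 8 ≤ s') (r : ℕ) :
    ∀ i : List Bool, i.length = m → ∃ st : St,
      (arM f).mem (num (prm b n m s h r0 T)) m s' x a (r + 1) i =
        enc st ++ List.replicate (s' - (size st + 3)) false ∧
      st.1 = (smy h r0 r).1 ∧ st.2.length = (smy h r0 r).2.1 ∧ (∀ u ∈ st.2, u.length = s) ∧
      (∀ A : ℕ, i = wordN m A → A + (h + h) * r < 2 ^ m →
        st.2 = seg (cell (ruleW f b) n s x a (smy h r0 r).2.2) ((A : ℤ) - T + (smy h r0 r).2.2)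
          (smy h r0 r).2.1) := by
  have hs1 : (h + h) * (4 * s + 2) = 8 * (h * s) + 4 * h := by ring
  have hs2 : s ≤ h * s := Nat.le_mul_of_pos_left _ hh
  have hss : s ≤ s' := by omega
  have hhs : h ≤ s' := by omega
  induction r with
  | zero =>
    intro i hi
    obtain ⟨j, hj⟩ : ∃ j, j = adW i (wordN m (2 ^ m - T)) := ⟨_, rfl⟩
    have hjl : j.length = m := by rw [hj, length_adW, hi]
    obtain ⟨st, hst⟩ : ∃ st, st = ini i j (wordN m n) s
        (fit s' [x.getD (valW j) false, a.getD (valW j) false]) := ⟨_, rfl⟩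
    have e1 : arA (num (prm b n m s h r0 T)).bits i
        (fit s' [x.getD (valW i) false, a.getD (valW i) false]) = j := by
      unfold arA
      rw [fit_getD_two, cond_false, par_num, hj]
      rfl
    have e2 : arU f (num (prm b n m s h r0 T)).bits i
        (fit s' [x.getD (valW i) false, a.getD (valW i) false])
        (fit s' [x.getD (valW j) false, a.getD (valW j) false]) = enc st := by
      unfold arU
      rw [fit_getD_two, cond_false, par_num, hst, length_fit]
      have h1 : (prm b n m s h r0 T).2.2.1 = s.bits := rfl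
      have h2 : (prm b n m s h r0 T).2.2.2.2.1 = wordN m (2 ^ m - T) := rfl
      have h3 : (prm b n m s h r0 T).2.2.2.2.2 = wordN m n := rfl
      rw [h1, h2, h3, valCap_bits hss, ← hj]
    have hlen : ∀ u ∈ st.2, u.length = s := by
      intro u hu
      rw [hst] at hu
      unfold ini at hu
      simp only [List.mem_singleton] at hu
      rw [hu]
      cases ltW i j
      · rw [cond_false, length_fit]
      · rw [cond_true, length_fit]
    have hst1 : st.2.length = 1 := by rw [hst]; rfl
    have hsz := size_st_le hst1 hlen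
    refine ⟨st, ?_, by rw [hst]; rfl, hst1, hlen, ?_⟩
    · rw [mem_succ, arM_upd, arM_addr, mem_zero, e1, fit_of_length hjl, mem_zero, e2, fit_enc]
      omega
    · intro A hA hA2
      rw [Nat.mul_zero, Nat.add_zero] at hA2
      have hiv : valW i = A := by rw [hA, valW_wordN _ _ hA2]
      have hj2 : j = wordN m (A + (2 ^ m - T)) := by
        have h1 : j = incW^[valW (wordN m (2 ^ m - T))] i := hj
        rw [h1, hA, incW_iterate, valW_wordN_mod, ← wordN_mod m (A + (2 ^ m - T) % 2 ^ m),
          Nat.add_mod_mod, wordN_mod]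
      have hjv : valW j = (A + (2 ^ m - T)) % 2 ^ m := by rw [hj2, valW_wordN_mod]
      have e0 : (smy h r0 0) = (false, 1, 0) := rfl
      rw [e0]
      simp only
      rw [seg_succ, seg_zero, hst]
      unfold ini
      simp only
      congr 1
      rw [cell]
      have hlt := ltW_iff i j (by rw [hi, hjl])
      rcases Nat.lt_or_ge A T with h1 | h1
      · have h2 : valW j = A + (2 ^ m - T) := by
          rw [hjv, Nat.mod_eq_of_lt (by omega)]
        have h3 : ltW i j = true := by rw [hlt]; omega
        rw [h3, cond_true, if_neg (by push_cast; omega)]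
      · have h2 : valW j = A - T := by
          rw [hjv]
          have h4 : A + (2 ^ m - T) = (A - T) + 2 ^ m := by omega
          rw [h4, Nat.add_mod_right, Nat.mod_eq_of_lt (by omega)]
        have h3 : ltW i j = false := by
          rw [← Bool.not_eq_true, hlt]; omega
        have h5 : ((A : ℤ) - T + ((0 : ℕ) : ℤ)).toNat = A - T := by omega
        have h6 : ltW j (wordN m n) = decide ((A : ℤ) - T + ((0 : ℕ) : ℤ) < n) := by
          rw [Bool.eq_iff_iff, ltW_iff _ _ (by rw [hjl, length_wordN]), valW_wordN _ _ hn, h2,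
            decide_eq_true_iff]
          omega
        rw [h3, cond_false, if_pos (by omega), fit_two (by omega), h2, h5, h6]
  | succ r ih =>
    intro i hi
    obtain ⟨st, hst1, hst2, hst3, hst4, hst5⟩ := ih i hi
    obtain ⟨j, hj⟩ : ∃ j, j = adN i (smy h r0 r).2.1 := ⟨_, rfl⟩
    have hjl : j.length = m := by rw [hj, length_adN, hi]
    obtain ⟨st', hst1', hst2', hst3', hst4', hst5'⟩ := ih j hjl
    obtain ⟨v, hv⟩ : ∃ v, v = enc st ++ List.replicate (s' - (size st + 3)) false := ⟨_, rfl⟩
    obtain ⟨w, hw⟩ : ∃ w, w = enc st' ++ List.replicate (s' - (size st' + 3)) false := ⟨_, rfl⟩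
    rw [← hv] at hst1
    rw [← hw] at hst1'
    have hvl : v.length = s' := by rw [← hst1]; exact length_mem _ _ _ _ _ _ _ _
    have hv2 : v.getD 2 false = true := by rw [hv]; exact enc_getD_two _ _
    have hvs : stO v = st := by rw [hv]; exact stO_enc _ _
    have hws : stO w = st' := by rw [hw]; exact stO_enc _ _
    obtain ⟨d, hd⟩ : ∃ d, d = (bif decide (h + h ≤ (smy h r0 r).2.1) then
        (bif (smy h r0 r).1 then h else r0) else 0) := ⟨_, rfl⟩
    obtain ⟨len, hlen⟩ : ∃ len, len = (smy h r0 r).2.1 := ⟨_, rfl⟩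
    obtain ⟨t, ht⟩ : ∃ t, t = (smy h r0 r).2.2 := ⟨_, rfl⟩
    have hlen2 : len ≤ h + h := by rw [hlen]; exact smy_len_le hh r
    have hsm : smy h r0 (r + 1) = (decide (h + h ≤ len), min (len + len - 2 * d) (h + h),
        t + d) := by
      rw [smy, ← hd, ← hlen, ← ht]
    obtain ⟨st2, hst⟩ : ∃ st2, st2 = nxt f b h r0 st st' := ⟨_, rfl⟩
    have hst' : st2 = (decide (h + h ≤ len), ((stepL f b)^[d] (st.2 ++ st'.2)).take
        (h + h)) := by
      rw [hst]
      unfold nxt
      rw [hst3, hst2, ← hd, ← hlen]
    have e1 : arA (num (prm b n m s h r0 T)).bits i v = j := by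
      unfold arA
      rw [hv2, cond_true, hvs, hst3, hj]
    have e2 : arU f (num (prm b n m s h r0 T)).bits i v w = enc st2 := by
      unfold arU
      rw [hv2, cond_true, par_num, hst, hvl, hvs, hws]
      have h1 : (prm b n m s h r0 T).2.1 = h.bits := rfl
      have h2 : (prm b n m s h r0 T).2.2.2.1 = r0.bits := rfl
      have h3 : (prm b n m s h r0 T).1 = b := rfl
      rw [h1, h2, h3, valCap_bits hhs, valCap_bits (hr.trans hhs)]
    have hshape := iter_stepL_shape (f := f) (nb := b) (s := s) (st.2 ++ st'.2) (by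
      intro u hu
      rw [List.mem_append] at hu
      rcases hu with hu | hu
      · exact hst4 u hu
      · exact hst4' u hu) d
    rw [List.length_append, hst3, hst3', ← hlen] at hshape
    have hlen' : ∀ u ∈ st2.2, u.length = s := by
      intro u hu
      rw [hst'] at hu
      exact hshape.2 u (List.mem_of_mem_take hu)
    have hl2 : st2.2.length = min (len + len - 2 * d) (h + h) := by
      rw [hst']
      simp only [List.length_take]
      rw [hshape.1, Nat.min_comm]
    have hsz := size_st_le hl2 hlen'
    have hsz2 : min (len + len - 2 * d) (h + h) * (4 * s + 2) ≤ (h + h) * (4 * s + 2) :=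
      Nat.mul_le_mul_right _ (Nat.min_le_right _ _)
    refine ⟨st2, ?_, by rw [hsm, hst'], by rw [hsm, hl2], hlen', ?_⟩
    · rw [mem_succ, arM_upd, arM_addr, hst1, e1, fit_of_length hjl, hst1', e2, fit_enc]
      omega
    · intro A hA hA2
      rw [hsm, hst']
      simp only
      rw [Nat.mul_add, Nat.mul_one] at hA2
      have h1 := hst5 A hA (by omega)
      have h2 := hst5' (A + len) (by
        rw [hj, hA, ← hlen]
        exact incW_iterate m A len) (by omega)
      rw [← hlen, ← ht] at h1 h2
      have h3 : ((A + len : ℕ) : ℤ) - T + t = (A : ℤ) - T + t + len := by push_cast; ring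
      have h4 : (A : ℤ) - T + t + d = (A : ℤ) - T + ((t + d : ℕ) : ℤ) := by push_cast; ring
      rw [h3] at h2
      rw [h1, h2, seg_append, iter_stepL_seg, take_seg, h4]

/-- The answer of the simulation. -/
theorem out_arM {f : List Bool → List Bool} {b : List Bool} {n m s T : ℕ} (x a : List Bool)
    (h s' : ℕ) (hh : 1 ≤ h) (hn : n < 2 ^ m)
    (hs' : (h + h) * (4 * s + 2) + 8 ≤ s')
    (hm : T + (h + h) * (Nat.clog 2 (h + h) + 1 + T / h) < 2 ^ m) :
    (arM f).out (num (prm b n m s h (T % h) T)) m s' (Nat.clog 2 (h + h) + 1 + T / h + 1) x a =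
      (cell (ruleW f b) n s x a T 0).getD 0 false := by
  have hr : T % h ≤ h := (Nat.mod_lt _ (by omega)).le
  obtain ⟨st, h1, h2, h3, h4, h5⟩ := mem_arM (f := f) (b := b) (n := n) (m := m) (s := s) (T := T) x a
    hh hr (by omega) hn hs' (Nat.clog 2 (h + h) + 1 + T / h) (List.replicate m false) (by simp)
  have h6 := h5 0 (wordN_zero m).symm (by omega)
  rw [smy_run hh hr] at h6
  simp only at h6
  have h7 : T % h + T / h * h = T := by
    rw [Nat.mul_comm]; exact Nat.mod_add_div T h
  obtain ⟨l, hl⟩ : ∃ l, h + h = l + 1 := ⟨h + h - 1, by omega⟩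
  rw [h7, hl, seg_succ] at h6
  unfold PMach.out
  rw [h1]
  unfold enc
  rw [h6]
  simp

end Pool.Agent.H7CA
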