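import Pool.Agent.H7CA.MachD
import Pool.Agent.H7CA.Corr

/-!
# Correctness of the simulation of an array
-/

namespace Pool.Agent.H7CA

open Pool.Agent.PPS Pool.Agent.H7LS

/-! ### Names -/

/-- The name of the processor with coordinates `A`. -/
def nm (μ : ℕ) : (d : ℕ) → (Fin d → ℕ) → List Bool
  | 0, _ => []
  | d + 1, A => wordN μ (A 0) ++ nm μ d (Fin.tail A)

theorem length_nm (μ d : ℕ) : ∀ A : Fin d → ℕ, (nm μ d A).length = d * μ := by
  induction d with
  | zero => intro A; simp [nm]
  | succ d ih =>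
    intro A
    rw [nm, List.length_append, length_wordN, ih, Nat.succ_mul, Nat.add_comm]

theorem nm_inj {μ d : ℕ} : ∀ A B : Fin d → ℕ, (∀ l, A l < 2 ^ μ) → (∀ l, B l < 2 ^ μ) →
    (nm μ d A = nm μ d B ↔ A = B) := by
  induction d with
  | zero => intro A B _ _; exact ⟨fun _ => Subsingleton.elim _ _, fun _ => rfl⟩
  | succ d ih =>
    intro A B hA hB
    refine ⟨fun h => ?_, fun h => by rw [h]⟩
    rw [nm, nm] at h
    have h1 := List.append_inj h (by simp)
    have h2 := (ih (Fin.tail A) (Fin.tail B) (fun l => hA l.succ) (fun l => hB l.succ)).mp h1.2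
    have h3 := wordN_inj (hA 0) (hB 0) h1.1
    rw [← Fin.cons_self_tail A, ← Fin.cons_self_tail B, h2, h3]

theorem incW_append (μ : ℕ) : ∀ (t : ℕ) (r : List Bool), t + 1 < 2 ^ μ →
    incW (wordN μ t ++ r) = wordN μ (t + 1) ++ r := by
  induction μ with
  | zero => intro t r h; simp at h
  | succ μ ih =>
    intro t r h
    rw [pow_succ] at h
    rcases Nat.mod_two_eq_zero_or_one t with h0 | h0
    · have h1 : (t + 1) % 2 = 1 := by omega
      have h2 : (t + 1) / 2 = t / 2 := by omega
      simp [wordN, h0, h1, h2, incW]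
    · have h1 : (t + 1) % 2 = 0 := by omega
      have h2 : (t + 1) / 2 = t / 2 + 1 := by omega
      simp [wordN, h0, h1, h2, incW, ih (t / 2) r (by omega)]

theorem adN_append (μ t : ℕ) (r : List Bool) (len : ℕ) (h : t + len < 2 ^ μ) :
    adN (wordN μ t ++ r) len = wordN μ (t + len) ++ r := by
  induction len with
  | zero => rfl
  | succ len ih =>
    have ih := ih (by omega)
    unfold adN at ih ⊢
    rw [Function.iterate_succ_apply', ih, incW_append _ _ _ (by omega)]
    rfl

theorem adN_nm (μ : ℕ) (d : ℕ) : ∀ (j len : ℕ) (A : Fin d → ℕ), j < d →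
    (∀ l, A l + len < 2 ^ μ) →
    (nm μ d A).take (j * μ) ++ adN ((nm μ d A).drop (j * μ)) len =
      nm μ d (fun i => A i + shf d j len i) := by
  induction d with
  | zero => intro j len A hj; omega
  | succ d ih =>
    intro j len A hj hA
    cases j with
    | zero =>
      rw [Nat.zero_mul, List.take_zero, List.drop_zero, List.nil_append, nm,
        adN_append _ _ _ _ (hA 0), nm]
      have e1 : A 0 + shf (d + 1) 0 len 0 = A 0 + len := by simp [shf]
      have e2 : Fin.tail (fun i => A i + shf (d + 1) 0 len i) = Fin.tail A := by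
        funext l
        simp [Fin.tail, shf]
      rw [e1, e2]
    | succ j =>
      have e : (j + 1) * μ = (wordN μ (A 0)).length + j * μ := by
        rw [length_wordN, Nat.succ_mul, Nat.add_comm]
      rw [nm, e, List.take_length_add_append, List.drop_length_add_append, List.append_assoc,
        ih j len (Fin.tail A) (by omega) (fun l => hA l.succ), nm]
      have e1 : A 0 + shf (d + 1) (j + 1) len 0 = A 0 := by simp [shf]
      have e2 : Fin.tail (fun i => A i + shf (d + 1) (j + 1) len i) =
          fun i => Fin.tail A i + shf d j len i := by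
        funext l
        simp [Fin.tail, shf]
      rw [e1, e2]

theorem valW_append_zeros (w : List Bool) (k : ℕ) :
    valW (w ++ List.replicate k false) = valW w := by
  induction w with
  | nil => rw [List.nil_append, valW_zeros]; rfl
  | cons b w ih => rw [List.cons_append, valW, valW, ih]

theorem valW_fit {k : ℕ} {w : List Bool} (h : w.length ≤ k) : valW (fit k w) = valW w := by
  unfold fit
  rw [List.take_append, List.take_of_length_le h, List.take_replicate, valW_append_zeros]

/-! ### The array -/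

theorem length_arr (d : ℕ) (φ : List (List Bool) → List Bool) (n s : ℕ) (x a : List Bool)
    (t : ℕ) (z : Fin (d + 1) → ℤ) : (arr d φ n s x a t z).length = s := by
  cases t with
  | zero => rw [arr]; split_ifs <;> exact length_fit _ _
  | succ t => rw [arr]; exact length_fit _ _

/-- The local rule that is given by a function and an advice word. -/
def ruleD (f : List Bool → List Bool) (b : List Bool) (l : List (List Bool)) : List Bool :=
  f (blk b ++ l.flatten)

theorem stepB_arr (f : List Bool → List Bool) (b : List Bool) (d n s : ℕ) (x a : List Bool)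
    (t : ℕ) (z : Fin (d + 1) → ℤ) (B : Fin (d + 1) → ℕ) :
    stepB f b (d + 1) (mkBox (d + 1) (arr d (ruleD f b) n s x a t) z B) =
      mkBox (d + 1) (arr d (ruleD f b) n s x a (t + 1)) (z + 1) (fun i => B i - 2) :=
  stepB_mkBox f b s (d + 1) _ (fun _ => length_arr _ _ _ _ _ _ _ _) z B

theorem iter_stepB_arr (f : List Bool → List Bool) (b : List Bool) (d n s : ℕ)
    (x a : List Bool) (t : ℕ) (z : Fin (d + 1) → ℤ) (B : Fin (d + 1) → ℕ) (k : ℕ) :
    (stepB f b (d + 1))^[k] (mkBox (d + 1) (arr d (ruleD f b) n s x a t) z B) =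
      mkBox (d + 1) (arr d (ruleD f b) n s x a (t + k)) (fun l => z l + (k : ℤ))
        (fun i => B i - (k + k)) := by
  induction k with
  | zero => simp
  | succ k ih =>
    rw [Function.iterate_succ_apply', ih, stepB_arr]
    have e1 : (fun l => z l + (k : ℤ)) + 1 = fun l => z l + ((k + 1 : ℕ) : ℤ) := by
      funext l
      simp
      ring
    have e2 : (fun i => B i - (k + k) - 2) = fun i => B i - (k + 1 + (k + 1)) := by
      funext l
      omega
    rw [e1, e2]
    rfl

/-! ### The parameters -/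

/-- The parameters of the simulation. -/
def prmD (b : List Bool) (d n μ s h r0 T : ℕ) : PPD :=
  (b, (h.bits, (s.bits, (r0.bits, (wordN μ (2 ^ μ - T), (wordN μ n, nm μ d (fun _ => T)))))))

/-- The number that carries the parameters. -/
def numD (P : PPD) : ℕ := valW (code P ++ [true])

theorem parD_num (P : PPD) : parD (numD P).bits = P := by
  unfold numD
  rw [bits_valW, parD_code]

theorem size_StD_le {d j μ len s B : ℕ} {fl : Bool} {b : Fin d → ℕ} {X : Bx (List Bool) d}
    (hX : Shp s d b X) (hb : ∀ i, b i ≤ B) :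
    size ((j, (j * μ, (fl, (len, X)))) : StD d) ≤
      2 * j + 2 * (j * μ) + 2 * len + (B + 2) ^ d * (4 * s + 2) + 10 := by
  simp only [size_pair, size_nat]
  have h1 := size_bool_le fl
  have h2 := size_shp_le d b X hX hb
  omega

section

variable (f : List Bool → List Bool) (b : List Bool) (d n μ s h r0 T s' : ℕ) (x a : List Bool)

/-- The state of all processors after `r + 1` rounds. -/
def Gd (r j : ℕ) (fl : Bool) (len t : ℕ) : Prop :=
  ∀ i : List Bool, i.length = (d + 1) * μ → ∃ X : Bx (List Bool) (d + 1),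
    (arMD f (d + 1)).mem (numD (prmD b d n μ s h r0 T)) ((d + 1) * μ) s' x a (r + 1) i =
      encD (d + 1) (j, (j * μ, (fl, (len, X)))) ++
        List.replicate (s' - (size ((j, (j * μ, (fl, (len, X)))) : StD (d + 1)) + 3)) false ∧
    Shp s (d + 1) (sd (d + 1) j len) X ∧
    (∀ A : Fin (d + 1) → ℕ, i = nm μ (d + 1) A → (∀ l, A l + (h + h) * r < 2 ^ μ) →
      X = mkBox (d + 1) (arr d (ruleD f b) n s x a t) (fun l => (A l : ℤ) - T + t)
        (sd (d + 1) j len))

end

section

variable {f : List Bool → List Bool} {b : List Bool} {d n μ s h r0 T s' : ℕ}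
  {x a : List Bool}

theorem Gd_zero (hh : 1 ≤ h) (hT : T < 2 ^ μ) (hn : n < 2 ^ μ)
    (hs' : (h + h + (h + h) + 2) ^ (d + 1) * (4 * s + 2) + (4 * h + 2 * (d + 1) +
      2 * ((d + 1) * μ) + 20) ≤ s') (hss : s ≤ s') :
    Gd f b d n μ s h r0 T s' x a 0 0 false 1 0 := by
  intro i hi
  obtain ⟨j, hj⟩ : ∃ j, j = adW (i.take μ) (wordN μ (2 ^ μ - T)) := ⟨_, rfl⟩
  have hDμ : μ ≤ (d + 1) * μ := Nat.le_mul_of_pos_left _ (by omega)
  have hil : (i.take μ).length = μ := by rw [List.length_take, hi, Nat.min_eq_left hDμ]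
  have hjl : j.length = μ := by rw [hj, length_adW, hil]
  have hlen : (wordN μ (2 ^ μ - T)).length = μ := length_wordN _ _
  have e1 : arAD (d + 1) (numD (prmD b d n μ s h r0 T)).bits i
      (fit s' [x.getD (valW i) false, a.getD (valW i) false]) = j := by
    unfold arAD
    rw [fit_getD_two, cond_false, parD_num, hj]
    have h1 : (prmD b d n μ s h r0 T).2.2.2.2.1 = wordN μ (2 ^ μ - T) := rfl
    rw [h1, hlen]
  obtain ⟨w, hw⟩ : ∃ w, w = fit s' [x.getD (valW j) false, a.getD (valW j) false] := ⟨_, rfl⟩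
  obtain ⟨u, hu⟩ : ∃ u, u = cell0 i j (wordN μ n) (nm μ d (fun _ => T)) s μ w := ⟨_, rfl⟩
  have hul : u.length = s := by
    rw [hu]
    unfold cell0
    cases (ltW (i.take μ) j || !(decide (i.drop μ = nm μ d (fun _ => T))))
    · rw [cond_false, length_fit]
    · rw [cond_true, length_fit]
  have e2 : arUD f (d + 1) (numD (prmD b d n μ s h r0 T)).bits i
      (fit s' [x.getD (valW i) false, a.getD (valW i) false]) w =
      encD (d + 1) (0, (0, (false, (1, oneB (d + 1) u)))) := by
    unfold arUD
    rw [fit_getD_two, cond_false, parD_num, hu, length_fit]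
    have h1 : (prmD b d n μ s h r0 T).2.2.1 = s.bits := rfl
    have h2 : (prmD b d n μ s h r0 T).2.2.2.2.1 = wordN μ (2 ^ μ - T) := rfl
    have h3 : (prmD b d n μ s h r0 T).2.2.2.2.2.1 = wordN μ n := rfl
    have h4 : (prmD b d n μ s h r0 T).2.2.2.2.2.2 = nm μ d (fun _ => T) := rfl
    rw [h1, h2, h3, h4, hlen, valCap_bits hss, ← hj]
  have hone : ∀ (g : (Fin (d + 1) → ℤ) → List Bool) (z : Fin (d + 1) → ℤ), u = g z →
      oneB (d + 1) u = mkBox (d + 1) g z (sd (d + 1) 0 1) := by
    intro g z hg
    rw [hg]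
    exact oneB_mkBox _ _ _
  have hshp : Shp s (d + 1) (sd (d + 1) 0 1) (oneB (d + 1) u) := by
    rw [hone (fun _ => u) 0 rfl]
    exact shp_mkBox _ _ _ _ _ (fun _ => hul)
  have hsz := size_StD_le (j := 0) (μ := μ) (len := 1) (fl := false) (B := h + h + (h + h))
    hshp (fun i => by simp only [sd]; split_ifs <;> omega)
  have e0 : (0 : ℕ) * μ = 0 := Nat.zero_mul _
  rw [e0] at hsz
  refine ⟨oneB (d + 1) u, ?_, hshp, ?_⟩
  · rw [e0, mem_succ, arMD_upd, arMD_addr, mem_zero, e1, mem_zero, valW_fit (by omega), ← hw,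
      e2, fit_encD]
    omega
  · intro A hA hA2
    simp only [Nat.mul_zero, Nat.add_zero] at hA2
    refine hone _ _ ?_
    have hit : i.take μ = wordN μ (A 0) := by
      rw [hA, nm]
      exact List.take_left' (length_wordN _ _)
    have hid : i.drop μ = nm μ d (Fin.tail A) := by
      rw [hA, nm]
      exact List.drop_left' (length_wordN _ _)
    have hiv : valW (i.take μ) = A 0 := by rw [hit, valW_wordN _ _ (hA2 0)]
    have hj2 : j = wordN μ (A 0 + (2 ^ μ - T)) := by
      have h1 : j = incW^[valW (wordN μ (2 ^ μ - T))] (i.take μ) := hj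
      rw [h1, hit, incW_iterate, valW_wordN_mod, ← wordN_mod μ (A 0 + (2 ^ μ - T) % 2 ^ μ),
        Nat.add_mod_mod, wordN_mod]
    have hjv : valW j = (A 0 + (2 ^ μ - T)) % 2 ^ μ := by rw [hj2, valW_wordN_mod]
    have hlt := ltW_iff (i.take μ) j (by rw [hil, hjl])
    have hdec : decide (i.drop μ = nm μ d (fun _ => T)) =
        decide (Fin.tail A = fun _ => T) := by
      rw [hid]
      exact decide_eq_decide.mpr (nm_inj _ _ (fun l => hA2 l.succ) (fun _ => hT))
    rw [hu, arr]
    unfold cell0
    rw [hdec]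
    have hA0 := hA2 0
    by_cases hc : 0 ≤ (A 0 : ℤ) - T + ((0 : ℕ) : ℤ) ∧
        ∀ l : Fin d, (A l.succ : ℤ) - T + ((0 : ℕ) : ℤ) = 0
    · rw [if_pos hc]
      obtain ⟨hc1, hc2⟩ := hc
      have h2 : valW j = A 0 - T := by
        rw [hjv]
        have h4 : A 0 + (2 ^ μ - T) = (A 0 - T) + 2 ^ μ := by omega
        rw [h4, Nat.add_mod_right, Nat.mod_eq_of_lt (by omega)]
      have h3 : ltW (i.take μ) j = false := by
        rw [← Bool.not_eq_true, hlt]; omega
      have h4 : (Fin.tail A : Fin d → ℕ) = fun _ => T := by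
        funext l
        have := hc2 l
        simp only [Fin.tail]
        omega
      have h5 : ((A 0 : ℤ) - T + ((0 : ℕ) : ℤ)).toNat = A 0 - T := by omega
      have h6 : ltW j (wordN μ n) = decide ((A 0 : ℤ) - T + ((0 : ℕ) : ℤ) < n) := by
        rw [Bool.eq_iff_iff, ltW_iff _ _ (by rw [hjl, length_wordN]), valW_wordN _ _ hn, h2,
          decide_eq_true_iff]
        omega
      rw [h3, decide_eq_true h4, Bool.not_true, Bool.or_false, cond_false, hw,
        fit_two (by omega), h2, h5, h6]
    · rw [if_neg hc]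
      have h7 : (ltW (i.take μ) j || !(decide ((Fin.tail A : Fin d → ℕ) = fun _ => T))) =
          true := by
        rw [Bool.or_eq_true]
        by_cases h8 : A 0 < T
        · left
          have h2 : valW j = A 0 + (2 ^ μ - T) := by
            rw [hjv, Nat.mod_eq_of_lt (by omega)]
          rw [hlt]; omega
        · right
          rw [Bool.not_eq_true', decide_eq_false_iff_not]
          intro h9
          refine hc ⟨by omega, fun l => ?_⟩
          have := congrFun h9 l
          simp only [Fin.tail] at this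
          omega
      rw [h7, cond_true]

theorem Gd_next (hr : r0 ≤ h)
    (hs' : (h + h + (h + h) + 2) ^ (d + 1) * (4 * s + 2) + (4 * h + 2 * (d + 1) +
      2 * ((d + 1) * μ) + 20) ≤ s') {r j len t : ℕ} {fl : Bool} (hj : j < d + 1)
    (hlen : len ≤ h + h) (hG : Gd f b d n μ s h r0 T s' x a r j fl len t) :
    ((j + 1 < d + 1) → Gd f b d n μ s h r0 T s' x a (r + 1) (j + 1) fl len t) ∧
    (¬ (j + 1 < d + 1) → Gd f b d n μ s h r0 T s' x a (r + 1) 0 (decide (h + h ≤ len))
      (min (len + len - ((bif decide (h + h ≤ len) then (bif fl then h else r0) else 0) +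
        (bif decide (h + h ≤ len) then (bif fl then h else r0) else 0))) (h + h))
      (t + (bif decide (h + h ≤ len) then (bif fl then h else r0) else 0))) := by
  obtain ⟨δ, hδ⟩ : ∃ δ, δ = (bif decide (h + h ≤ len) then (bif fl then h else r0) else 0) :=
    ⟨_, rfl⟩
  rw [← hδ]
  have hhs : h ≤ s' := by omega
  have hlenc : (wordN μ (2 ^ μ - T)).length = μ := length_wordN _ _
  -- common facts
  have key : ∀ i : List Bool, i.length = (d + 1) * μ → ∃ X X' : Bx (List Bool) (d + 1),
      (arMD f (d + 1)).mem (numD (prmD b d n μ s h r0 T)) ((d + 1) * μ) s' x a (r + 1 + 1) i =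
        fit s' (encD (d + 1) (nxtD f (d + 1) b h r0 μ s' (j, (j * μ, (fl, (len, X))))
          (j, (j * μ, (fl, (len, X')))))) ∧
      Shp s (d + 1) (sd (d + 1) (j + 1) len) (appB (d + 1) j X X') ∧
      (∀ A : Fin (d + 1) → ℕ, i = nm μ (d + 1) A → (∀ l, A l + (h + h) * (r + 1) < 2 ^ μ) →
        appB (d + 1) j X X' = mkBox (d + 1) (arr d (ruleD f b) n s x a t)
          (fun l => (A l : ℤ) - T + t) (sd (d + 1) (j + 1) len)) := by
    intro i hi
    obtain ⟨X, hX1, hX2, hX3⟩ := hG i hi
    obtain ⟨i', hi'⟩ : ∃ i', i' = i.take (j * μ) ++ adN (i.drop (j * μ)) len := ⟨_, rfl⟩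
    have hil : i'.length = (d + 1) * μ := by
      rw [hi', List.length_append, length_adN, List.length_take, List.length_drop]
      omega
    obtain ⟨X', hX1', hX2', hX3'⟩ := hG i' hil
    obtain ⟨st, hst⟩ : ∃ st : StD (d + 1), st = (j, (j * μ, (fl, (len, X)))) := ⟨_, rfl⟩
    obtain ⟨st', hst'⟩ : ∃ st' : StD (d + 1), st' = (j, (j * μ, (fl, (len, X')))) := ⟨_, rfl⟩
    rw [← hst] at hX1
    rw [← hst'] at hX1'
    obtain ⟨v, hv⟩ : ∃ v, v = encD (d + 1) st ++ List.replicate (s' - (size st + 3)) false :=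
      ⟨_, rfl⟩
    obtain ⟨w, hw⟩ : ∃ w, w = encD (d + 1) st' ++ List.replicate (s' - (size st' + 3)) false :=
      ⟨_, rfl⟩
    rw [← hv] at hX1
    rw [← hw] at hX1'
    have hvl : v.length = s' := by rw [← hX1]; exact length_mem _ _ _ _ _ _ _ _
    have hv2 : v.getD 2 false = true := by rw [hv]; exact encD_getD_two _ _ _
    have hvs : stD (d + 1) v = st := by rw [hv]; exact stD_encD _ _ _
    have hws : stD (d + 1) w = st' := by rw [hw]; exact stD_encD _ _ _
    have e1 : arAD (d + 1) (numD (prmD b d n μ s h r0 T)).bits i v = i' := by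
      unfold arAD
      rw [hv2, cond_true, hvs, hst, hi']
    have e2 : arUD f (d + 1) (numD (prmD b d n μ s h r0 T)).bits i v w =
        encD (d + 1) (nxtD f (d + 1) b h r0 μ s' st st') := by
      unfold arUD
      rw [hv2, cond_true, parD_num, hvl, hvs, hws]
      have h1 : (prmD b d n μ s h r0 T).2.1 = h.bits := rfl
      have h2 : (prmD b d n μ s h r0 T).2.2.2.1 = r0.bits := rfl
      have h3 : (prmD b d n μ s h r0 T).1 = b := rfl
      have h4 : (prmD b d n μ s h r0 T).2.2.2.2.1 = wordN μ (2 ^ μ - T) := rfl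
      rw [h1, h2, h3, h4, hlenc, valCap_bits hhs, valCap_bits (hr.trans hhs)]
    refine ⟨X, X', ?_, shp_appB s (d + 1) j len X X' hj hX2 hX2', ?_⟩
    · rw [mem_succ, arMD_upd, arMD_addr, hX1, e1, fit_of_length hil, hX1', e2, hst, hst']
    · intro A hA hA2
      rw [Nat.mul_add, Nat.mul_one] at hA2
      have h1 := hX3 A hA (fun l => by have := hA2 l; omega)
      have h2 := hX3' (fun l => A l + shf (d + 1) j len l) (by
        rw [hi', hA]
        exact adN_nm μ (d + 1) j len A hj (fun l => by have := hA2 l; omega)) (fun l => by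
          have := hA2 l
          simp only [shf]
          split_ifs <;> omega)
      rw [h1, h2]
      refine appB_mkBox (d + 1) j len _ _ _ hj ?_
      funext l
      push_cast
      ring
  refine ⟨fun hj1 => ?_, fun hj1 => ?_⟩
  · intro i hi
    obtain ⟨X, X', h1, h2, h3⟩ := key i hi
    have e3 : nxtD f (d + 1) b h r0 μ s' (j, (j * μ, (fl, (len, X))))
          (j, (j * μ, (fl, (len, X')))) =
        (j + 1, ((j + 1) * μ, (fl, (len, appB (d + 1) j X X')))) := by
      unfold nxtD
      simp only
      rw [decide_eq_true hj1, cond_true, Nat.succ_mul]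
    have hsz := size_StD_le (j := j + 1) (μ := μ) (len := len) (fl := fl)
      (B := h + h + (h + h)) h2 (fun i => by simp only [sd]; split_ifs <;> omega)
    have hjμ : (j + 1) * μ ≤ (d + 1) * μ := Nat.mul_le_mul_right _ (by omega)
    refine ⟨appB (d + 1) j X X', ?_, h2, h3⟩
    rw [h1, e3, fit_encD]
    omega
  · intro i hi
    obtain ⟨X, X', h1, h2, h3⟩ := key i hi
    obtain ⟨Y, hY⟩ : ∃ Y, Y = appB (d + 1) j X X' := ⟨_, rfl⟩
    rw [← hY] at h2 h3
    have hjd : j + 1 = d + 1 := by omega
    rw [hjd, sd_full] at h2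
    have hev := evB_eq f b s (d + 1) s' (h + h + (h + h)) _ Y h2 (fun i => by omega)
      (by omega) δ
    obtain ⟨len', hlen'⟩ : ∃ len', len' = min (len + len - (δ + δ)) (h + h) := ⟨_, rfl⟩
    obtain ⟨Z, hZ⟩ : ∃ Z, Z = takeB (h + h) (d + 1) ((stepB f b (d + 1))^[δ] Y) := ⟨_, rfl⟩
    have e3 : nxtD f (d + 1) b h r0 μ s' (j, (j * μ, (fl, (len, X))))
          (j, (j * μ, (fl, (len, X')))) =
        (0, (0 * μ, (decide (h + h ≤ len), (len', Z)))) := by
      unfold nxtD
      simp only
      rw [decide_eq_false hj1, cond_false, ← hδ, ← hY, ← hlen', Nat.zero_mul, hev.1, ← hZ]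
    have hshZ : Shp s (d + 1) (sd (d + 1) 0 len') Z := by
      rw [hZ]
      have h4 := shp_takeB s (h + h) (d + 1) _ _ hev.2
      have e4 : (fun i : Fin (d + 1) => min (h + h) (len + len - 2 * δ)) =
          sd (d + 1) 0 len' := by
        funext i
        simp only [sd]
        rw [if_neg (by omega), hlen', Nat.min_comm, Nat.two_mul]
      rw [← e4]
      exact h4
    have hl2 : len' ≤ h + h := by rw [hlen']; exact Nat.min_le_right _ _
    have hsz := size_StD_le (j := 0) (μ := μ) (len := len') (fl := decide (h + h ≤ len))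
      (B := h + h + (h + h)) hshZ (fun i => by simp only [sd]; split_ifs <;> omega)
    rw [← hlen']
    refine ⟨Z, ?_, hshZ, ?_⟩
    · rw [h1, e3, fit_encD]
      omega
    · intro A hA hA2
      rw [hZ, h3 A hA hA2, hjd, sd_full, iter_stepB_arr, takeB_mkBox]
      have e5 : (fun l => (A l : ℤ) - T + t + (δ : ℤ)) =
          fun l => (A l : ℤ) - T + ((t + δ : ℕ) : ℤ) := by
        funext l
        push_cast
        ring
      have e6 : (fun i : Fin (d + 1) => min (h + h) (len + len - (δ + δ))) =
          sd (d + 1) 0 len' := by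
        funext i
        simp only [sd]
        rw [if_neg (by omega), hlen', Nat.min_comm]
      rw [e5, e6]

end

end Pool.Agent.H7CA
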