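import Pool.Agent.H7LS.Defs

/-!
# Linear arrays of processors (one-dimensional cellular automata)

A linear array has one cell for each integer; every cell holds a word of length `s`. In one
step every cell changes its content to a function `φ` of the contents of its left neighbour,
itself and its right neighbour.
-/

namespace Pool.Agent.H7CA

open Pool.Agent.PPS Pool.Agent.H7LS

/-- `cell φ n s x a t z` is the content of cell `z` of the array with the local rule `φ` after
`t` steps, on an input `x` of length `n` with advice `a`. At the beginning, cell `z ≥ 0` holds
a mark that says whether `z < n`, and the bits number `z` of `x` and of `a`, followed by zeros;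
the cells `z < 0` hold zeros. -/
def cell (φ : List Bool → List Bool → List Bool → List Bool) (n s : ℕ) (x a : List Bool) :
    ℕ → ℤ → List Bool
  | 0, z => if 0 ≤ z then
      fit s [decide (z < n), x.getD z.toNat false, a.getD z.toNat false] else fit s []
  | t + 1, z => fit s (φ (cell φ n s x a t (z - 1)) (cell φ n s x a t z)
      (cell φ n s x a t (z + 1)))

end Pool.Agent.H7CA
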