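import Pool.Agent.PPS.Defs

/-!
# Turing machines with advice
-/

namespace Pool.Agent.H7CA

open Pool.Agent.PPS

/-- The initial configuration of the machine `M` on input `x` with advice `a`: all heads are on
cell `0`, the tape `io` holds `x`, the tape `adv` holds `a` followed by zeros, and the other
tapes are blank. -/
def initA (M : TM) (adv : M.K) (x a : List Bool) : M.Cfg where
  state := M.start
  head := fun _ => 0
  tape := fun k => if k = M.io then M.word x else
    if k = adv then fun z => if 0 ≤ z then some (M.bit (a.getD z.toNat false)) else none
    else fun _ => none

/-- The answer of the machine `M` after `t` steps on input `x` with advice `a`: whether it is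
in an accepting state. -/
def ansA (M : TM) (adv : M.K) (x a : List Bool) (t : ℕ) : Bool :=
  M.accept (M.run t (initA M adv x a)).state

end Pool.Agent.H7CA
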