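import Pool.Agent.H7LS.Final

/-!
# The lower bound, with a number that carries parameters
-/

namespace Pool.Agent.H7CA

open Pool.Agent.PPS Pool.Agent.H7LS Filter Asymptotics

theorem length_bits_le' (n : ℕ) : n.bits.length ≤ Nat.log 2 n + 1 := by
  rcases Nat.eq_zero_or_pos n with h | h
  · subst h; simp
  · exact length_bits_le n h

/-- The parameters exist and are small. -/
theorem exists_params' (M : PMach) (h1 : M.addr ∈ FLIN) (h2 : M.upd ∈ FLIN) (k : ℕ) :
    ∃ K : ℕ, ∀ n N m s R : ℕ, 2 ≤ n → s ≤ n ^ k → ∃ P : Params,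
      size P ≤ K * (m + s + R * (m + Nat.log 2 n) + Nat.log 2 n + Nat.log 2 N + 1) ∧
      ∀ x α : List Bool, simP P x α = M.out N m s R x α := by
  obtain ⟨U₁, C₁, hU₁⟩ := exists_uprog h1
  obtain ⟨U₂, C₂, hU₂⟩ := exists_uprog h2
  refine ⟨size U₁ + size U₂ + 20 * (C₁ + C₂) + 300 * (k + 1), ?_⟩
  intro n N m s R hn hs
  obtain ⟨w, hw⟩ : ∃ w, w = Nat.log 2 n := ⟨_, rfl⟩
  have hw1 : 1 ≤ w := by rw [hw]; exact Nat.log_pos (by omega) hn
  have hwn : 2 ^ w ≤ n := by rw [hw]; exact Nat.pow_log_le_self 2 (by omega)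
  have hnw : n < 2 ^ (w + 1) := by rw [hw]; exact Nat.lt_pow_succ_log_self (by omega) n
  obtain ⟨c, hc⟩ : ∃ c, c = s / w + 1 := ⟨_, rfl⟩
  have hcw : s ≤ c * w := by
    rw [hc, Nat.add_mul, Nat.one_mul]
    have h3 := Nat.div_add_mod s w
    have h4 := Nat.mod_lt s (show w > 0 by omega)
    have h5 : w * (s / w) = s / w * w := Nat.mul_comm _ _
    omega
  have hcs : c ≤ s + 1 := by
    rw [hc]
    have := Nat.div_le_self s w
    omega
  have hcws : c * w ≤ s + w := by
    rw [hc, Nat.add_mul, Nat.one_mul]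
    have := Nat.div_mul_le_self s w
    omega
  have hc1 : 1 ≤ c := by rw [hc]; exact Nat.le_add_left _ _
  clear hc
  obtain ⟨q, hq, hq1, hq2⟩ := Nat.exists_prime_lt_and_le_two_mul ((c + c) * 2 ^ w + 1) (by omega)
  have hqF : Fact q.Prime := ⟨hq⟩
  have hwq : 2 ^ w ≤ q := by
    have h3 : 1 * 2 ^ w ≤ (c + c) * 2 ^ w := Nat.mul_le_mul_right _ (by omega)
    omega
  obtain ⟨l, hl⟩ : ∃ l, l = Nat.log 2 q + 1 := ⟨_, rfl⟩
  have hl2 : q < 2 ^ l := by rw [hl]; exact Nat.lt_pow_succ_log_self (by omega) q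
  have hwl : w ≤ l := by
    have h3 : 2 ^ w < 2 ^ l := lt_of_le_of_lt hwq hl2
    exact ((Nat.pow_lt_pow_iff_right (by omega)).mp h3).le
  have hl3 : l ≤ (w + 1) * k + w + 5 := by
    have h3 : s ≤ 2 ^ ((w + 1) * k) := by
      rw [pow_mul]
      exact hs.trans (Nat.pow_le_pow_left hnw.le k)
    have h3' : 1 ≤ 2 ^ ((w + 1) * k) := Nat.one_le_two_pow
    have h4 : (c + c) * 2 ^ w ≤ (4 * 2 ^ ((w + 1) * k)) * 2 ^ w :=
      Nat.mul_le_mul_right _ (by omega)
    have h5 : (4 * 2 ^ ((w + 1) * k)) * 2 ^ w = 2 ^ ((w + 1) * k + w + 2) := by ring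
    have h6 : 2 ≤ 2 ^ ((w + 1) * k + w + 2) := by
      calc 2 = 2 ^ 1 := rfl
        _ ≤ 2 ^ ((w + 1) * k + w + 2) := Nat.pow_le_pow_right (by omega) (by omega)
    have h7 : 2 ^ ((w + 1) * k + w + 4) = 4 * 2 ^ ((w + 1) * k + w + 2) := by ring
    have h8 : q ≤ 2 ^ ((w + 1) * k + w + 4) := by omega
    have h9 : Nat.log 2 q ≤ (w + 1) * k + w + 4 := by
      have := Nat.log_mono_right (b := 2) h8
      rwa [Nat.log_pow (by omega)] at this
    omega
  have hbits := length_bits_le' N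
  obtain ⟨W, hW⟩ : ∃ W, W = (C₁ + C₂) * (2 * (N.bits.length + m + s + s) + 5) := ⟨_, rfl⟩
  let E : Env := ((U₁, U₂), (W, wordN l q, wordN l (q - 1), wordN l (q - 2)), (m, s),
    (l, w, R), N.bits)
  have hE : Desc E M N m s q l c w := by
    refine ⟨rfl, rfl, rfl, rfl, rfl, rfl, rfl, hl2, hw1, hwq, hwl, hcw, by omega, ?_, ?_⟩
    · intro i v hi hv
      show fit m (urun U₁ W (blk N.bits ++ blk i ++ blk v)) = _
      rw [hU₁]
      simp only [List.length_append, length_blk, hi, hv]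
      rw [hW]
      exact Nat.mul_le_mul (by omega) (by omega)
    · intro i v w hi hv hw
      show fit s (urun U₂ W (blk N.bits ++ blk i ++ blk v ++ blk w)) = _
      rw [hU₂]
      simp only [List.length_append, length_blk, hi, hv, hw]
      rw [hW]
      exact Nat.mul_le_mul (by omega) (by omega)
  refine ⟨(E, R * (l + m + 3), List.replicate c (List.replicate l false)), ?_, ?_⟩
  · have e1 : size E = (size U₁ + size U₂ + 1) + (((2 * W + 1) + (size (wordN l q) +
        (size (wordN l (q - 1)) + size (wordN l (q - 2)) + 1) + 1) + 1) +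
        ((2 * m + 1 + (2 * s + 1) + 1) + ((2 * l + 1 + (2 * w + 1 + (2 * R + 1) + 1) + 1) +
        size N.bits + 1) + 1) + 1) + 1 := by
      simp only [E, size_pair, size_nat]
    have e2 : size (List.replicate c (List.replicate l false)) ≤ c * (4 * l + 2) + 1 := by
      rw [size_replicate]
      have := size_word_le (List.replicate l false)
      rw [List.length_replicate] at this
      have h3 : c * (size (List.replicate l false) + 1) ≤ c * (4 * l + 2) :=
        Nat.mul_le_mul_left _ (by omega)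
      omega
    have e3 := size_word_le N.bits
    have e4 := size_word_le (wordN l q)
    have e5 := size_word_le (wordN l (q - 1))
    have e6 := size_word_le (wordN l (q - 2))
    rw [length_wordN] at e4 e5 e6
    have e0 : size ((E, R * (l + m + 3), List.replicate c (List.replicate l false)) : Params) =
        size E + ((2 * (R * (l + m + 3)) + 1) +
          size (List.replicate c (List.replicate l false)) + 1) + 1 := by
      rw [size_pair E, size_pair (R * (l + m + 3)), size_nat]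
    rw [e0, e1]
    rw [← hw]
    obtain ⟨F, hF⟩ : ∃ F, F = m + s + R * (m + w) + w + Nat.log 2 N + 1 := ⟨_, rfl⟩
    rw [← hF]
    obtain ⟨G, hG⟩ : ∃ G, G = (k + 1) * F := ⟨_, rfl⟩
    have hFG : F ≤ G := by rw [hG]; exact Nat.le_mul_of_pos_left _ (by omega)
    have hR' : R ≤ R * (m + w) := Nat.le_mul_of_pos_right _ (by omega)
    have hlG : l ≤ G + 5 := by
      have h3 : (k + 1) * (w + 1) ≤ G := by
        rw [hG]; exact Nat.mul_le_mul_left _ (by omega)
      have h4 : (k + 1) * (w + 1) = (w + 1) * k + w + 1 := by ring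
      omega
    have g1 : c * (4 * l + 2) ≤ 26 * G := by
      have h3 : 4 * l + 2 ≤ 26 * (k + 1) * w := by
        have h5 : 4 * l + 2 ≤ 4 * ((w + 1) * k + w + 5) + 2 := by omega
        have h6 : k ≤ w * k := Nat.le_mul_of_pos_left _ (by omega)
        have h7 : 4 * ((w + 1) * k + w + 5) + 2 = 4 * (w * k) + 4 * k + 4 * w + 22 := by ring
        have h8 : 26 * (k + 1) * w = 26 * (w * k) + 26 * w := by ring
        omega
      have h4 : c * (4 * l + 2) ≤ c * (26 * (k + 1) * w) := Nat.mul_le_mul_left _ h3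
      have h5 : c * (26 * (k + 1) * w) = 26 * ((k + 1) * (c * w)) := by ring
      have h6 : (k + 1) * (c * w) ≤ G := by
        rw [hG]; exact Nat.mul_le_mul_left _ (by omega)
      omega
    have g3 : R * (l + m + 3) ≤ 9 * G := by
      have h3 : l + m + 3 ≤ 9 * (k + 1) * (m + w) := by
        have h6 : k ≤ w * k := Nat.le_mul_of_pos_left _ (by omega)
        have h7 : (w + 1) * k + w + 5 = w * k + k + w + 5 := by ring
        have h8 : 9 * (k + 1) * (m + w) = 9 * (w * k) + 9 * (m * k) + 9 * w + 9 * m := by ring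
        omega
      have h4 : R * (l + m + 3) ≤ R * (9 * (k + 1) * (m + w)) := Nat.mul_le_mul_left _ h3
      have h5 : R * (9 * (k + 1) * (m + w)) = 9 * ((k + 1) * (R * (m + w))) := by ring
      have h6 : (k + 1) * (R * (m + w)) ≤ G := by
        rw [hG]; exact Nat.mul_le_mul_left _ (by omega)
      omega
    have g5 : W ≤ (C₁ + C₂) * (9 * F) := by
      rw [hW]
      exact Nat.mul_le_mul_left _ (by omega)
    have g6 : (size U₁ + size U₂ + 20 * (C₁ + C₂) + 300 * (k + 1)) * F =
        (size U₁ + size U₂) * F + 2 * ((C₁ + C₂) * (9 * F)) + (2 * (C₁ + C₂)) * F +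
          300 * G := by rw [hG]; ring
    have g7 : size U₁ + size U₂ ≤ (size U₁ + size U₂) * F :=
      Nat.le_mul_of_pos_right _ (by omega)
    have g8 : 1 ≤ F := by omega
    rw [g6]
    omega
  · intro x α
    exact simP_eq (x := x) (α := α) hE

/-- The lower bound for machines that receive a number `N` in place of `n`. -/
theorem lower_bound' (k : ℕ) (hk : 1 ≤ k) (K : ℕ) (c : ℝ) (hc : c < 1 / 2) :
    ∃ L ∈ SPC k, ∀ M : PMach, M.addr ∈ FLIN → M.upd ∈ FLIN → ∀ m s R p : ℕ → ℕ,
      (fun n : ℕ => (m n : ℝ) + s n + R n * (m n + Nat.log 2 n) + p n)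
        =o[atTop] (fun n : ℕ => (n : ℝ) ^ k) →
      ∀ᶠ n : ℕ in atTop, ∀ N : ℕ, Nat.log 2 N ≤ p n →
        ∀ α : List Bool, α.length ≤ K * n ^ k →
        |({x : List Bool | x.length = n ∧
            (M.out N (m n) (s n) (R n) x α = true ↔ x ∈ L)}.ncard : ℝ) / 2 ^ n - 1 / 2| ≤
          2 ^ (-(c * n)) := by
  -- choice of the constants
  obtain ⟨j, hj1, hj2⟩ : ∃ j : ℕ, 1 ≤ j ∧ 2 * c ≤ 1 - 1 / (j : ℝ) := by
    obtain ⟨j, hj⟩ := exists_nat_gt (1 / (1 - 2 * c))
    have h1 : 0 < 1 - 2 * c := by linarith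
    have h2 : 0 < 1 / (1 - 2 * c) := by positivity
    have h3 : (0 : ℝ) < j := h2.trans hj
    refine ⟨j, by exact_mod_cast h3, ?_⟩
    rw [div_lt_iff₀ h1] at hj
    have h4 : 1 / (j : ℝ) < 1 - 2 * c := by
      rw [div_lt_iff₀ h3]
      linarith
    linarith
  refine ⟨hardL (K + 1) j (2 * (j * (K + 2))) k, hardL_mem _ _ _ _ hj1 hk, ?_⟩
  intro M h1 h2 m s R p ho
  obtain ⟨K', hK⟩ := exists_params' M h1 h2 k
  have hpow : (fun n : ℕ => (n : ℝ)) =O[atTop] (fun n : ℕ => (n : ℝ) ^ k) := by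
    refine IsBigO.of_bound 1 ?_
    filter_upwards [eventually_ge_atTop 1] with n hn
    rw [one_mul, Real.norm_of_nonneg (by positivity), Real.norm_of_nonneg (by positivity)]
    have := le_pow_self' n hk
    exact_mod_cast this
  have ho1 : ∀ᶠ n : ℕ in atTop,
      (m n : ℝ) + s n + R n * (m n + Nat.log 2 n) + p n ≤ (n : ℝ) ^ k := by
    filter_upwards [ho.bound (show (0 : ℝ) < 1 by norm_num)] with n hn
    rw [Real.norm_of_nonneg (by positivity), Real.norm_of_nonneg (by positivity),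
      one_mul] at hn
    exact hn
  have ho2 : (fun n : ℕ => (K' : ℝ) * (((m n : ℝ) + s n +
      R n * (m n + Nat.log 2 n) + p n) + Nat.log 2 n + 1)) =o[atTop]
        (fun n : ℕ => (n : ℝ) ^ k) := by
    refine IsLittleO.const_mul_left ?_ _
    exact (ho.add (log_isLittleO.trans_isBigO hpow)).add (one_isLittleO.trans_isBigO hpow)
  filter_upwards [ho1, ho2.bound (show (0 : ℝ) < 1 by norm_num), eventually_ge_atTop 2,
    eventually_seed (K + 1) j k hj1 hk] with n hn1 hn2 hn3 hseed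
  intro N hN α hα
  rw [Real.norm_of_nonneg (by positivity), Real.norm_of_nonneg (by positivity),
    one_mul] at hn2
  have hs : s n ≤ n ^ k := by
    have h4 : (0 : ℝ) ≤ (m n : ℝ) := Nat.cast_nonneg _
    have h5 : (0 : ℝ) ≤ R n * (m n + Nat.log 2 n) := by positivity
    have h6 : (0 : ℝ) ≤ (p n : ℝ) := Nat.cast_nonneg _
    have : (s n : ℝ) ≤ (n : ℝ) ^ k := by linarith
    exact_mod_cast this
  obtain ⟨P, hP1, hP2⟩ := hK n N (m n) (s n) (R n) hn3 hs
  have hP1' : size P ≤ n ^ k := by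
    have h3 : (size P : ℝ) ≤ ((K' * (m n + s n + R n * (m n + Nat.log 2 n) +
      Nat.log 2 n + p n + 1) : ℕ) : ℝ) := by
      exact_mod_cast hP1.trans (Nat.mul_le_mul_left _ (by omega))
    push_cast at h3
    have h4 : (size P : ℝ) ≤ (n : ℝ) ^ k := by
      refine h3.trans (le_trans (le_of_eq ?_) hn2)
      ring
    exact_mod_cast h4
  have htot : size P + α.length ≤ (K + 1) * n ^ k := by
    have : (K + 1) * n ^ k = K * n ^ k + n ^ k := by ring
    omega
  obtain ⟨w, hw⟩ : ∃ w, w = code P ++ (α ++ List.replicate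
    ((K + 1) * n ^ k - size P - α.length) false) := ⟨_, rfl⟩
  have hwl : w ∈ WF ((K + 1) * n ^ k) := by
    rw [mem_WF, hw]
    have h3 : (code P).length = size P := rfl
    simp only [List.length_append, List.length_replicate, h3]
    omega
  have hcorr := hseed w hwl
  have hsim : ∀ x, sim w x = M.out N (m n) (s n) (R n) x α := by
    intro x
    rw [hw, sim_code, hP2]
    unfold PMach.out
    rw [mem_pad]
  obtain ⟨a, ha⟩ : ∃ a, a = seed (K + 1) j (2 * (j * (K + 1 + 1))) n (n ^ k) := ⟨_, rfl⟩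
  rw [← ha] at hcorr
  have hmem : ∀ x : List Bool, x.length = n →
      (x ∈ hardL (K + 1) j (2 * (j * (K + 2))) k ↔ fam a x = true) := by
    intro x hx
    show hardF (K + 1) j (2 * (j * (K + 2))) (x, x.length ^ k) = true ↔ _
    unfold hardF
    simp only
    rw [hx, ha]
  have hset : {x : List Bool | x.length = n ∧
      (M.out N (m n) (s n) (R n) x α = true ↔
        x ∈ hardL (K + 1) j (2 * (j * (K + 2))) k)} =
      (((WF n).filter (fun x => sim w x = fam a x) : Finset (List Bool)) :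
        Set (List Bool)) := by
    ext x
    simp only [Set.mem_ofPred_eq, Finset.coe_filter, mem_WF, hsim]
    constructor
    · rintro ⟨h3, h4⟩
      refine ⟨h3, ?_⟩
      rw [Bool.eq_iff_iff, h4]
      exact hmem x h3
    · rintro ⟨h3, h4⟩
      refine ⟨h3, ?_⟩
      rw [h4]
      exact (hmem x h3).symm
  rw [hset, Set.ncard_coe_finset]
  have hag : (((WF n).filter (fun x => sim w x = fam a x)).card : ℝ) =
      (cor n (sim w) (fam a) + 2 ^ n) / 2 := by
    rw [cor_eq]
    unfold agree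
    ring
  rw [hag]
  have e1 : (cor n (sim w) (fam a) + 2 ^ n) / 2 / 2 ^ n - 1 / 2 =
      cor n (sim w) (fam a) / (2 * 2 ^ n) := by
    field_simp
    ring
  rw [e1, abs_div, abs_of_pos (show (0 : ℝ) < 2 * 2 ^ n by positivity),
    div_le_iff₀ (by positivity)]
  refine hcorr.trans ?_
  have hu4 := uB_le j n
  have e2 : (2 : ℝ) ^ (n - uB j n) = 2 ^ (-((uB j n : ℝ) + 1)) * (2 * 2 ^ n) := by
    rw [← pow_succ', ← Real.rpow_natCast 2 (n - uB j n), ← Real.rpow_natCast 2 (n + 1),
      ← Real.rpow_add (by norm_num)]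
    congr 1
    rw [Nat.cast_sub hu4]
    push_cast
    ring
  rw [e2]
  refine mul_le_mul_of_nonneg_right ?_ (by positivity)
  refine Real.rpow_le_rpow_of_exponent_le (by norm_num) ?_
  have h3 : c * n ≤ uB j n + 1 := by
    have h4 : n - n / j ≤ 2 * uB j n + 1 := by unfold uB; omega
    have h5 : ((n / j : ℕ) : ℝ) ≤ (n : ℝ) / j := Nat.cast_div_le
    have h6 : (n : ℝ) - (n : ℝ) / j ≤ 2 * uB j n + 1 := by
      have h7 : ((n - n / j : ℕ) : ℝ) ≤ 2 * uB j n + 1 := by exact_mod_cast h4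
      rw [Nat.cast_sub (Nat.div_le_self _ _)] at h7
      linarith
    have h8 : 2 * c * n ≤ (1 - 1 / (j : ℝ)) * n :=
      mul_le_mul_of_nonneg_right hj2 (by positivity)
    have h9 : (1 - 1 / (j : ℝ)) * n = (n : ℝ) - (n : ℝ) / j := by ring
    linarith
  linarith

end Pool.Agent.H7CA
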