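import Pool.Agent.H7CA.Lower
import Pool.Agent.H7CA.Defs
import Pool.Agent.H7LS.Easy

/-!
# The parallel machine that simulates a linear array in blocks
-/

namespace Pool.Agent.H7CA

open Pool.Agent.PPS Pool.Agent.H7LS

variable {α β γ δ σ τ : Type} [Rep α] [Rep β] [Rep γ] [Rep δ] [Rep σ] [Rep τ]

theorem LT_of_FLIN {f : List Bool → List Bool} (hf : f ∈ FLIN) : LT f := by
  obtain ⟨U, C, h⟩ := exists_uprog hf
  have h1 : LT (fun z : List Bool => urun U (C * (z.length + 1)) z) := by
    have h2 : LT (fun z : List Bool => C * (z.length + 1)) := LT.cmul C (by fun_prop)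
    fun_prop
  exact h1.of_eq (fun z => (h z _ le_rfl).symm)

/-! ### One step of a list of cells -/

/-- One step of a list of neighbouring cells; the two cells at the ends are lost. -/
def stepL (f : List Bool → List Bool) (nb : List Bool) : List (List Bool) → List (List Bool)
  | u :: v :: w :: r => fit v.length (f (blk nb ++ blk u ++ blk v ++ blk w)) ::
      stepL f nb (v :: w :: r)
  | _ => []

theorem stepL_eq (f : List Bool → List Bool) (nb : List Bool) (L : List (List Bool)) :
    stepL f nb L = (L.zip (L.tail.zip L.tail.tail)).map (fun p =>
      fit p.2.1.length (f (blk nb ++ blk p.1 ++ blk p.2.1 ++ blk p.2.2))) := by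
  induction L with
  | nil => rfl
  | cons u L ih =>
    match L with
    | [] => rfl
    | [v] => rfl
    | v :: w :: r =>
      rw [stepL, ih]
      rfl

/-- The weight of a list of words. -/
def wt : List (List Bool) → ℕ
  | [] => 1
  | u :: L => 4 * u.length + 2 + wt L

theorem size_le_wt (L : List (List Bool)) : size L ≤ wt L := by
  induction L with
  | nil => exact le_rfl
  | cons u L ih =>
    rw [size_cons, wt]
    have := size_word_le u
    omega

theorem wt_le_size (L : List (List Bool)) : wt L ≤ 2 * size L := by
  induction L with
  | nil => rw [size_nil, wt]; omega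
  | cons u L ih =>
    rw [size_cons, wt]
    have := le_size_word u
    omega

theorem wt_stepL (f : List Bool → List Bool) (nb u : List Bool) (L : List (List Bool)) :
    wt (stepL f nb (u :: L)) ≤ wt L := by
  induction L generalizing u with
  | nil => exact le_rfl
  | cons v L ih =>
    match L with
    | [] =>
      show wt [] ≤ wt [v]
      rw [wt, wt, wt]; omega
    | w :: r =>
      rw [stepL, wt, wt, length_fit]
      have := ih v
      omega

theorem wt_stepL_le (f : List Bool → List Bool) (nb : List Bool) (L : List (List Bool)) :
    wt (stepL f nb L) ≤ wt L := by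
  cases L with
  | nil => exact le_rfl
  | cons u L =>
    refine (wt_stepL f nb u L).trans ?_
    rw [wt]; omega

theorem size_zip3_le (L : List (List Bool)) :
    size (L.zip (L.tail.zip L.tail.tail)) ≤ 3 * size L := by
  have h0 : ∀ M : List (List Bool), size M.tail ≤ size M := by
    intro M
    cases M with
    | nil => exact le_rfl
    | cons b M => rw [List.tail_cons, size_cons]; omega
  have h1 := size_zip_le L (L.tail.zip L.tail.tail)
  have h2 := size_zip_le L.tail L.tail.tail
  have h3 := h0 L
  have h4 := h0 L.tail
  omega

@[fun_prop]
theorem LT.stepL' {f : List Bool → List Bool} (hf : LT f) {nb : α → List Bool}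
    {L : α → List (List Bool)} (hn : LT nb) (hL : LT L) :
    LT (fun a => stepL f (nb a) (L a)) := by
  have h1 : LT (fun z : (List Bool × List (List Bool)) × (List Bool × (List Bool × List Bool)) =>
      fit z.2.2.1.length (f (blk z.1.1 ++ blk z.2.1 ++ blk z.2.2.1 ++ blk z.2.2.2))) := by
    have h2 : LT (fun z : (List Bool × List (List Bool)) × (List Bool × (List Bool × List Bool))
        => blk z.1.1 ++ blk z.2.1 ++ blk z.2.2.1 ++ blk z.2.2.2) := by fun_prop
    have h3 := hf.comp h2
    fun_prop
  have h2 : LT (fun y : List Bool × List (List Bool) => (y.2.zip (y.2.tail.zip y.2.tail.tail)).map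
      (fun p => fit p.2.1.length (f (blk y.1 ++ blk p.1 ++ blk p.2.1 ++ blk p.2.2)))) := by
    refine LT.map' (l := fun y : List Bool × List (List Bool) =>
        (y.2.zip (y.2.tail.zip y.2.tail.tail)))
      (f := fun z : (List Bool × List (List Bool)) × (List Bool × (List Bool × List Bool)) =>
      fit z.2.2.1.length (f (blk z.1.1 ++ blk z.2.1 ++ blk z.2.2.1 ++ blk z.2.2.2)))
      (by fun_prop) h1 6 ?_
    intro y
    refine (size_map_le (c := 2) (by omega) (fun p _ => ?_)).trans ?_
    · obtain ⟨u, v, w⟩ := p
      simp only [size_pair]
      have h3 := size_word_le (fit v.length (f (blk y.1 ++ blk u ++ blk v ++ blk w)))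
      rw [length_fit] at h3
      have h4 := le_size_word v
      omega
    · have h3 := size_zip3_le y.2
      obtain ⟨y1, y2⟩ := y
      rw [size_pair]
      simp only at h3 ⊢
      omega
  have h3 := h2.comp (hn.prodMk hL)
  refine h3.of_eq (fun a => ?_)
  exact stepL_eq _ _ _

@[fun_prop]
theorem LT.iterStepL {f : List Bool → List Bool} (hf : LT f) {nb : α → List Bool} {d : α → ℕ}
    {L : α → List (List Bool)} (hn : LT nb) (hd : LT d) (hL : LT L) :
    LT (fun a => (stepL f (nb a))^[d a] (L a)) := by
  obtain ⟨C, hC0, hC⟩ := hL.exists_size_le
  refine LT.iterateInv (s := fun z : α × List (List Bool) => stepL f (nb z.1) z.2) hd hL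
    (by fun_prop) (fun a y => wt y ≤ wt (L a)) (2 * C) ?_ (fun a => le_rfl) ?_
  · intro a y hy
    have h1 := size_le_wt y
    have h2 := wt_le_size (L a)
    have h3 := hC a
    have h4 : 2 * C * size a = 2 * (C * size a) := by ring
    omega
  · intro a y hy
    exact (wt_stepL_le _ _ _).trans hy

/-! ### Addresses -/

/-- The name `i`, increased by the number that `c` represents. -/
def adW (i c : List Bool) : List Bool := (fun z => incW z)^[valW c] i

/-- The name `i`, increased by `k`. -/
def adN (i : List Bool) (k : ℕ) : List Bool := (fun z => incW z)^[k] i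

theorem length_iter_incW (i : List Bool) (k : ℕ) : (incW^[k] i).length = i.length := by
  induction k with
  | zero => rfl
  | succ k ih => rw [Function.iterate_succ_apply', length_incW, ih]

theorem length_adN (i : List Bool) (k : ℕ) : (adN i k).length = i.length :=
  length_iter_incW i k

theorem length_adW (i c : List Bool) : (adW i c).length = i.length :=
  length_iter_incW i _

@[fun_prop]
theorem LT.adW' {i c : α → List Bool} (hi : LT i) (hc : LT c) :
    LT (fun a => adW (i a) (c a)) := by
  obtain ⟨C, hC0, hC⟩ := hi.exists_size_le
  exact LT.iterateW (s := fun v : α × List Bool => incW v.2) hc hi (by fun_prop)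
    (fun a z => z.length = (i a).length) (2 * C + 1)
    (fun a z hz => size_le_of_length (hC a) hz) (fun a => rfl)
    (fun a z hz => by rw [length_incW]; exact hz)

@[fun_prop]
theorem LT.adN' {i : α → List Bool} {k : α → ℕ} (hi : LT i) (hk : LT k) :
    LT (fun a => adN (i a) (k a)) := by
  obtain ⟨C, hC0, hC⟩ := hi.exists_size_le
  exact LT.iterateInv (s := fun v : α × List Bool => incW v.2) hk hi (by fun_prop)
    (fun a z => z.length = (i a).length) (2 * C + 1)
    (fun a z hz => size_le_of_length (hC a) hz) (fun a => rfl)
    (fun a z hz => by rw [length_incW]; exact hz)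

/-! ### Parameters and states -/

/-- The parameters: the advice of the local rule, the length of the time steps, the size of the
cells, the length of the first time step, the shift, the length of the input. -/
abbrev PP := List Bool × (List Bool × (List Bool × (List Bool × (List Bool × List Bool))))

/-- The parameters, decoded. -/
def par (nb : List Bool) : PP := DRep.dec (decodeD nb)

@[fun_prop]
theorem LT.par' {w : α → List Bool} (hw : LT w) : LT (fun a => par (w a)) := by
  unfold par; fun_prop

theorem decodeD_code {ω : Type} [Rep ω] (a : ω) (u : List Bool) :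
    decodeD (code a ++ u) = Rep.rep a := by
  unfold decodeD
  have := decStack_code_append (Rep.rep a) u
  have h2 : (Rep.rep a).code = code a := rfl
  rw [h2] at this
  rw [this]
  rfl

theorem par_code (P : PP) (u : List Bool) : par (code P ++ u) = P := by
  unfold par
  rw [decodeD_code, DRep.dec_rep]

/-- The state of a processor: whether the first time step is done, and a list of cells. -/
abbrev St := Bool × List (List Bool)

/-- The memory content that represents a state. -/
def enc (st : St) : List Bool := [(st.2.headD []).getD 0 false, false, true] ++ code st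

/-- The state, decoded. -/
def stO (v : List Bool) : St := DRep.dec (decodeD (v.drop 3))

@[fun_prop]
theorem LT.enc' {w : α → St} (hw : LT w) : LT (fun a => enc (w a)) := by
  unfold enc; fun_prop

@[fun_prop]
theorem LT.stO' {w : α → List Bool} (hw : LT w) : LT (fun a => stO (w a)) := by
  unfold stO; fun_prop

theorem length_enc (st : St) : (enc st).length = size st + 3 := by
  unfold enc
  have h : (code st).length = size st := rfl
  rw [List.length_append, h]
  simp only [List.length_cons, List.length_nil]
  omega

theorem fit_enc {s : ℕ} {st : St} (h : size st + 3 ≤ s) :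
    fit s (enc st) = enc st ++ List.replicate (s - (size st + 3)) false := by
  unfold fit
  have h1 := length_enc st
  rw [List.take_append, List.take_of_length_le (by omega), List.take_replicate, h1]
  congr 2
  omega

theorem stO_enc (st : St) (u : List Bool) : stO (enc st ++ u) = st := by
  unfold stO enc
  have h : ([(st.2.headD []).getD 0 false, false, true] ++ code st ++ u).drop 3 =
      code st ++ u := rfl
  rw [h, decodeD_code, DRep.dec_rep]

theorem enc_getD_two (st : St) (u : List Bool) : (enc st ++ u).getD 2 false = true := rfl

/-- The next state, from the own state and the state of another processor. -/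
def nxt (f : List Bool → List Bool) (nb : List Bool) (h r : ℕ) (st st' : St) : St :=
  (decide (h + h ≤ st.2.length),
    ((stepL f nb)^[bif decide (h + h ≤ st.2.length) then (bif st.1 then h else r) else 0]
      (st.2 ++ st'.2)).take (h + h))

@[fun_prop]
theorem LT.nxt' {f : List Bool → List Bool} (hf : LT f) {nb : α → List Bool} {h r : α → ℕ}
    {st st' : α → St} (hn : LT nb) (hh : LT h) (hr : LT r) (hst : LT st) (hst' : LT st') :
    LT (fun a => nxt f (nb a) (h a) (r a) (st a) (st' a)) := by
  unfold nxt
  have h1 : LT (fun a => bif decide (h a + h a ≤ (st a).2.length) then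
    (bif (st a).1 then h a else r a) else 0) := by fun_prop
  have h2 : LT (fun a => (st a).2 ++ (st' a).2) := by fun_prop
  have h3 := LT.iterStepL hf hn h1 h2
  fun_prop

/-- The first state, from the name of the processor, its shifted name, the length of the
input and the memory content of the shifted processor. -/
def ini (i j nw : List Bool) (s : ℕ) (w : List Bool) : St :=
  (false, [bif ltW i j then fit s [] else fit s (ltW j nw :: w.take 2)])

@[fun_prop]
theorem LT.ini' {i j nw w : α → List Bool} {s : α → ℕ} (hi : LT i) (hj : LT j) (hn : LT nw)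
    (hs : LT s) (hw : LT w) : LT (fun a => ini (i a) (j a) (nw a) (s a) (w a)) := by
  unfold ini; fun_prop

/-- The new memory content. -/
def arU (f : List Bool → List Bool) (nb i v w : List Bool) : List Bool :=
  bif v.getD 2 false then
    enc (nxt f (par nb).1 (valCap v.length (par nb).2.1) (valCap v.length (par nb).2.2.2.1)
      (stO v) (stO w))
  else enc (ini i (adW i (par nb).2.2.2.2.1) (par nb).2.2.2.2.2
    (valCap v.length (par nb).2.2.1) w)

theorem LT.arU' {f : List Bool → List Bool} (hf : LT f) {nb i v w : α → List Bool}
    (hn : LT nb) (hi : LT i) (hv : LT v) (hw : LT w) :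
    LT (fun a => arU f (nb a) (i a) (v a) (w a)) := by
  unfold arU
  have h1 : LT (fun a => nxt f (par (nb a)).1 (valCap (v a).length (par (nb a)).2.1)
      (valCap (v a).length (par (nb a)).2.2.2.1) (stO (v a)) (stO (w a))) :=
    LT.nxt' hf (by fun_prop) (by fun_prop) (by fun_prop) (by fun_prop) (by fun_prop)
  fun_prop

/-- The processor that is read. -/
def arA (nb i v : List Bool) : List Bool :=
  bif v.getD 2 false then adN i (stO v).2.length else adW i (par nb).2.2.2.2.1

@[fun_prop]
theorem LT.arA' {nb i v : α → List Bool} (hn : LT nb) (hi : LT i) (hv : LT v) :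
    LT (fun a => arA (nb a) (i a) (v a)) := by
  unfold arA; fun_prop

/-- The parallel machine that simulates the array with local rule `f`. -/
def arM (f : List Bool → List Bool) : PMach where
  addr z := arA (hdB z) (hdB (tlB z)) (hdB (tlB (tlB z)))
  upd z := arU f (hdB z) (hdB (tlB z)) (hdB (tlB (tlB z))) (hdB (tlB (tlB (tlB z))))

theorem arM_addr_mem (f : List Bool → List Bool) : (arM f).addr ∈ FLIN := by
  refine mem_FLIN_of_LT ?_
  show LT (fun z => arA (hdB z) (hdB (tlB z)) (hdB (tlB (tlB z))))
  fun_prop

theorem arM_upd_mem {f : List Bool → List Bool} (hf : f ∈ FLIN) : (arM f).upd ∈ FLIN :=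
  mem_FLIN_of_LT (LT.arU' (LT_of_FLIN hf) (by fun_prop) (by fun_prop) (by fun_prop)
    (by fun_prop))

theorem arM_addr (f : List Bool → List Bool) (nb i v : List Bool) :
    (arM f).addr (blk nb ++ blk i ++ blk v) = arA nb i v := by
  have h1 : blk nb ++ blk i ++ blk v = blk nb ++ (blk i ++ (blk v ++ [])) := by simp
  rw [h1]
  simp only [arM, hdB_blk, tlB_blk]

theorem arM_upd (f : List Bool → List Bool) (nb i v w : List Bool) :
    (arM f).upd (blk nb ++ blk i ++ blk v ++ blk w) = arU f nb i v w := by
  have h1 : blk nb ++ blk i ++ blk v ++ blk w =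
      blk nb ++ (blk i ++ (blk v ++ (blk w ++ []))) := by simp
  rw [h1]
  simp only [arM, hdB_blk, tlB_blk]

end Pool.Agent.H7CA
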