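import Pool.Agent.H7CA.Box2

/-!
# The parallel machine that simulates an array in blocks
-/

namespace Pool.Agent.H7CA

open Pool.Agent.PPS Pool.Agent.H7LS

variable {α β γ δ σ τ : Type} [Rep α] [Rep β] [Rep γ] [Rep δ] [Rep σ] [Rep τ]

/-! ### Parameters and states -/

/-- The parameters: the advice of the local rule, the length of the time steps, the size of the
cells, the length of the first time step, the shift, the length of the input, the coordinates
of the origin. -/
abbrev PPD := List Bool × (List Bool × (List Bool × (List Bool × (List Bool ×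
  (List Bool × List Bool)))))

/-- The parameters, decoded. -/
def parD (nb : List Bool) : PPD := DRep.dec (decodeD nb)

@[fun_prop]
theorem LT.parD' {w : α → List Bool} (hw : LT w) : LT (fun a => parD (w a)) := by
  unfold parD; fun_prop

theorem parD_code (P : PPD) (u : List Bool) : parD (code P ++ u) = P := by
  unfold parD
  rw [decodeD_code, DRep.dec_rep]

/-- The state of a processor: the axis, its position in the names, whether the first time step
is done, the side, and a box. -/
abbrev StD (d : ℕ) := ℕ × (ℕ × (Bool × (ℕ × Bx (List Bool) d)))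

/-- The memory content that represents a state. -/
def encD (d : ℕ) (st : StD d) : List Bool :=
  [(headB [] d st.2.2.2.2).getD 0 false, false, true] ++ code st

/-- The state, decoded. -/
noncomputable def stD (d : ℕ) (v : List Bool) : StD d := DRep.dec (decodeD (v.drop 3))

theorem LT.encD' (d : ℕ) {w : α → StD d} (hw : LT w) : LT (fun a => encD d (w a)) := by
  have h1 : LT (fun a => headB [] d (w a).2.2.2.2) :=
    (LT.headBC [] d).comp (f := fun a => (w a).2.2.2.2) (by fun_prop)
  unfold encD
  fun_prop

theorem LT.stD' (d : ℕ) {w : α → List Bool} (hw : LT w) : LT (fun a => stD d (w a)) := by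
  unfold stD; fun_prop

theorem length_encD (d : ℕ) (st : StD d) : (encD d st).length = size st + 3 := by
  unfold encD
  have h : (code st).length = size st := rfl
  rw [List.length_append, h]
  simp only [List.length_cons, List.length_nil]
  omega

theorem fit_encD {d s : ℕ} {st : StD d} (h : size st + 3 ≤ s) :
    fit s (encD d st) = encD d st ++ List.replicate (s - (size st + 3)) false := by
  unfold fit
  have h1 := length_encD d st
  rw [List.take_append, List.take_of_length_le (by omega), List.take_replicate, h1]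
  congr 2
  omega

theorem stD_encD (d : ℕ) (st : StD d) (u : List Bool) : stD d (encD d st ++ u) = st := by
  unfold stD encD
  have h : ([(headB [] d st.2.2.2.2).getD 0 false, false, true] ++ code st ++ u).drop 3 =
      code st ++ u := rfl
  rw [h, decodeD_code, DRep.dec_rep]

theorem encD_getD_two (d : ℕ) (st : StD d) (u : List Bool) :
    (encD d st ++ u).getD 2 false = true := rfl

/-- The next state. -/
def nxtD (f : List Bool → List Bool) (d : ℕ) (b : List Bool) (h r μ q : ℕ) (st st' : StD d) :
    StD d :=
  bif decide (st.1 + 1 < d) then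
    (st.1 + 1, (st.2.1 + μ, (st.2.2.1, (st.2.2.2.1,
      appB d st.1 st.2.2.2.2 st'.2.2.2.2))))
  else
    (0, (0, (decide (h + h ≤ st.2.2.2.1), (min (st.2.2.2.1 + st.2.2.2.1 -
      ((bif decide (h + h ≤ st.2.2.2.1) then (bif st.2.2.1 then h else r) else 0) +
      (bif decide (h + h ≤ st.2.2.2.1) then (bif st.2.2.1 then h else r) else 0))) (h + h),
      takeB (h + h) d (evB f b d q (bif decide (h + h ≤ st.2.2.2.1) then
        (bif st.2.2.1 then h else r) else 0) (appB d st.1 st.2.2.2.2 st'.2.2.2.2))))))

theorem LT.nxtD' {f : List Bool → List Bool} (hf : LT f) (d : ℕ) {b : α → List Bool}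
    {h r μ q : α → ℕ} {st st' : α → StD d} (hb : LT b) (hh : LT h) (hr : LT r) (hm : LT μ)
    (hq : LT q) (hst : LT st) (hst' : LT st') :
    LT (fun a => nxtD f d (b a) (h a) (r a) (μ a) (q a) (st a) (st' a)) := by
  have h1 : LT (fun a => appB d (st a).1 (st a).2.2.2.2 (st' a).2.2.2.2) :=
    (LT.appB' d).comp (f := fun a => ((st a).1, ((st a).2.2.2.2, (st' a).2.2.2.2)))
      (by fun_prop)
  have h2 : LT (fun a => bif decide (h a + h a ≤ (st a).2.2.2.1) then
      (bif (st a).2.2.1 then h a else r a) else 0) := by fun_prop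
  have h3 : LT (fun a => evB f (b a) d (q a) (bif decide (h a + h a ≤ (st a).2.2.2.1) then
      (bif (st a).2.2.1 then h a else r a) else 0)
      (appB d (st a).1 (st a).2.2.2.2 (st' a).2.2.2.2)) :=
    LT.evB' hf d hb hq h2 h1
  have h4 : LT (fun a => takeB (h a + h a) d (evB f (b a) d (q a)
      (bif decide (h a + h a ≤ (st a).2.2.2.1) then (bif (st a).2.2.1 then h a else r a) else 0)
      (appB d (st a).1 (st a).2.2.2.2 (st' a).2.2.2.2))) :=
    (LT.takeB' d).comp (f := fun a => (h a + h a, evB f (b a) d (q a)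
      (bif decide (h a + h a ≤ (st a).2.2.2.1) then (bif (st a).2.2.1 then h a else r a) else 0)
      (appB d (st a).1 (st a).2.2.2.2 (st' a).2.2.2.2)))
      (LT.prodMk (by fun_prop) h3)
  unfold nxtD
  fun_prop

/-- The content of the first cell. -/
def cell0 (i j nw tw : List Bool) (s μ : ℕ) (w : List Bool) : List Bool :=
  bif ltW (i.take μ) j || !(decide (i.drop μ = tw)) then fit s [] else
    fit s (ltW j nw :: w.take 2)

@[fun_prop]
theorem LT.cell0' {i j nw tw w : α → List Bool} {s μ : α → ℕ} (hi : LT i) (hj : LT j)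
    (hn : LT nw) (ht : LT tw) (hs : LT s) (hm : LT μ) (hw : LT w) :
    LT (fun a => cell0 (i a) (j a) (nw a) (tw a) (s a) (μ a) (w a)) := by
  unfold cell0; fun_prop

/-- The new memory content. -/
noncomputable def arUD (f : List Bool → List Bool) (d : ℕ) (nb i v w : List Bool) : List Bool :=
  bif v.getD 2 false then
    encD d (nxtD f d (parD nb).1 (valCap v.length (parD nb).2.1)
      (valCap v.length (parD nb).2.2.2.1) (parD nb).2.2.2.2.1.length v.length
      (stD d v) (stD d w))
  else encD d (0, (0, (false, (1, oneB d (cell0 i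
    (adW (i.take (parD nb).2.2.2.2.1.length) (parD nb).2.2.2.2.1) (parD nb).2.2.2.2.2.1
    (parD nb).2.2.2.2.2.2 (valCap v.length (parD nb).2.2.1) (parD nb).2.2.2.2.1.length w)))))

theorem LT.arUD' {f : List Bool → List Bool} (hf : LT f) (d : ℕ) {nb i v w : α → List Bool}
    (hn : LT nb) (hi : LT i) (hv : LT v) (hw : LT w) :
    LT (fun a => arUD f d (nb a) (i a) (v a) (w a)) := by
  have h0 := LT.stD' d hv
  have h0' := LT.stD' d hw
  have h1 : LT (fun a => encD d (nxtD f d (parD (nb a)).1
      (valCap (v a).length (parD (nb a)).2.1)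
      (valCap (v a).length (parD (nb a)).2.2.2.1) (parD (nb a)).2.2.2.2.1.length (v a).length
      (stD d (v a)) (stD d (w a)))) :=
    LT.encD' d (LT.nxtD' hf d (by fun_prop) (by fun_prop) (by fun_prop) (by fun_prop)
      (by fun_prop) h0 h0')
  have h2 : LT (fun a => (oneB d (cell0 (i a)
      (adW ((i a).take (parD (nb a)).2.2.2.2.1.length) (parD (nb a)).2.2.2.2.1)
      (parD (nb a)).2.2.2.2.2.1 (parD (nb a)).2.2.2.2.2.2
      (valCap (v a).length (parD (nb a)).2.2.1) (parD (nb a)).2.2.2.2.1.length (w a)) :
        Bx (List Bool) d)) :=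
    (LT.oneBC d).comp (f := fun a => cell0 (i a)
      (adW ((i a).take (parD (nb a)).2.2.2.2.1.length) (parD (nb a)).2.2.2.2.1)
      (parD (nb a)).2.2.2.2.2.1 (parD (nb a)).2.2.2.2.2.2
      (valCap (v a).length (parD (nb a)).2.2.1) (parD (nb a)).2.2.2.2.1.length (w a))
      (by fun_prop)
  have h3 : LT (fun a => encD d (0, (0, (false, (1, oneB d (cell0 (i a)
      (adW ((i a).take (parD (nb a)).2.2.2.2.1.length) (parD (nb a)).2.2.2.2.1)
      (parD (nb a)).2.2.2.2.2.1 (parD (nb a)).2.2.2.2.2.2
      (valCap (v a).length (parD (nb a)).2.2.1) (parD (nb a)).2.2.2.2.1.length (w a))))))) :=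
    LT.encD' d (by fun_prop)
  unfold arUD
  fun_prop

/-- The processor that is read. -/
noncomputable def arAD (d : ℕ) (nb i v : List Bool) : List Bool :=
  bif v.getD 2 false then
    i.take (stD d v).2.1 ++ adN (i.drop (stD d v).2.1) (stD d v).2.2.2.1
  else adW (i.take (parD nb).2.2.2.2.1.length) (parD nb).2.2.2.2.1

theorem LT.arAD' (d : ℕ) {nb i v : α → List Bool} (hn : LT nb) (hi : LT i) (hv : LT v) :
    LT (fun a => arAD d (nb a) (i a) (v a)) := by
  have h0 := LT.stD' d hv
  unfold arAD
  fun_prop

/-- The parallel machine that simulates the array of dimension `d` with local rule `f`. -/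
noncomputable def arMD (f : List Bool → List Bool) (d : ℕ) : PMach where
  addr z := arAD d (hdB z) (hdB (tlB z)) (hdB (tlB (tlB z)))
  upd z := arUD f d (hdB z) (hdB (tlB z)) (hdB (tlB (tlB z))) (hdB (tlB (tlB (tlB z))))

theorem arMD_addr_mem (f : List Bool → List Bool) (d : ℕ) : (arMD f d).addr ∈ FLIN :=
  mem_FLIN_of_LT (LT.arAD' d (by fun_prop) (by fun_prop) (by fun_prop))

theorem arMD_upd_mem {f : List Bool → List Bool} (hf : f ∈ FLIN) (d : ℕ) :
    (arMD f d).upd ∈ FLIN :=
  mem_FLIN_of_LT (LT.arUD' (LT_of_FLIN hf) d (by fun_prop) (by fun_prop) (by fun_prop)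
    (by fun_prop))

theorem arMD_addr (f : List Bool → List Bool) (d : ℕ) (nb i v : List Bool) :
    (arMD f d).addr (blk nb ++ blk i ++ blk v) = arAD d nb i v := by
  have h1 : blk nb ++ blk i ++ blk v = blk nb ++ (blk i ++ (blk v ++ [])) := by simp
  rw [h1]
  simp only [arMD, hdB_blk, tlB_blk]

theorem arMD_upd (f : List Bool → List Bool) (d : ℕ) (nb i v w : List Bool) :
    (arMD f d).upd (blk nb ++ blk i ++ blk v ++ blk w) = arUD f d nb i v w := by
  have h1 : blk nb ++ blk i ++ blk v ++ blk w =
      blk nb ++ (blk i ++ (blk v ++ (blk w ++ []))) := by simp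
  rw [h1]
  simp only [arMD, hdB_blk, tlB_blk]

end Pool.Agent.H7CA
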