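import Pool.Agent.H7CA.Asym

/-!
# Arbitrary local rules, and the optimality of the correlation
-/

namespace Pool.Agent.H7CA

open Pool.Agent.PPS Pool.Agent.H7LS Filter Asymptotics

variable {α β γ δ σ τ : Type} [Rep α] [Rep β] [Rep γ] [Rep δ] [Rep σ] [Rep τ]

/-! ### The table of a local rule -/

/-- Entry number `j` of a table with entries of length `s`. -/
def entry (b : List Bool) (s j : ℕ) : List Bool :=
  ((fun y : List Bool => y.drop s)^[j] b).take s

@[fun_prop]
theorem LT.entry' {b : α → List Bool} {s j : α → ℕ} (hb : LT b) (hs : LT s) (hj : LT j) :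
    LT (fun a => entry (b a) (s a) (j a)) := by
  obtain ⟨C, hC0, hC⟩ := hb.exists_size_le
  have h1 : LT (fun a => (fun y : List Bool => y.drop (s a))^[j a] (b a)) := by
    refine LT.iterateInv (s := fun v : α × List Bool => v.2.drop (s v.1)) hj hb (by fun_prop)
      (fun a y => size y ≤ size (b a)) C (fun a y hy => hy.trans (hC a)) (fun a => le_rfl) ?_
    intro a y hy
    exact (size_drop_le _ _).trans hy
  unfold entry
  fun_prop

/-- The function that looks up a table. -/
def tabF (z : List Bool) : List Bool :=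
  entry (hdB z) (hdB (tlB z)).length
    (valCap (hdB z).length (hdB (tlB z) ++ hdB (tlB (tlB z)) ++ hdB (tlB (tlB (tlB z)))))

theorem tabF_mem : tabF ∈ FLIN := by
  refine mem_FLIN_of_LT ?_
  unfold tabF
  fun_prop

theorem ruleW_tabF (b u v w : List Bool) :
    ruleW tabF b u v w = entry b u.length (valCap b.length (u ++ v ++ w)) := by
  have h1 : blk b ++ blk u ++ blk v ++ blk w =
      blk b ++ (blk u ++ (blk v ++ (blk w ++ []))) := by simp
  unfold ruleW tabF
  rw [h1]
  simp only [hdB_blk, tlB_blk]

theorem iter_drop_flatMap {s : ℕ} (g : ℕ → List Bool) (hg : ∀ j, (g j).length = s)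
    (l : List ℕ) (j : ℕ) :
    (fun y : List Bool => y.drop s)^[j] (l.flatMap g) = (l.drop j).flatMap g := by
  induction j generalizing l with
  | zero => rfl
  | succ j ih =>
    rw [Function.iterate_succ_apply]
    cases l with
    | nil => simpa using ih []
    | cons a l =>
      have h1 : ((a :: l).flatMap g).drop s = l.flatMap g := by
        rw [List.flatMap_cons]
        exact List.drop_left' (hg a)
      rw [h1, ih]
      rfl

/-- The table of the local rule `φ` on words of length `s`. -/
def table (φ : List Bool → List Bool → List Bool → List Bool) (s : ℕ) : List Bool :=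
  (List.range (8 ^ s)).flatMap (fun j => fit s (φ ((wordN (s + s + s) j).take s)
    (((wordN (s + s + s) j).drop s).take s) ((wordN (s + s + s) j).drop (s + s))))

theorem length_table (φ : List Bool → List Bool → List Bool → List Bool) (s : ℕ) :
    (table φ s).length = 8 ^ s * s := by
  unfold table
  rw [List.length_flatMap]
  simp [length_fit]

theorem fit_entry_table (φ : List Bool → List Bool → List Bool → List Bool) {s : ℕ}
    {u v w : List Bool} (hu : u.length = s) (hv : v.length = s) (hw : w.length = s) :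
    fit s (ruleW tabF (table φ s) u v w) = fit s (φ u v w) := by
  rw [ruleW_tabF, hu]
  have hlen : (u ++ v ++ w).length = s + s + s := by
    rw [List.length_append, List.length_append, hu, hv, hw]
  have h1 : valW (u ++ v ++ w) < 8 ^ s := by
    have h := valW_lt (u ++ v ++ w)
    rw [hlen] at h
    have h2 : 2 ^ (s + s + s) = 8 ^ s := by
      have : s + s + s = 3 * s := by ring
      rw [this, pow_mul]
      norm_num
    omega
  have h2 : valCap (table φ s).length (u ++ v ++ w) = valW (u ++ v ++ w) ∨ s = 0 := by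
    rcases Nat.eq_zero_or_pos s with h | h
    · exact Or.inr h
    · left
      unfold valCap
      rw [length_table, Nat.min_eq_right]
      exact h1.le.trans (Nat.le_mul_of_pos_right _ h)
  rcases h2 with h2 | h2
  · rw [h2]
    obtain ⟨j, hj⟩ : ∃ j, j = valW (u ++ v ++ w) := ⟨_, rfl⟩
    rw [← hj] at h1 ⊢
    unfold entry table
    rw [iter_drop_flatMap _ (fun j => length_fit _ _)]
    have h3 : (List.range (8 ^ s)).drop j = j :: (List.range (8 ^ s)).drop (j + 1) := by
      have h4 := List.drop_eq_getElem_cons (l := List.range (8 ^ s)) (i := j) (by simpa using h1)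
      rw [h4]
      simp
    rw [h3, List.flatMap_cons]
    have h5 : wordN (s + s + s) j = u ++ v ++ w := by
      rw [hj, ← hlen, wordN_valW]
    rw [h5, List.take_left' (length_fit _ _)]
    have h6 : (u ++ v ++ w).take s = u := by
      rw [List.append_assoc]; exact List.take_left' hu
    have h7 : ((u ++ v ++ w).drop s).take s = v := by
      rw [List.append_assoc, List.drop_left' hu]; exact List.take_left' hv
    have h8 : (u ++ v ++ w).drop (s + s) = w :=
      List.drop_left' (by rw [List.length_append, hu, hv])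
    rw [h6, h7, h8, fit_of_length (length_fit _ _)]
  · subst h2
    have : ∀ y : List Bool, fit 0 y = [] := fun y => by simp [fit]
    rw [this, this]

theorem cell_table (φ : List Bool → List Bool → List Bool → List Bool) (n s : ℕ)
    (x a : List Bool) (t : ℕ) : ∀ z : ℤ,
    cell (ruleW tabF (table φ s)) n s x a t z = cell φ n s x a t z := by
  induction t with
  | zero => intro z; rw [cell, cell]
  | succ t ih =>
    intro z
    rw [cell, cell, ih, ih, ih]
    exact fit_entry_table φ (length_cell _ _ _ _ _ _ _) (length_cell _ _ _ _ _ _ _)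
      (length_cell _ _ _ _ _ _ _)

/-- The lower bound, for uniform rules with advice and for arbitrary rules. -/
theorem arrays_all (k : ℕ) (hk : 1 ≤ k) (K : ℕ) (c : ℝ) (hc : c < 1 / 2) :
    ∃ L ∈ SPC k,
      (∀ s T : ℕ → ℕ,
        (fun n : ℕ => (8 : ℝ) ^ s n * s n) =o[atTop] (fun n : ℕ => (n : ℝ) ^ k) →
        (fun n : ℕ => (T n : ℝ) * s n * Nat.log 2 n) =o[atTop]
          (fun n : ℕ => (n : ℝ) ^ (2 * k)) →
        ∀ᶠ n : ℕ in atTop, ∀ (φ : List Bool → List Bool → List Bool → List Bool)
          (a : List Bool), a.length ≤ K * n ^ k →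
          |({x : List Bool | x.length = n ∧
              ((cell φ n (s n) x a (T n) 0).getD 0 false = true ↔ x ∈ L)}.ncard : ℝ) /
              2 ^ n - 1 / 2| ≤ 2 ^ (-(c * n))) ∧
      (∀ f ∈ FLIN, ∀ p s T : ℕ → ℕ,
        (fun n : ℕ => (p n : ℝ) + s n) =o[atTop] (fun n : ℕ => (n : ℝ) ^ k) →
        (fun n : ℕ => (T n : ℝ) * s n * Nat.log 2 n) =o[atTop]
          (fun n : ℕ => (n : ℝ) ^ (2 * k)) →
        ∀ᶠ n : ℕ in atTop, ∀ b a : List Bool, b.length ≤ p n → a.length ≤ K * n ^ k →
          |({x : List Bool | x.length = n ∧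
              ((cell (fun u v w => f (blk b ++ blk u ++ blk v ++ blk w)) n (s n) x a (T n)
                0).getD 0 false = true ↔ x ∈ L)}.ncard : ℝ) / 2 ^ n - 1 / 2| ≤
            2 ^ (-(c * n))) := by
  obtain ⟨L, hL, h⟩ := arrays k hk K c hc
  refine ⟨L, hL, ?_, h⟩
  intro s T ho1 ho2
  have key := h tabF tabF_mem (fun n => 8 ^ s n * s n) s T (by
    refine IsBigO.trans_isLittleO (IsBigO.of_bound 2 (Eventually.of_forall fun n => ?_)) ho1
    rw [Real.norm_of_nonneg (by positivity), Real.norm_of_nonneg (by positivity)]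
    push_cast
    have h1 : (1 : ℝ) ≤ 8 ^ s n := one_le_pow₀ (by norm_num)
    have h2 : (0 : ℝ) ≤ s n := Nat.cast_nonneg _
    nlinarith) ho2
  filter_upwards [key] with n hn
  intro φ a ha
  have h1 := hn (table φ (s n)) a (length_table _ _).le ha
  simp only [cell_table] at h1
  exact h1

/-! ### The inner product -/

/-- The local rule of an array that computes the inner product of the input and the advice: the
products of the bits move to the left and are added up in cell `0`. -/
def ipR (u v w : List Bool) : List Bool :=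
  bif v.getD 3 false then
    [bif v.getD 1 false then xor (v.getD 0 false) (w.getD 0 false) else w.getD 0 false,
      v.getD 1 false, false, true]
  else [v.getD 1 false && v.getD 2 false, v.getD 0 false && !(u.getD 0 false), false, true]

theorem fit43 (a b c : Bool) : fit 4 [a, b, c] = [a, b, c, false] := rfl

theorem fit44 (a b c d : Bool) : fit 4 [a, b, c, d] = [a, b, c, d] := rfl

theorem fit40 : fit 4 [] = [false, false, false, false] := rfl

theorem cell_init {n : ℕ} (x a : List Bool) (z : ℕ) :
    cell ipR n 4 x a 0 z = [decide (z < n), x.getD z false, a.getD z false, false] := by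
  have e1 : ((z : ℕ) : ℤ).toNat = z := by omega
  rw [cell, if_pos (Int.natCast_nonneg z), e1, fit43]
  simp

theorem cell_left {n : ℕ} (x a : List Bool) (z : ℕ) :
    (cell ipR n 4 x a 0 ((z : ℤ) - 1)).getD 0 false = decide (1 ≤ z ∧ z - 1 < n) := by
  rcases Nat.eq_zero_or_pos z with h | h
  · subst h
    rw [cell, if_neg (by omega), fit40]
    simp
  · have e2 : (z : ℤ) - 1 = ((z - 1 : ℕ) : ℤ) := by omega
    rw [e2, cell_init, List.getD_cons_zero]
    simp [Nat.one_le_iff_ne_zero, h.ne']

theorem cell_one {n : ℕ} (x a : List Bool) (z : ℕ) :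
    cell ipR n 4 x a 1 z = [x.getD z false && a.getD z false, decide (z = 0 ∧ 0 < n), false,
      true] := by
  have h0 : cell ipR n 4 x a 1 z = fit 4 (ipR (cell ipR n 4 x a 0 ((z : ℤ) - 1))
    (cell ipR n 4 x a 0 z) (cell ipR n 4 x a 0 ((z : ℤ) + 1))) := rfl
  have h1 := cell_left (n := n) x a z
  rw [h0, cell_init]
  generalize cell ipR n 4 x a 0 ((z : ℤ) - 1) = u at h1
  unfold ipR
  simp only [List.getD_cons_zero, List.getD_cons_succ, cond_false, fit44]
  rw [h1]
  congr 2
  rw [Bool.eq_iff_iff]
  simp only [Bool.and_eq_true, decide_eq_true_eq, Bool.not_eq_eq_eq_not, Bool.not_true,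
    decide_eq_false_iff_not]
  omega

theorem cell_pos {n : ℕ} (x a : List Bool) (j : ℕ) : ∀ z : ℕ, 1 ≤ z →
    cell ipR n 4 x a (1 + j) z = [x.getD (z + j) false && a.getD (z + j) false, false, false,
      true] := by
  induction j with
  | zero =>
    intro z hz
    rw [Nat.add_zero, cell_one]
    have : decide (z = 0 ∧ 0 < n) = false := decide_eq_false (by omega)
    rw [this, Nat.add_zero]
  | succ j ih =>
    intro z hz
    have e : 1 + (j + 1) = (1 + j) + 1 := by ring
    have e2 : (z : ℤ) + 1 = ((z + 1 : ℕ) : ℤ) := by push_cast; rfl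
    rw [e, cell, ih z hz, e2, ih (z + 1) (by omega)]
    unfold ipR
    simp only [List.getD_cons_zero, List.getD_cons_succ, cond_false, cond_true, fit44]
    have e3 : z + 1 + j = z + (j + 1) := by ring
    rw [e3]

theorem cell_zero {n : ℕ} (x a : List Bool) (hx : x.length = n) (j : ℕ) :
    ∃ r : Bool, cell ipR n 4 x a (1 + j) 0 = [r, decide (0 < n), false, true] ∧
      (bz r : ZMod 2) = ∑ i ∈ Finset.range (j + 1), bz (x.getD i false && a.getD i false) := by
  induction j with
  | zero =>
    refine ⟨x.getD 0 false && a.getD 0 false, ?_, by simp⟩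
    have := cell_one (n := n) x a 0
    simp only [true_and] at this
    exact this
  | succ j ih =>
    obtain ⟨r, h1, h2⟩ := ih
    have e : 1 + (j + 1) = (1 + j) + 1 := by ring
    have e2 : (0 : ℤ) + 1 = ((1 : ℕ) : ℤ) := by norm_num
    have e3 : 1 + j = j + 1 := by ring
    rcases Nat.eq_zero_or_pos n with h | h
    · have hx0 : x = [] := List.length_eq_zero_iff.mp (hx.trans h)
      refine ⟨false, ?_, ?_⟩
      · rw [e, cell, h1, e2, cell_pos x a j 1 le_rfl]
        unfold ipR
        subst h
        subst hx0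
        rfl
      · rw [hx0]
        simp [bz]
    · refine ⟨xor r (x.getD (j + 1) false && a.getD (j + 1) false), ?_, ?_⟩
      · rw [e, cell, h1, e2, cell_pos x a j 1 le_rfl]
        unfold ipR
        simp only [List.getD_cons_zero, List.getD_cons_succ, cond_true, fit44, h,
          decide_true, e3]
      · rw [Finset.sum_range_succ, ← h2, bz_xor]

theorem cell_ip {n : ℕ} (x a : List Bool) (hx : x.length = n) (ha : a.length = n) :
    (cell ipR n 4 x a (n + 1) 0).getD 0 false = ip a x := by
  obtain ⟨r, h1, h2⟩ := cell_zero x a hx n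
  have e : n + 1 = 1 + n := by ring
  rw [e, h1]
  show r = _
  refine bz_inj ?_
  rw [h2, bz_ip a x (n + 1) (by omega) (by omega)]

open Classical in
/-- With `n` bits of advice, an array with four bits in each cell achieves a correlation
`2 ^ (- n / 2)` with any language in `n + 1` steps. -/
theorem array_sharp (L : Set (List Bool)) (n : ℕ) : ∃ a : List Bool, a.length = n ∧
    (2 : ℝ) ^ (-((n : ℝ) / 2 + 1)) ≤ |({x : List Bool | x.length = n ∧
      ((cell ipR n 4 x a (n + 1) 0).getD 0 false = true ↔
        x ∈ L)}.ncard : ℝ) / 2 ^ n - 1 / 2| := by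
  obtain ⟨a, ha, hcorr⟩ := exists_corr n (fun x => decide (x ∈ L))
  rw [mem_WF] at ha
  refine ⟨a, ha, ?_⟩
  have hset : {x : List Bool | x.length = n ∧
      ((cell ipR n 4 x a (n + 1) 0).getD 0 false = true ↔ x ∈ L)} =
      (((WF n).filter (fun x => decide (x ∈ L) = ip a x) : Finset (List Bool)) :
        Set (List Bool)) := by
    ext x
    simp only [Set.mem_ofPred_eq, Finset.coe_filter, mem_WF]
    refine and_congr_right (fun hx => ?_)
    rw [cell_ip x a hx ha]
    rw [Bool.eq_iff_iff (a := decide (x ∈ L)), decide_eq_true_iff]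
    exact iff_comm
  rw [hset, Set.ncard_coe_finset]
  have hag : (((WF n).filter (fun x => decide (x ∈ L) = ip a x)).card : ℝ) =
      (corr n (fun x => decide (x ∈ L)) a + 2 ^ n) / 2 := by
    have h2 := cor_eq n (fun x => decide (x ∈ L)) (ip a)
    have h3 : cor n (fun x => decide (x ∈ L)) (ip a) = corr n (fun x => decide (x ∈ L)) a := rfl
    rw [← h3, h2]
    unfold agree
    ring
  rw [hag]
  generalize corr n (fun x => decide (x ∈ L)) a = r at hcorr
  have e1 : (r + 2 ^ n) / 2 / 2 ^ n - 1 / 2 = r / (2 * 2 ^ n) := by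
    field_simp
    ring
  rw [e1, abs_div, abs_of_pos (show (0 : ℝ) < 2 * 2 ^ n by positivity),
    le_div_iff₀ (by positivity)]
  have h2 : (2 : ℝ) ^ (-((n : ℝ) / 2 + 1)) * (2 * 2 ^ n) = 2 ^ ((n : ℝ) / 2) := by
    rw [← pow_succ', ← Real.rpow_natCast 2 (n + 1), ← Real.rpow_add (by norm_num)]
    congr 1
    push_cast
    ring
  rw [h2]
  refine le_of_sq_le_sq ?_ (abs_nonneg r)
  rw [sq_abs, ← Real.rpow_natCast, ← Real.rpow_mul (by norm_num)]
  have h3 : (n : ℝ) / 2 * ((2 : ℕ) : ℝ) = (n : ℝ) := by push_cast; ring
  rw [h3, Real.rpow_natCast]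
  exact hcorr

end Pool.Agent.H7CA
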