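import Pool.Agent.H7CA.AsymD
import Pool.Agent.H7CA.Table

/-!
# Arbitrary local rules in any dimension
-/

namespace Pool.Agent.H7CA

open Pool.Agent.PPS Pool.Agent.H7LS Filter Asymptotics

/-- Cut a word in `N` pieces of length `s`. -/
def chunk (s N : ℕ) (w : List Bool) : List (List Bool) :=
  (List.range N).map (fun i => (w.drop (i * s)).take s)

theorem chunk_flatten (s : ℕ) (l : List (List Bool)) (h : ∀ u ∈ l, u.length = s) :
    chunk s l.length l.flatten = l := by
  induction l with
  | nil => rfl
  | cons u l ih =>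
    have hu : u.length = s := h u List.mem_cons_self
    have ih := ih (fun v hv => h v (List.mem_cons_of_mem _ hv))
    unfold chunk at ih ⊢
    rw [List.length_cons, List.range_succ_eq_map, List.map_cons, List.map_map,
      List.flatten_cons, Nat.zero_mul, List.drop_zero, List.take_left' hu]
    congr 1
    refine (List.map_congr_left (fun i _ => ?_)).trans ih
    simp only [Function.comp_apply]
    have e : (i + 1) * s = u.length + i * s := by rw [hu]; ring
    rw [Nat.succ_eq_add_one, e, List.drop_length_add_append]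

/-- The function that looks up a table. -/
def tabG (z : List Bool) : List Bool :=
  entry (tlB (hdB z)) (hdB (hdB z)).length (valCap (tlB (hdB z)).length (tlB z))

theorem tabG_mem : tabG ∈ FLIN := by
  refine mem_FLIN_of_LT ?_
  unfold tabG
  fun_prop

/-- The table of the local rule `φ` on `N` words of length `s`. -/
def tableG (φ : List (List Bool) → List Bool) (N s : ℕ) : List Bool :=
  blk (List.replicate s true) ++
    (List.range (2 ^ (N * s))).flatMap (fun j => fit s (φ (chunk s N (wordN (N * s) j))))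

theorem length_tableG (φ : List (List Bool) → List Bool) (N s : ℕ) :
    (tableG φ N s).length = 2 * s + 1 + 2 ^ (N * s) * s := by
  unfold tableG
  rw [List.length_append, length_blk, List.length_flatMap]
  simp [length_fit]

theorem length_flatten_eq (s : ℕ) (l : List (List Bool)) (h : ∀ u ∈ l, u.length = s) :
    l.flatten.length = l.length * s := by
  induction l with
  | nil => simp
  | cons u l ih =>
    rw [List.flatten_cons, List.length_append, h u List.mem_cons_self,
      ih (fun v hv => h v (List.mem_cons_of_mem _ hv)), List.length_cons]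
    ring

theorem fit_ruleD_table (φ : List (List Bool) → List Bool) {N s : ℕ} {l : List (List Bool)}
    (hl : l.length = N) (h : ∀ u ∈ l, u.length = s) :
    fit s (ruleD tabG (tableG φ N s) l) = fit s (φ l) := by
  obtain ⟨w, hw⟩ : ∃ w, w = l.flatten := ⟨_, rfl⟩
  obtain ⟨tb, htb⟩ : ∃ tb, tb = (List.range (2 ^ (N * s))).flatMap
    (fun j => fit s (φ (chunk s N (wordN (N * s) j)))) := ⟨_, rfl⟩
  have hlen : w.length = N * s := by rw [hw, length_flatten_eq s l h, hl]
  have htl : tb.length = 2 ^ (N * s) * s := by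
    rw [htb, List.length_flatMap]
    simp [length_fit]
  have e1 : ruleD tabG (tableG φ N s) l = entry tb s (valCap tb.length w) := by
    unfold ruleD tabG
    rw [hdB_blk, tlB_blk]
    unfold tableG
    rw [hdB_blk, tlB_blk, ← htb, ← hw, List.length_replicate]
  rw [e1]
  have h1 : valW w < 2 ^ (N * s) := by
    have h := valW_lt w
    rwa [hlen] at h
  rcases Nat.eq_zero_or_pos s with h2 | h2
  · subst h2
    have : ∀ y : List Bool, fit 0 y = [] := fun y => by simp [fit]
    rw [this, this]
  · have h3 : valCap tb.length w = valW w := by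
      unfold valCap
      rw [htl, Nat.min_eq_right]
      exact h1.le.trans (Nat.le_mul_of_pos_right _ h2)
    rw [h3]
    obtain ⟨j, hj⟩ : ∃ j, j = valW w := ⟨_, rfl⟩
    rw [← hj] at h1 ⊢
    unfold entry
    rw [htb, iter_drop_flatMap _ (fun j => length_fit _ _)]
    have h4 : (List.range (2 ^ (N * s))).drop j = j :: (List.range (2 ^ (N * s))).drop
        (j + 1) := by
      have h4 := List.drop_eq_getElem_cons (l := List.range (2 ^ (N * s))) (i := j)
        (by simpa using h1)
      rw [h4]
      simp
    have h5 : wordN (N * s) j = w := by rw [hj, ← hlen, wordN_valW]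
    rw [h4, List.flatMap_cons, List.take_left' (length_fit _ _), h5,
      fit_of_length (length_fit _ _), hw, ← hl, chunk_flatten s l h]

theorem length_dirs (d : ℕ) : (dirs d).length = 3 ^ d := by
  induction d with
  | zero => rfl
  | succ d ih => simp [dirs, ih]; ring

theorem arr_table (d : ℕ) (φ : List (List Bool) → List Bool) (n s : ℕ) (x a : List Bool)
    (t : ℕ) : ∀ z : Fin (d + 1) → ℤ,
    arr d (ruleD tabG (tableG φ (3 ^ (d + 1)) s)) n s x a t z = arr d φ n s x a t z := by
  induction t with
  | zero => intro z; rw [arr, arr]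
  | succ t ih =>
    intro z
    rw [arr, arr]
    simp only [ih]
    refine fit_ruleD_table φ (by rw [List.length_map, length_dirs]) ?_
    intro u hu
    rw [List.mem_map] at hu
    obtain ⟨e, _, rfl⟩ := hu
    exact length_arr _ _ _ _ _ _ _ _

/-- The lower bound, for arbitrary rules and for uniform rules with advice. -/
theorem arraysD_all (k : ℕ) (hk : 1 ≤ k) (K : ℕ) (c : ℝ) (hc : c < 1 / 2) :
    ∃ L ∈ SPC k, ∀ d : ℕ,
      (∀ s T : ℕ → ℕ,
        (fun n : ℕ => (2 : ℝ) ^ (3 ^ (d + 1) * s n) * s n) =o[atTop]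
          (fun n : ℕ => (n : ℝ) ^ k) →
        (fun n : ℕ => ((T n : ℝ) * Nat.log 2 n) ^ (d + 1) * s n) =o[atTop]
          (fun n : ℕ => (n : ℝ) ^ (k * (d + 2))) →
        ∀ᶠ n : ℕ in atTop, ∀ (φ : List (List Bool) → List Bool) (a : List Bool),
          a.length ≤ K * n ^ k →
          |({x : List Bool | x.length = n ∧
              ((arr d φ n (s n) x a (T n) 0).getD 0 false = true ↔ x ∈ L)}.ncard : ℝ) /
              2 ^ n - 1 / 2| ≤ 2 ^ (-(c * n))) ∧
      (∀ f ∈ FLIN, ∀ p s T : ℕ → ℕ,
        (fun n : ℕ => (p n : ℝ) + s n) =o[atTop] (fun n : ℕ => (n : ℝ) ^ k) →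
        (fun n : ℕ => ((T n : ℝ) * Nat.log 2 n) ^ (d + 1) * s n) =o[atTop]
          (fun n : ℕ => (n : ℝ) ^ (k * (d + 2))) →
        ∀ᶠ n : ℕ in atTop, ∀ b a : List Bool, b.length ≤ p n → a.length ≤ K * n ^ k →
          |({x : List Bool | x.length = n ∧
              ((arr d (fun l => f (blk b ++ l.flatten)) n (s n) x a (T n) 0).getD 0 false =
                true ↔ x ∈ L)}.ncard : ℝ) / 2 ^ n - 1 / 2| ≤ 2 ^ (-(c * n))) := by
  obtain ⟨L, hL, h⟩ := arraysD k hk K c hc
  refine ⟨L, hL, fun d => ⟨?_, h d⟩⟩
  intro s T ho1 ho2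
  have hpow : (fun n : ℕ => (n : ℝ)) =O[atTop] (fun n : ℕ => (n : ℝ) ^ k) := by
    refine IsBigO.of_bound 1 ?_
    filter_upwards [eventually_ge_atTop 1] with n hn
    rw [one_mul, Real.norm_of_nonneg (by positivity), Real.norm_of_nonneg (by positivity)]
    have := le_pow_self' n hk
    exact_mod_cast this
  have key := h d tabG tabG_mem (fun n => 2 * s n + 1 + 2 ^ (3 ^ (d + 1) * s n) * s n) s T (by
    have h1 : (fun n : ℕ => 4 * ((2 : ℝ) ^ (3 ^ (d + 1) * s n) * s n) + 1) =o[atTop]
        (fun n : ℕ => (n : ℝ) ^ k) :=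
      (ho1.const_mul_left 4).add (one_isLittleO.trans_isBigO hpow)
    refine IsBigO.trans_isLittleO (IsBigO.of_bound 1 (Eventually.of_forall fun n => ?_)) h1
    rw [Real.norm_of_nonneg (by positivity), Real.norm_of_nonneg (by positivity)]
    push_cast
    have h2 : (1 : ℝ) ≤ 2 ^ (3 ^ (d + 1) * s n) := one_le_pow₀ (by norm_num)
    have h3 : (0 : ℝ) ≤ s n := Nat.cast_nonneg _
    nlinarith) ho2
  filter_upwards [key] with n hn
  intro φ a ha
  have h1 := hn (tableG φ (3 ^ (d + 1)) (s n)) a (length_tableG _ _ _).le ha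
  simp only [arr_table] at h1
  exact h1

/-! ### Dimension one -/

theorem arr_zero_eq (φ : List (List Bool) → List Bool) (n s : ℕ) (x a : List Bool) (t : ℕ) :
    ∀ z : Fin 1 → ℤ, arr 0 φ n s x a t z =
      cell (fun u v w => φ [u, v, w]) n s x a t (z 0) := by
  induction t with
  | zero =>
    intro z
    rw [arr, cell]
    have e : (0 ≤ z 0 ∧ ∀ i : Fin 0, z i.succ = 0) ↔ 0 ≤ z 0 :=
      ⟨fun h => h.1, fun h => ⟨h, fun i => i.elim0⟩⟩
    simp only [e]
  | succ t ih =>
    intro z
    rw [arr, cell]
    have e : (dirs (0 + 1)).map (fun e => arr 0 φ n s x a t (z + e)) =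
        [cell (fun u v w => φ [u, v, w]) n s x a t (z 0 - 1),
          cell (fun u v w => φ [u, v, w]) n s x a t (z 0),
          cell (fun u v w => φ [u, v, w]) n s x a t (z 0 + 1)] := by
      simp only [dirs, List.flatMap_cons, List.flatMap_nil, List.map_cons, List.map_nil,
        List.append_nil, List.cons_append, List.nil_append, ih]
      have e1 : (z + (Fin.cons (-1) (fun i : Fin 0 => i.elim0) : Fin 1 → ℤ)) 0 = z 0 - 1 := by
        simp; ring
      have e2 : (z + (Fin.cons 0 (fun i : Fin 0 => i.elim0) : Fin 1 → ℤ)) 0 = z 0 := by simp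
      have e3 : (z + (Fin.cons 1 (fun i : Fin 0 => i.elim0) : Fin 1 → ℤ)) 0 = z 0 + 1 := by
        simp
      rw [e1, e2, e3]
    rw [e]

/-- The local rule of a one-dimensional array that computes the inner product of the input and
the advice. -/
def ipG (l : List (List Bool)) : List Bool := ipR (l.getD 0 []) (l.getD 1 []) (l.getD 2 [])

/-- With `n` bits of advice, a one-dimensional array with four bits in each cell achieves a
correlation `2 ^ (- n / 2)` with any language in `n + 1` steps. -/
theorem arr_sharp (L : Set (List Bool)) (n : ℕ) : ∃ a : List Bool, a.length = n ∧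
    (2 : ℝ) ^ (-((n : ℝ) / 2 + 1)) ≤ |({x : List Bool | x.length = n ∧
      ((arr 0 ipG n 4 x a (n + 1) 0).getD 0 false = true ↔
        x ∈ L)}.ncard : ℝ) / 2 ^ n - 1 / 2| := by
  obtain ⟨a, ha, h⟩ := array_sharp L n
  refine ⟨a, ha, ?_⟩
  have e : ∀ x, arr 0 ipG n 4 x a (n + 1) 0 = cell ipR n 4 x a (n + 1) 0 := by
    intro x
    rw [arr_zero_eq]
    rfl
  simp only [e]
  exact h

end Pool.Agent.H7CA
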