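import Pool.Agent.H7CA.DefsT

/-!
# A systolic tape: the boundaries of the buffers
-/

namespace Pool.Agent.H7CA

open Pool.Agent.PPS

/-- The change of a boundary when a pair of buffers is balanced. -/
def adj (z : ℤ) : ℤ := if z = 0 then 1 else if z = 3 then -1 else 0

/-- Buffer `i` is balanced with buffer `i + 1` in round `u`. -/
def Act (i u : ℕ) : Prop := (i + u) % 2 = 1 ∧ i + 1 ≤ u

instance (i u : ℕ) : Decidable (Act i u) := inferInstanceAs (Decidable (_ ∧ _))

/-- The boundaries of the buffers in round `u`, when the head has the positions `H`. -/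
def bd (H : ℕ → ℤ) : ℕ → ℕ → ℤ
  | u, 0 => H u
  | 0, i + 1 => (i : ℤ) + 1
  | u + 1, i + 1 => bd H u (i + 1) +
      (if Act i u then adj (bd H u (i + 1) - bd H u i) else 0)

theorem bd_zero_left (H : ℕ → ℤ) (u : ℕ) : bd H u 0 = H u := by
  cases u <;> rfl

theorem bd_zero_succ (H : ℕ → ℤ) (i : ℕ) : bd H 0 (i + 1) = (i : ℤ) + 1 := rfl

theorem bd_succ_succ (H : ℕ → ℤ) (u i : ℕ) : bd H (u + 1) (i + 1) = bd H u (i + 1) +
      (if Act i u then adj (bd H u (i + 1) - bd H u i) else 0) := rfl

/-- The head moves by at most one in even rounds and not at all in odd rounds. -/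
structure HdOK (H : ℕ → ℤ) : Prop where
  zero : H 0 = 0
  even : ∀ u, u % 2 = 0 → H (u + 1) - H u ≤ 1 ∧ -1 ≤ H (u + 1) - H u
  odd : ∀ u, u % 2 = 1 → H (u + 1) = H u

theorem adj_cases (z : ℤ) (h0 : 0 ≤ z) (h3 : z ≤ 3) :
    1 ≤ z + adj z ∧ z + adj z ≤ 2 ∧ -1 ≤ adj z ∧ adj z ≤ 1 := by
  unfold adj
  split_ifs <;> omega

theorem bd_size {H : ℕ → ℤ} (hH : HdOK H) (u : ℕ) : ∀ i : ℕ,
    0 ≤ bd H u (i + 1) - bd H u i ∧ bd H u (i + 1) - bd H u i ≤ 3 ∧
    (((i + u) % 2 = 0 ∨ u < i) →
      1 ≤ bd H u (i + 1) - bd H u i ∧ bd H u (i + 1) - bd H u i ≤ 2) := by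
  induction u with
  | zero =>
    intro i
    have h1 : bd H 0 (i + 1) - bd H 0 i = 1 := by
      cases i with
      | zero => rw [bd_zero_succ, bd_zero_left, hH.zero]; simp
      | succ i => rw [bd_zero_succ, bd_zero_succ]; push_cast; ring
    rw [h1]
    omega
  | succ u ih =>
    intro i
    cases i with
    | zero =>
      have h0 := ih 0
      have e0 := hH.even u
      have e1 := hH.odd u
      rw [bd_succ_succ, bd_zero_left]
      rw [bd_zero_left] at h0 ⊢
      obtain ⟨z, hz⟩ : ∃ z, z = bd H u (0 + 1) - H u := ⟨_, rfl⟩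
      rw [← hz] at h0 ⊢
      have ha := adj_cases z h0.1 h0.2.1
      by_cases hA : Act 0 u
      · rw [if_pos hA]
        obtain ⟨hA1, hA2⟩ := hA
        have := e1 (by omega)
        omega
      · rw [if_neg hA]
        have hu : u % 2 = 0 := by
          unfold Act at hA
          omega
        have h2 := e0 hu
        have h3 := h0.2.2 (by omega)
        omega
    | succ i =>
      have h0 := ih (i + 1)
      have h1 := ih i
      rw [bd_succ_succ, bd_succ_succ]
      obtain ⟨z, hz⟩ : ∃ z, z = bd H u (i + 1 + 1) - bd H u (i + 1) := ⟨_, rfl⟩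
      obtain ⟨y, hy⟩ : ∃ y, y = bd H u (i + 1) - bd H u i := ⟨_, rfl⟩
      rw [← hz] at h0 ⊢
      rw [← hy] at h1 ⊢
      have ha := adj_cases z h0.1 h0.2.1
      have hb := adj_cases y h1.1 h1.2.1
      have hact : ∀ j, Act j u ↔ ((j + u) % 2 = 1 ∧ j + 1 ≤ u) := fun _ => Iff.rfl
      by_cases hA : Act (i + 1) u
      · have hA' : ¬ Act i u := by
          rw [hact] at hA ⊢
          omega
        rw [if_pos hA, if_neg hA']
        omega
      · by_cases hB : Act i u
        · rw [if_neg hA, if_pos hB]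
          rw [hact] at hA hB
          have h3 := h0.2.2 (by omega)
          omega
        · rw [if_neg hA, if_neg hB]
          rw [hact] at hA hB
          have e : bd H u (i + 1 + 1) + 0 - (bd H u (i + 1) + 0) = z := by omega
          rw [e]
          refine ⟨h0.1, h0.2.1, fun h => ?_⟩
          refine h0.2.2 ?_
          omega

theorem bd_mono {H : ℕ → ℤ} (hH : HdOK H) (u i : ℕ) : bd H u 1 ≤ bd H u (i + 1) := by
  induction i with
  | zero => exact le_rfl
  | succ i ih =>
    have := (bd_size hH u (i + 1)).1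
    omega

/-! ### Buffers -/

/-- The values of `V` on `[b, c)`. -/
def bseg {σ : Type} (V : ℤ → σ) (b c : ℤ) : List σ :=
  (List.range (c - b).toNat).map (fun t : ℕ => V (b + (t : ℤ)))

theorem length_bseg {σ : Type} (V : ℤ → σ) (b c : ℤ) : (bseg V b c).length = (c - b).toNat := by
  simp [bseg]

theorem bseg_nil {σ : Type} (V : ℤ → σ) {b c : ℤ} (h : c ≤ b) : bseg V b c = [] := by
  unfold bseg
  have : (c - b).toNat = 0 := by omega
  rw [this]
  rfl

theorem bseg_cons {σ : Type} (V : ℤ → σ) {b c : ℤ} (h : b < c) :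
    bseg V b c = V b :: bseg V (b + 1) c := by
  unfold bseg
  obtain ⟨l, hl⟩ : ∃ l : ℕ, (c - b).toNat = l + 1 := ⟨(c - b).toNat - 1, by omega⟩
  have hl2 : (c - (b + 1)).toNat = l := by omega
  rw [hl, hl2, List.range_succ_eq_map, List.map_cons, List.map_map]
  congr 1
  · simp
  · refine List.map_congr_left (fun t _ => ?_)
    simp only [Function.comp_apply]
    congr 1
    push_cast
    ring

theorem bseg_congr {σ : Type} {V W : ℤ → σ} {b c : ℤ} (h : ∀ z, b ≤ z → z < c → V z = W z) :
    bseg V b c = bseg W b c := by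
  unfold bseg
  refine List.map_congr_left (fun t ht => ?_)
  rw [List.mem_range] at ht
  exact h _ (by omega) (by omega)

/-- Balance a pair of buffers. -/
def bal {σ : Type} (u v : List σ) : List σ × List σ :=
  if u.length = 0 then (v.take 1, v.drop 1)
  else if u.length = 3 then (u.take 2, u.drop 2 ++ v) else (u, v)

theorem bal_bseg {σ : Type} (V : ℤ → σ) {b c e : ℤ} (h0 : 0 ≤ c - b) (h3 : c - b ≤ 3)
    (h1 : 1 ≤ e - c) (h2 : e - c ≤ 2) :
    bal (bseg V b c) (bseg V c e) =
      (bseg V b (c + adj (c - b)), bseg V (c + adj (c - b)) e) := by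
  unfold bal
  rw [length_bseg]
  rcases (show c - b = 0 ∨ c - b = 1 ∨ c - b = 2 ∨ c - b = 3 by omega) with h | h | h | h
  · have hc : c = b := by omega
    subst hc
    have ha : adj (c - c) = 1 := by rw [h]; rfl
    rw [h, if_pos (by rfl), ← h, ha, bseg_cons V (show c < e by omega),
      bseg_cons V (show c < c + 1 by omega), bseg_nil V (le_refl (c + 1))]
    simp
  · have ha : adj (c - b) = 0 := by rw [h]; rfl
    rw [ha, h, if_neg (by decide), if_neg (by decide), add_zero]
  · have ha : adj (c - b) = 0 := by rw [h]; rfl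
    rw [ha, h, if_neg (by decide), if_neg (by decide), add_zero]
  · have ha : adj (c - b) = -1 := by rw [h]; rfl
    have hc : c = b + 1 + 1 + 1 := by omega
    rw [ha, h, if_neg (by decide), if_pos (by decide), hc,
      bseg_cons V (show b < b + 1 + 1 + 1 by omega),
      bseg_cons V (show b + 1 < b + 1 + 1 + 1 by omega),
      bseg_cons V (show b + 1 + 1 < b + 1 + 1 + 1 by omega),
      bseg_nil V (le_refl (b + 1 + 1 + 1))]
    have e1 : b + 1 + 1 + 1 + -1 = b + 1 + 1 := by ring
    rw [e1, bseg_cons V (show b < b + 1 + 1 by omega),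
      bseg_cons V (show b + 1 < b + 1 + 1 by omega), bseg_nil V (le_refl (b + 1 + 1)),
      bseg_cons V (show b + 1 + 1 < e by omega)]
    simp

end Pool.Agent.H7CA
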