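import Pool.Agent.H7CA.TurA

/-!
# The systolic simulation of a Turing machine
-/

namespace Pool.Agent.H7CA

open Pool.Agent.PPS

/-- The contents of a cell: the state of the machine (in cell `0`), the status, and for every
tape a buffer of the right part and a buffer of the left part. -/
abbrev CT (M : TM) := Option M.Q × (Option Bool × (M.K → List (Option M.Γ) × List (Option M.Γ)))

/-- The buffers of cell `0` after one step of the machine. -/
def opT {σ : Type} (w : Option σ) (d : Move) (p : List (Option σ) × List (Option σ)) :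
    List (Option σ) × List (Option σ) :=
  match d with
  | .stay => (w :: p.1.tail, p.2)
  | .right => (p.1.tail, w :: p.2)
  | .left => (p.2.headD none :: w :: p.1.tail, p.2.tail)

/-- The local rule, for the contents of the left neighbour, the cell and the right neighbour. -/
def Phi (M : TM) (u v w : CT M) : CT M :=
  match v.1 with
  | some q =>
    if v.2.1 = some true then
      match M.δ q (fun k => ((v.2.2 k).1).headD none) with
      | none => (some q, some false, v.2.2)
      | some r => (some r.1, some false, fun k => opT (r.2 k).1 (r.2 k).2 (v.2.2 k))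
    else (some q, some true, fun k =>
      ((bal (v.2.2 k).1 (w.2.2 k).1).1, (bal (v.2.2 k).2 (w.2.2 k).2).1))
  | none => (none, u.2.1,
      if v.2.1 = some false then fun k =>
        ((bal (v.2.2 k).1 (w.2.2 k).1).1, (bal (v.2.2 k).2 (w.2.2 k).2).1)
      else if u.2.1 = some false then fun k =>
        ((bal (u.2.2 k).1 (v.2.2 k).1).2, (bal (u.2.2 k).2 (v.2.2 k).2).2)
      else v.2.2)

/-- The mirror image of a tape content. -/
def mirror {σ : Type} (V : ℤ → σ) (z : ℤ) : σ := V (-1 - z)

theorem opT_bseg {σ : Type} (V : ℤ → Option σ) (h c₁ c₂ : ℤ) (w : Option σ) (d : Move)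
    (h1 : h + 1 ≤ c₁) (h2 : -h + 1 ≤ c₂) :
    opT w d (bseg V h c₁, bseg (mirror V) (-h) c₂) =
      (bseg (Function.update V h w) (h + d.toInt) c₁,
        bseg (mirror (Function.update V h w)) (-(h + d.toInt)) c₂) := by
  have e1 : bseg (Function.update V h w) (h + 1) c₁ = bseg V (h + 1) c₁ := by
    refine bseg_congr (fun z hz _ => ?_)
    rw [Function.update_of_ne (by omega)]
  have e2 : bseg (mirror (Function.update V h w)) (-h) c₂ = bseg (mirror V) (-h) c₂ := by
    refine bseg_congr (fun z hz _ => ?_)
    unfold mirror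
    rw [Function.update_of_ne (by omega)]
  have e3 : (Function.update V h w) h = w := Function.update_self _ _ _
  have r1 := bseg_cons V (show h < c₁ by omega)
  have l1 := bseg_cons (mirror V) (show -h < c₂ by omega)
  cases d with
  | stay =>
    simp only [opT, Move.toInt, add_zero]
    rw [e2, bseg_cons (Function.update V h w) (show h < c₁ by omega), e1, e3, r1, List.tail_cons]
  | right =>
    simp only [opT, Move.toInt]
    have e4 : -(h + 1) + 1 = -h := by ring
    have e5 : mirror (Function.update V h w) (-(h + 1)) = w := by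
      unfold mirror
      have : -1 - -(h + 1) = h := by ring
      rw [this, e3]
    rw [e1, bseg_cons (mirror (Function.update V h w)) (show -(h + 1) < c₂ by omega), e4, e2, e5,
      r1, List.tail_cons]
  | left =>
    simp only [opT, Move.toInt]
    have e4 : h + -1 + 1 = h := by ring
    have e5 : -(h + -1) = -h + 1 := by ring
    have e6 : (Function.update V h w) (h + -1) = V (h + -1) :=
      Function.update_of_ne (by omega) _ _
    have e7 : mirror V (-h) = V (h + -1) := by
      unfold mirror
      congr 1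
      ring
    have e8 : bseg (mirror (Function.update V h w)) (-h + 1) c₂ =
        bseg (mirror V) (-h + 1) c₂ := by
      refine bseg_congr (fun z hz _ => ?_)
      unfold mirror
      rw [Function.update_of_ne (by omega)]
    rw [bseg_cons (Function.update V h w) (show h + -1 < c₁ by omega), e4,
      bseg_cons (Function.update V h w) (show h < c₁ by omega), e1, e3, e5, e6, e8, r1, l1,
      List.tail_cons, List.tail_cons, List.headD_cons, e7]

/-! ### One side of one tape -/

section side

variable {σ : Type} {H : ℕ → ℤ}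

theorem act_zero_iff (u : ℕ) : Act 0 u ↔ u % 2 = 1 := by
  unfold Act
  omega

theorem side_succ (hH : HdOK H) (u i : ℕ) (V V' : ℤ → σ)
    (hV : ∀ z, bd H (u + 1) 1 ≤ z → V' z = V z) :
    bseg V' (bd H (u + 1) (i + 1)) (bd H (u + 1) (i + 1 + 1)) =
      if Act (i + 1) u then (bal (bseg V (bd H u (i + 1)) (bd H u (i + 1 + 1)))
        (bseg V (bd H u (i + 1 + 1)) (bd H u (i + 1 + 1 + 1)))).1
      else if Act i u then (bal (bseg V (bd H u i) (bd H u (i + 1)))
        (bseg V (bd H u (i + 1)) (bd H u (i + 1 + 1)))).2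
      else bseg V (bd H u (i + 1)) (bd H u (i + 1 + 1)) := by
  have h1 : bseg V' (bd H (u + 1) (i + 1)) (bd H (u + 1) (i + 1 + 1)) =
      bseg V (bd H (u + 1) (i + 1)) (bd H (u + 1) (i + 1 + 1)) := by
    refine bseg_congr (fun z hz _ => hV z ?_)
    exact (bd_mono hH (u + 1) i).trans hz
  rw [h1, bd_succ_succ H u i, bd_succ_succ H u (i + 1)]
  have s0 := bd_size hH u i
  have s1 := bd_size hH u (i + 1)
  have s2 := bd_size hH u (i + 1 + 1)
  have hact : ∀ j, Act j u ↔ ((j + u) % 2 = 1 ∧ j + 1 ≤ u) := fun _ => Iff.rfl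
  by_cases hA : Act (i + 1) u
  · have hB : ¬ Act i u := by rw [hact] at hA ⊢; omega
    rw [if_pos hA, if_neg hB, if_pos hA, add_zero]
    rw [hact] at hA
    have s3 := s2.2.2 (by omega)
    rw [bal_bseg V s1.1 s1.2.1 s3.1 s3.2]
  · by_cases hB : Act i u
    · rw [if_neg hA, if_pos hB, if_neg hA, if_pos hB, add_zero]
      rw [hact] at hA hB
      have s3 := s1.2.2 (by omega)
      rw [bal_bseg V s0.1 s0.2.1 s3.1 s3.2]
    · rw [if_neg hA, if_neg hB, if_neg hA, if_neg hB, add_zero, add_zero]

theorem side_zero (hH : HdOK H) (u : ℕ) (hu : u % 2 = 1) (V : ℤ → σ) :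
    bseg V (bd H (u + 1) 0) (bd H (u + 1) 1) =
      (bal (bseg V (bd H u 0) (bd H u 1)) (bseg V (bd H u 1) (bd H u 2))).1 := by
  have s0 := bd_size hH u 0
  have s1 := bd_size hH u 1
  have s3 := s1.2.2 (by omega)
  have hA : Act 0 u := (act_zero_iff u).mpr hu
  rw [bal_bseg V s0.1 s0.2.1 s3.1 s3.2, bd_succ_succ H u 0, if_pos hA, bd_zero_left,
    bd_zero_left, hH.odd u hu]

end side

/-! ### The contents of the cells -/

section ghost

variable (M : TM) (c₀ : M.Cfg)

/-- The configuration of the machine in round `u`. -/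
def cfgA (u : ℕ) : M.Cfg := M.run ((u + 1) / 2) c₀

/-- The head positions in round `u`. -/
def HR (k : M.K) (u : ℕ) : ℤ := (cfgA M c₀ u).head k

/-- The mirrored head positions in round `u`. -/
def HL (k : M.K) (u : ℕ) : ℤ := -(cfgA M c₀ u).head k

/-- The contents of cell `i` in round `u`. -/
def GG (u i : ℕ) : CT M :=
  (if i = 0 then some (cfgA M c₀ u).state else none,
    (if i ≤ u then some (decide ((i + u) % 2 = 0)) else none,
      fun k => (bseg ((cfgA M c₀ u).tape k) (bd (HR M c₀ k) u i) (bd (HR M c₀ k) u (i + 1)),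
        bseg (mirror ((cfgA M c₀ u).tape k)) (bd (HL M c₀ k) u i)
          (bd (HL M c₀ k) u (i + 1)))))

variable {M c₀}

theorem cfgA_even {u : ℕ} (hu : u % 2 = 0) :
    cfgA M c₀ (u + 1) = (M.step (cfgA M c₀ u)).getD (cfgA M c₀ u) := by
  unfold cfgA TM.run
  have e : (u + 1 + 1) / 2 = (u + 1) / 2 + 1 := by omega
  rw [e, Function.iterate_succ_apply']

theorem cfgA_odd {u : ℕ} (hu : u % 2 = 1) : cfgA M c₀ (u + 1) = cfgA M c₀ u := by
  unfold cfgA
  have e : (u + 1 + 1) / 2 = (u + 1) / 2 := by omega
  rw [e]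

theorem step_head (c : M.Cfg) (k : M.K) :
    ((M.step c).getD c).head k - c.head k ≤ 1 ∧ -1 ≤ ((M.step c).getD c).head k - c.head k := by
  unfold TM.step
  cases M.δ c.state (fun k => c.tape k (c.head k)) with
  | none => simp
  | some r =>
    simp only [Option.map_some, Option.getD_some]
    cases (r.2 k).2 <;> simp [Move.toInt]

theorem HR_ok (h0 : ∀ k, c₀.head k = 0) (k : M.K) : HdOK (HR M c₀ k) where
  zero := h0 k
  even u hu := by
    unfold HR
    rw [cfgA_even hu]
    exact step_head _ _
  odd u hu := by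
    unfold HR
    rw [cfgA_odd hu]

theorem HL_ok (h0 : ∀ k, c₀.head k = 0) (k : M.K) : HdOK (HL M c₀ k) where
  zero := by
    show -(c₀.head k) = 0
    rw [h0]; rfl
  even u hu := by
    unfold HL
    rw [cfgA_even hu]
    have := step_head (cfgA M c₀ u) k
    omega
  odd u hu := by
    unfold HL
    rw [cfgA_odd hu]

/-- The tape does not change to the right of the buffer of cell `0`. -/
theorem tape_right (h0 : ∀ k, c₀.head k = 0) (k : M.K) (u : ℕ) (z : ℤ)
    (hz : bd (HR M c₀ k) (u + 1) 1 ≤ z) :
    (cfgA M c₀ (u + 1)).tape k z = (cfgA M c₀ u).tape k z := by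
  rcases Nat.mod_two_eq_zero_or_one u with hu | hu
  · have hA : ¬ Act 0 u := by rw [act_zero_iff]; omega
    rw [bd_succ_succ, if_neg hA, add_zero] at hz
    have s0 := (bd_size (HR_ok h0 k) u 0).2.2 (by omega)
    rw [bd_zero_left] at s0
    have hz2 : z ≠ (cfgA M c₀ u).head k := by
      have : HR M c₀ k u = (cfgA M c₀ u).head k := rfl
      simp only [Nat.zero_add] at hz s0
      omega
    rw [cfgA_even hu]
    unfold TM.step
    cases M.δ (cfgA M c₀ u).state (fun k => (cfgA M c₀ u).tape k ((cfgA M c₀ u).head k)) with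
    | none => rfl
    | some r =>
      simp only [Option.map_some, Option.getD_some]
      rw [Function.update_of_ne hz2]
  · rw [cfgA_odd hu]

/-- The tape does not change to the left of the buffer of cell `0`. -/
theorem tape_left (h0 : ∀ k, c₀.head k = 0) (k : M.K) (u : ℕ) (z : ℤ)
    (hz : bd (HL M c₀ k) (u + 1) 1 ≤ z) :
    mirror ((cfgA M c₀ (u + 1)).tape k) z = mirror ((cfgA M c₀ u).tape k) z := by
  rcases Nat.mod_two_eq_zero_or_one u with hu | hu
  · have hA : ¬ Act 0 u := by rw [act_zero_iff]; omega
    rw [bd_succ_succ, if_neg hA, add_zero] at hz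
    have s0 := (bd_size (HL_ok h0 k) u 0).2.2 (by omega)
    rw [bd_zero_left] at s0
    have hz2 : -1 - z ≠ (cfgA M c₀ u).head k := by
      have : HL M c₀ k u = -(cfgA M c₀ u).head k := rfl
      simp only [Nat.zero_add] at hz s0
      omega
    unfold mirror
    rw [cfgA_even hu]
    unfold TM.step
    cases M.δ (cfgA M c₀ u).state (fun k => (cfgA M c₀ u).tape k ((cfgA M c₀ u).head k)) with
    | none => rfl
    | some r =>
      simp only [Option.map_some, Option.getD_some]
      rw [Function.update_of_ne hz2]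
  · rw [cfgA_odd hu]

/-- The contents of the cells `i ≥ 1`. -/
theorem GG_succ (h0 : ∀ k, c₀.head k = 0) (u i : ℕ) :
    GG M c₀ (u + 1) (i + 1) = Phi M (GG M c₀ u i) (GG M c₀ u (i + 1)) (GG M c₀ u (i + 2)) := by
  have hst : ∀ j, (if j ≤ u then some (decide ((j + u) % 2 = 0)) else none) = some false ↔
      Act j u := by
    intro j
    unfold Act
    split_ifs with h
    · simp only [Option.some.injEq, decide_eq_false_iff_not]
      omega
    · simp only [reduceCtorEq, false_iff]
      omega
  have e1 : (if i + 1 ≤ u + 1 then some (decide ((i + 1 + (u + 1)) % 2 = 0)) else none) =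
      (if i ≤ u then some (decide ((i + u) % 2 = 0)) else none) := by
    have e : (i + 1 + (u + 1)) % 2 = (i + u) % 2 := by omega
    rw [e]
    by_cases h : i ≤ u
    · rw [if_pos h, if_pos (by omega)]
    · rw [if_neg h, if_neg (by omega)]
  have hL : GG M c₀ (u + 1) (i + 1) = (none,
      ((if i ≤ u then some (decide ((i + u) % 2 = 0)) else none),
      fun k => (bseg ((cfgA M c₀ (u + 1)).tape k) (bd (HR M c₀ k) (u + 1) (i + 1))
        (bd (HR M c₀ k) (u + 1) (i + 1 + 1)),
        bseg (mirror ((cfgA M c₀ (u + 1)).tape k)) (bd (HL M c₀ k) (u + 1) (i + 1))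
          (bd (HL M c₀ k) (u + 1) (i + 1 + 1))))) := by
    unfold GG
    rw [if_neg (by omega), e1]
  have hR : Phi M (GG M c₀ u i) (GG M c₀ u (i + 1)) (GG M c₀ u (i + 2)) = (none,
      ((if i ≤ u then some (decide ((i + u) % 2 = 0)) else none),
      if Act (i + 1) u then fun k =>
        ((bal ((GG M c₀ u (i + 1)).2.2 k).1 ((GG M c₀ u (i + 2)).2.2 k).1).1,
          (bal ((GG M c₀ u (i + 1)).2.2 k).2 ((GG M c₀ u (i + 2)).2.2 k).2).1)
      else if Act i u then fun k =>
        ((bal ((GG M c₀ u i).2.2 k).1 ((GG M c₀ u (i + 1)).2.2 k).1).2,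
          (bal ((GG M c₀ u i).2.2 k).2 ((GG M c₀ u (i + 1)).2.2 k).2).2)
      else (GG M c₀ u (i + 1)).2.2)) := by
    unfold Phi
    have e2 : (GG M c₀ u (i + 1)).1 = none := by
      unfold GG
      rw [if_neg (by omega)]
    rw [e2]
    simp only
    congr 2
    have e3 : ((GG M c₀ u (i + 1)).2.1 = some false) ↔ Act (i + 1) u := hst (i + 1)
    have e4 : ((GG M c₀ u i).2.1 = some false) ↔ Act i u := hst i
    simp only [e3, e4]
  rw [hL, hR]
  congr 2
  by_cases hA : Act (i + 1) u
  · rw [if_pos hA]
    funext k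
    have r1 := side_succ (HR_ok h0 k) u i ((cfgA M c₀ u).tape k) ((cfgA M c₀ (u + 1)).tape k)
      (fun z hz => tape_right h0 k u z hz)
    have r2 := side_succ (HL_ok h0 k) u i (mirror ((cfgA M c₀ u).tape k))
      (mirror ((cfgA M c₀ (u + 1)).tape k)) (fun z hz => tape_left h0 k u z hz)
    rw [if_pos hA] at r1 r2
    rw [r1, r2]
    rfl
  · rw [if_neg hA]
    by_cases hB : Act i u
    · rw [if_pos hB]
      funext k
      have r1 := side_succ (HR_ok h0 k) u i ((cfgA M c₀ u).tape k) ((cfgA M c₀ (u + 1)).tape k)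
        (fun z hz => tape_right h0 k u z hz)
      have r2 := side_succ (HL_ok h0 k) u i (mirror ((cfgA M c₀ u).tape k))
        (mirror ((cfgA M c₀ (u + 1)).tape k)) (fun z hz => tape_left h0 k u z hz)
      rw [if_neg hA, if_pos hB] at r1 r2
      rw [r1, r2]
      rfl
    · rw [if_neg hB]
      funext k
      have r1 := side_succ (HR_ok h0 k) u i ((cfgA M c₀ u).tape k) ((cfgA M c₀ (u + 1)).tape k)
        (fun z hz => tape_right h0 k u z hz)
      have r2 := side_succ (HL_ok h0 k) u i (mirror ((cfgA M c₀ u).tape k))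
        (mirror ((cfgA M c₀ (u + 1)).tape k)) (fun z hz => tape_left h0 k u z hz)
      rw [if_neg hA, if_neg hB] at r1 r2
      rw [r1, r2]
      rfl

/-- The contents of cell `0`. -/
theorem GG_zero (h0 : ∀ k, c₀.head k = 0) (u : ℕ) (w : CT M) :
    GG M c₀ (u + 1) 0 = Phi M w (GG M c₀ u 0) (GG M c₀ u 1) := by
  rcases Nat.mod_two_eq_zero_or_one u with hu | hu
  · -- a step of the machine
    obtain ⟨c, hc⟩ : ∃ c, c = cfgA M c₀ u := ⟨_, rfl⟩
    have hA : ¬ Act 0 u := by rw [act_zero_iff]; omega
    have e1 : ∀ H : ℕ → ℤ, bd H (u + 1) 1 = bd H u 1 := by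
      intro H
      rw [bd_succ_succ H u 0, if_neg hA, add_zero]
    have hG : GG M c₀ u 0 = (some c.state, (some true, fun k =>
        (bseg (c.tape k) (c.head k) (bd (HR M c₀ k) u 1),
          bseg (mirror (c.tape k)) (-(c.head k)) (bd (HL M c₀ k) u 1)))) := by
      unfold GG
      rw [if_pos rfl, if_pos (Nat.zero_le _), ← hc]
      have e2 : decide ((0 + u) % 2 = 0) = true := decide_eq_true (by omega)
      rw [e2]
      congr 2
      funext k
      rw [bd_zero_left, bd_zero_left]
      unfold HR HL
      rw [← hc]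
    have s0 : ∀ k, c.head k + 1 ≤ bd (HR M c₀ k) u 1 := by
      intro k
      have s := (bd_size (HR_ok h0 k) u 0).2.2 (by omega)
      rw [bd_zero_left] at s
      have e3 : HR M c₀ k u = c.head k := by rw [hc]; rfl
      simp only [Nat.zero_add] at s
      omega
    have s1 : ∀ k, -(c.head k) + 1 ≤ bd (HL M c₀ k) u 1 := by
      intro k
      have s := (bd_size (HL_ok h0 k) u 0).2.2 (by omega)
      rw [bd_zero_left] at s
      have e3 : HL M c₀ k u = -(c.head k) := by rw [hc]; rfl
      simp only [Nat.zero_add] at s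
      omega
    have hread : (fun k => ((GG M c₀ u 0).2.2 k).1.headD none) =
        fun k => c.tape k (c.head k) := by
      funext k
      rw [hG]
      simp only
      rw [bseg_cons _ (show c.head k < bd (HR M c₀ k) u 1 by have := s0 k; omega),
        List.headD_cons]
    have hG' : GG M c₀ (u + 1) 0 = (some (cfgA M c₀ (u + 1)).state, (some false, fun k =>
        (bseg ((cfgA M c₀ (u + 1)).tape k) ((cfgA M c₀ (u + 1)).head k) (bd (HR M c₀ k) u 1),
          bseg (mirror ((cfgA M c₀ (u + 1)).tape k)) (-((cfgA M c₀ (u + 1)).head k))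
            (bd (HL M c₀ k) u 1)))) := by
      unfold GG
      rw [if_pos rfl, if_pos (Nat.zero_le _)]
      have e2 : decide ((0 + (u + 1)) % 2 = 0) = false := decide_eq_false (by omega)
      rw [e2]
      congr 2
      funext k
      rw [bd_zero_left, bd_zero_left, e1, e1]
      rfl
    rw [hG']
    have hδ : cfgA M c₀ (u + 1) = (M.step c).getD c := by rw [hc]; exact cfgA_even hu
    unfold Phi
    rw [hread, hG]
    simp only [if_true]
    rw [hδ]
    unfold TM.step
    cases M.δ c.state (fun k => c.tape k (c.head k)) with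
    | none => rfl
    | some r =>
      simp only [Option.map_some, Option.getD_some]
      congr 2
      funext k
      rw [opT_bseg _ _ _ _ _ _ (s0 k) (s1 k)]
  · -- balancing
    have e1 : (GG M c₀ u 0).1 = some (cfgA M c₀ u).state := by
      unfold GG
      rw [if_pos rfl]
    have e2 : (GG M c₀ u 0).2.1 = some false := by
      unfold GG
      simp only
      rw [if_pos (Nat.zero_le _)]
      have : decide ((0 + u) % 2 = 0) = false := decide_eq_false (by omega)
      rw [this]
    unfold Phi
    rw [e1, e2]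
    simp only [Option.some.injEq, Bool.false_eq_true, if_false]
    unfold GG
    rw [if_pos rfl, if_pos (Nat.zero_le _), cfgA_odd hu]
    have e3 : decide ((0 + (u + 1)) % 2 = 0) = true := decide_eq_true (by omega)
    rw [e3]
    congr 2
    funext k
    have r1 := side_zero (HR_ok h0 k) u hu ((cfgA M c₀ u).tape k)
    have r2 := side_zero (HL_ok h0 k) u hu (mirror ((cfgA M c₀ u).tape k))
    rw [Nat.zero_add, r1, r2]

end ghost

end Pool.Agent.H7CA
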