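import Pool.Agent.H7CA.TurB
import Pool.Agent.H7CA.TableD

/-!
# The systolic simulation on words
-/

namespace Pool.Agent.H7CA

open Pool.Agent.PPS Pool.Agent.H7LS

/-- An injective code of a finite type by words of length `m`. -/
theorem exists_code (α : Type) [Finite α] (m : ℕ) (h : Nat.card α ≤ 2 ^ m) :
    ∃ e : α → List Bool, Function.Injective e ∧ ∀ a, (e a).length = m := by
  have g : α ≃ Fin (Nat.card α) := Finite.equivFin α
  refine ⟨fun a => wordN m (g a), fun a b hab => ?_, fun a => length_wordN _ _⟩
  apply g.injective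
  apply Fin.ext
  exact wordN_inj ((g a).2.trans_le h) ((g b).2.trans_le h) hab

/-- The first three entries of a list. -/
def three {σ : Type} (l : List σ) : Fin 3 → Option σ := fun i => l[(i : ℕ)]?

theorem three_inj {σ : Type} {l m : List σ} (hl : l.length ≤ 3) (hm : m.length ≤ 3)
    (h : three l = three m) : l = m := by
  refine List.ext_getElem? (fun i => ?_)
  by_cases hi : i < 3
  · exact congrFun h ⟨i, hi⟩
  · rw [List.getElem?_eq_none (by omega), List.getElem?_eq_none (by omega)]

/-- The contents of a cell without the state of the machine. -/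
abbrev BT (M : TM) := Option Bool × (M.K → List (Option M.Γ) × List (Option M.Γ))

/-- A finite type that contains all contents with short buffers. -/
abbrev FT (M : TM) :=
  Option Bool × (M.K → (Fin 3 → Option (Option M.Γ)) × (Fin 3 → Option (Option M.Γ)))

theorem card_FT (M : TM) {κ γ : ℕ} (h1 : Nat.card M.K ≤ κ) (h2 : Nat.card M.Γ ≤ γ) :
    Nat.card (FT M) ≤ 3 * ((γ + 2) ^ 6) ^ κ := by
  have h3 : Nat.card (Fin 3 → Option (Option M.Γ)) = (Nat.card M.Γ + 2) ^ 3 := by
    rw [Nat.card_fun, Finite.card_option, Finite.card_option, Nat.card_fin]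
  have h4 : Nat.card (Option Bool) = 3 := by
    rw [Finite.card_option]
    simp
  unfold FT
  rw [Nat.card_prod, Nat.card_fun, Nat.card_prod, h3, h4, ← pow_add]
  refine Nat.mul_le_mul_left 3 ?_
  calc ((Nat.card M.Γ + 2) ^ (3 + 3)) ^ Nat.card M.K ≤ ((γ + 2) ^ 6) ^ Nat.card M.K :=
        Nat.pow_le_pow_left (Nat.pow_le_pow_left (by omega) 6) _
    _ ≤ _ := Nat.pow_le_pow_right (by positivity) h1

/-- The buffers are short. -/
def Small {M : TM} (c : BT M) : Prop := ∀ k, (c.2 k).1.length ≤ 3 ∧ (c.2 k).2.length ≤ 3

/-- The finite form of the contents. -/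
def pack {M : TM} (c : BT M) : FT M := (c.1, fun k => (three (c.2 k).1, three (c.2 k).2))

theorem pack_inj {M : TM} {c c' : BT M} (h : Small c) (h' : Small c') (e : pack c = pack c') :
    c = c' := by
  unfold pack at e
  rw [Prod.mk.injEq] at e
  obtain ⟨e1, e2⟩ := e
  refine Prod.ext e1 (funext fun k => ?_)
  have e3 := congrFun e2 k
  rw [Prod.mk.injEq] at e3
  exact Prod.ext (three_inj (h k).1 (h' k).1 e3.1) (three_inj (h k).2 (h' k).2 e3.2)

theorem small_GG {M : TM} {c₀ : M.Cfg} (h0 : ∀ k, c₀.head k = 0) (u i : ℕ) :
    Small (GG M c₀ u i).2 := by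
  intro k
  have r1 := (bd_size (HR_ok h0 k) u i).2.1
  have r2 := (bd_size (HL_ok h0 k) u i).2.1
  unfold GG
  simp only [length_bseg]
  omega

/-- Codes for the contents of the cells. -/
structure Coding (M : TM) (A l : ℕ) where
  /-- the code of the buffers -/
  eF : FT M → List Bool
  eF_inj : Function.Injective eF
  eF_len : ∀ p, (eF p).length = A
  /-- the code of the state -/
  eC : Option M.Q → List Bool
  eC_inj : Function.Injective eC
  eC_len : ∀ p, (eC p).length = l

theorem exists_coding (M : TM) {A l : ℕ} (h1 : Nat.card (FT M) ≤ 2 ^ A)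
    (h2 : Nat.card (Option M.Q) ≤ 2 ^ l) : Nonempty (Coding M A l) := by
  obtain ⟨e1, i1, l1⟩ := exists_code (FT M) A h1
  obtain ⟨e2, i2, l2⟩ := exists_code (Option M.Q) l h2
  exact ⟨⟨e1, i1, l1, e2, i2, l2⟩⟩

namespace Coding

variable {M : TM} {A l : ℕ} (E : Coding M A l)

open Classical in
/-- Decode the buffers. -/
noncomputable def decF (w : List Bool) : BT M :=
  if h : ∃ c : BT M, Small c ∧ E.eF (pack c) = w then h.choose else (none, fun _ => ([], []))

theorem decF_eF {c : BT M} (h : Small c) : E.decF (E.eF (pack c)) = c := by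
  have h1 : ∃ c' : BT M, Small c' ∧ E.eF (pack c') = E.eF (pack c) := ⟨c, h, rfl⟩
  unfold decF
  rw [dif_pos h1]
  exact pack_inj h1.choose_spec.1 h (E.eF_inj h1.choose_spec.2)

open Classical in
/-- Decode the state. -/
noncomputable def decC (w : List Bool) : Option M.Q :=
  if h : ∃ c : Option M.Q, E.eC c = w then h.choose else none

theorem decC_eC (c : Option M.Q) : E.decC (E.eC c) = c := by
  have h1 : ∃ c', E.eC c' = E.eC c := ⟨c, rfl⟩
  unfold decC
  rw [dif_pos h1]
  exact E.eC_inj h1.choose_spec

/-- The word in a cell. -/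
def code (c : CT M) : List Bool :=
  [(c.1.map M.accept).getD false, false, false, true] ++ (E.eF (pack c.2) ++ E.eC c.1)

theorem length_code (c : CT M) : (E.code c).length = 4 + A + l := by
  unfold code
  rw [List.length_append, List.length_append, E.eF_len, E.eC_len]
  simp only [List.length_cons, List.length_nil]
  ring

theorem code_getD_three (c : CT M) : (E.code c).getD 3 false = true := rfl

theorem code_getD_zero (c : CT M) : (E.code c).getD 0 false = (c.1.map M.accept).getD false :=
  rfl

theorem drop_code (c : CT M) : (E.code c).drop (4 + A) = E.eC c.1 := by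
  unfold code
  rw [← List.append_assoc]
  refine List.drop_left' ?_
  rw [List.length_append, E.eF_len]
  rfl

theorem take_code (c : CT M) : ((E.code c).drop 4).take A = E.eF (pack c.2) := by
  show (E.eF (pack c.2) ++ E.eC c.1).take A = _
  exact List.take_left' (E.eF_len _)

theorem take_code' (c : CT M) : ((E.code c).take (4 + A)).drop 4 = E.eF (pack c.2) := by
  rw [List.drop_take, Nat.add_sub_cancel_left]
  exact E.take_code c

/-- The contents of the cells after the first step. -/
def rawC (M : TM) (adv : M.K) (u v : List Bool) : CT M :=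
  (if v.getD 0 false = true ∧ u.getD 0 false = false then some M.start else none,
    (if v.getD 0 false = true ∧ u.getD 0 false = false then some true else none,
      fun k => ([if k = M.io then (if v.getD 0 false = true then some (M.bit (v.getD 1 false))
        else none) else if k = adv then some (M.bit (v.getD 2 false)) else none], [none])))

/-- The local rule on words. -/
noncomputable def psi (adv : M.K) (u v w : List Bool) : List Bool :=
  if v.getD 3 false = true then
    E.code (Phi M (none, E.decF (u.drop 4))
      (E.decC (v.drop (4 + A)), E.decF ((v.drop 4).take A)) (none, E.decF (w.drop 4)))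
  else E.code (rawC M adv u v)

theorem length_psi (adv : M.K) (u v w : List Bool) : (E.psi adv u v w).length = 4 + A + l := by
  unfold psi
  split_ifs <;> exact E.length_code _

theorem psi_code (adv : M.K) {u : List Bool} {c c' d : CT M} (hc : Small c.2)
    (hc' : Small c'.2) (hd : E.decF ((u.take (4 + A)).drop 4) = d.2) :
    E.psi adv (u.take (4 + A)) (E.code c) ((E.code c').take (4 + A)) =
      E.code (Phi M d c c') := by
  unfold psi
  rw [if_pos (E.code_getD_three c), E.drop_code, E.take_code, E.take_code', E.decC_eC,
    E.decF_eF hc, E.decF_eF hc', hd]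
  rfl

end Coding

/-! ### The simulation -/

theorem fit_four (s : ℕ) (p q r : Bool) : fit (4 + s) [p, q, r] =
    [p, q, r, false] ++ List.replicate s false := by
  unfold fit
  have e : 4 + s = s + 1 + 1 + 1 + 1 := by ring
  have e2 : ([p, q, r] ++ List.replicate (4 + s) false : List Bool) =
      ([p, q, r, false] ++ List.replicate s false) ++ List.replicate 3 false := by
    rw [e]
    simp only [List.cons_append, List.nil_append, List.replicate_succ, List.append_assoc,
      List.cons.injEq, true_and]
    rw [← List.replicate_succ, ← List.replicate_succ, ← List.replicate_succ]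
    rw [show s + 1 + 1 + 1 = s + 3 by ring, List.replicate_add]
    rfl
  rw [e2]
  refine List.take_left' ?_
  simp
  omega

theorem run_zero (M : TM) (c : M.Cfg) : M.run 0 c = c := rfl

theorem GG_initA (M : TM) (adv : M.K) {n : ℕ} (hn : 1 ≤ n)
    (x a : List Bool) (hx : x.length = n) (i : ℕ) (u v : List Bool)
    (hv : v = [decide (i < n), x.getD i false, a.getD i false, false] ++ v.drop 4)
    (hu : u.getD 0 false = decide (1 ≤ i ∧ i - 1 < n)) :
    Coding.rawC M adv u v = GG M (initA M adv x a) 0 i := by
  have g0 : v.getD 0 false = decide (i < n) := by rw [hv]; rfl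
  have g1 : v.getD 1 false = x.getD i false := by rw [hv]; rfl
  have g2 : v.getD 2 false = a.getD i false := by rw [hv]; rfl
  unfold Coding.rawC GG
  rw [g0, g1, g2, hu]
  have e0 : cfgA M (initA M adv x a) 0 = initA M adv x a := rfl
  rw [e0]
  have e1 : (decide (i < n) = true ∧ decide (1 ≤ i ∧ i - 1 < n) = false) ↔ i = 0 := by
    rw [decide_eq_true_iff, decide_eq_false_iff_not]
    omega
  simp only [e1, Nat.le_zero]
  refine Prod.ext rfl (Prod.ext ?_ (funext fun k => ?_))
  · simp only
    by_cases h : i = 0
    · rw [if_pos h, if_pos h, h]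
      rfl
    · rw [if_neg h, if_neg h]
  · have hH : ∀ H : ℕ → ℤ, H 0 = 0 → bd H 0 i = i := by
      intro H h
      cases i with
      | zero => rw [bd_zero_left, h]; rfl
      | succ i => rw [bd_zero_succ]; push_cast; ring
    have b1 : ∀ V : ℤ → Option M.Γ, bseg V (i : ℤ) ((i : ℤ) + 1) = [V i] := by
      intro V
      rw [bseg_cons V (by omega), bseg_nil V le_rfl]
    simp only
    rw [hH (HR M (initA M adv x a) k) rfl, hH (HL M (initA M adv x a) k) rfl, bd_zero_succ,
      bd_zero_succ, b1, b1]
    have e2 : mirror ((initA M adv x a).tape k) (i : ℤ) = none := by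
      unfold mirror initA
      simp only
      have e3 : ¬ (0 : ℤ) ≤ -1 - (i : ℤ) := by omega
      by_cases hk : k = M.io
      · rw [if_pos hk]
        unfold TM.word
        rw [if_neg e3]
      · rw [if_neg hk]
        by_cases hk2 : k = adv
        · rw [if_pos hk2, if_neg e3]
        · rw [if_neg hk2]
    rw [e2]
    congr 2
    unfold initA
    simp only
    by_cases hk : k = M.io
    · rw [if_pos hk, if_pos hk]
      unfold TM.word
      rw [if_pos (Int.natCast_nonneg i), Int.toNat_natCast]
      by_cases hi : i < n
      · have hi' : i < x.length := by omega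
        simp [hi, hi', List.getD_eq_getElem?_getD]
      · have hi' : ¬ i < x.length := by omega
        simp [hi, List.getElem?_eq_none (Nat.le_of_not_lt hi')]
    · rw [if_neg hk, if_neg hk]
      by_cases hk2 : k = adv
      · rw [if_pos hk2, if_pos hk2, if_pos (Int.natCast_nonneg i), Int.toNat_natCast]
      · rw [if_neg hk2, if_neg hk2]

variable {M : TM} {A l : ℕ}

/-- The local rule of the array. -/
noncomputable def simR (E : Coding M A l) (adv : M.K) (u v w : List Bool) : List Bool :=
  E.psi adv (u.take (4 + A)) v (w.take (4 + A))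

theorem simR_def (E : Coding M A l) (adv : M.K) (u v w : List Bool) :
    simR E adv u v w = E.psi adv (u.take (4 + A)) v (w.take (4 + A)) := rfl

theorem psi_raw (E : Coding M A l) (adv : M.K) {u v w : List Bool} (h : v.getD 3 false = false) :
    E.psi adv u v w = E.code (Coding.rawC M adv u v) := by
  unfold Coding.psi
  rw [if_neg (by rw [h]; exact Bool.false_ne_true)]

theorem cell_sim (E : Coding M A l) (adv : M.K) {n : ℕ} (hn : 1 ≤ n)
    (x a : List Bool) (hx : x.length = n) (u : ℕ) : ∀ i : ℕ,
    cell (simR E adv) n (4 + A + l) x a (u + 1) i = E.code (GG M (initA M adv x a) u i) := by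
  have h0 : ∀ k, (initA M adv x a).head k = 0 := fun _ => rfl
  induction u with
  | zero =>
    intro i
    have e0 : cell (simR E adv) n (4 + A + l) x a 0 (i : ℤ) =
        [decide (i < n), x.getD i false, a.getD i false, false] ++
          List.replicate (A + l) false := by
      rw [cell, if_pos (Int.natCast_nonneg i), Int.toNat_natCast, add_assoc, fit_four]
      simp
    have e1 : (cell (simR E adv) n (4 + A + l) x a 0 ((i : ℤ) - 1)).getD 0 false =
        decide (1 ≤ i ∧ i - 1 < n) := by
      rcases Nat.eq_zero_or_pos i with h | h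
      · subst h
        rw [cell, if_neg (by omega)]
        have : fit (4 + A + l) [] = List.replicate (4 + A + l) false := by
          simp [fit]
        rw [this]
        simp
      · have e2 : (i : ℤ) - 1 = ((i - 1 : ℕ) : ℤ) := by omega
        rw [e2, cell, if_pos (Int.natCast_nonneg _), Int.toNat_natCast, add_assoc, fit_four]
        simp only [List.cons_append, List.getD_cons_zero]
        have : 1 ≤ i := h
        simp [this]
        omega
    rw [cell]
    have e3 : (cell (simR E adv) n (4 + A + l) x a 0 (i : ℤ)).getD 3 false = false := by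
      rw [e0]; rfl
    have e4 : ((cell (simR E adv) n (4 + A + l) x a 0 ((i : ℤ) - 1)).take (4 + A)).getD 0
        false = decide (1 ≤ i ∧ i - 1 < n) := by
      rw [← e1]
      generalize cell (simR E adv) n (4 + A + l) x a 0 ((i : ℤ) - 1) = y
      have e5 : 4 + A = (3 + A) + 1 := by ring
      rw [e5]
      cases y <;> rfl
    have e6 : simR E adv (cell (simR E adv) n (4 + A + l) x a 0 ((i : ℤ) - 1))
        (cell (simR E adv) n (4 + A + l) x a 0 (i : ℤ))
        (cell (simR E adv) n (4 + A + l) x a 0 ((i : ℤ) + 1)) =
        E.code (GG M (initA M adv x a) 0 i) := by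
      rw [simR_def, psi_raw E adv e3]
      rw [GG_initA M adv hn x a hx i _ _ ?_ e4]
      rw [e0]
      rfl
    rw [e6, fit_of_length (E.length_code _)]
  | succ u ih =>
    intro i
    have e1 : (i : ℤ) + 1 = ((i + 1 : ℕ) : ℤ) := by push_cast; rfl
    rw [cell, ih i, e1, ih (i + 1), simR_def]
    cases i with
    | zero =>
      rw [E.psi_code adv (d := (none, E.decF
        (((cell (simR E adv) n (4 + A + l) x a (u + 1) (((0 : ℕ) : ℤ) - 1)).take
          (4 + A)).drop 4)))
        (small_GG h0 u 0) (small_GG h0 u (0 + 1)) rfl,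
        fit_of_length (E.length_code _)]
      rw [GG_zero h0 u]
    | succ i =>
      have e2 : ((i + 1 : ℕ) : ℤ) - 1 = (i : ℤ) := by push_cast; ring
      rw [e2]
      have e3 : E.decF (((cell (simR E adv) n (4 + A + l) x a (u + 1) (i : ℤ)).take
          (4 + A)).drop 4) = (GG M (initA M adv x a) u i).2 := by
        rw [ih i, E.take_code', E.decF_eF (small_GG h0 u i)]
      have e4 := E.psi_code adv (u := cell (simR E adv) n (4 + A + l) x a (u + 1) (i : ℤ))
        (c := GG M (initA M adv x a) u (i + 1)) (c' := GG M (initA M adv x a) u (i + 1 + 1))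
        (d := GG M (initA M adv x a) u i)
        (small_GG h0 u (i + 1)) (small_GG h0 u (i + 1 + 1)) e3
      rw [e4, fit_of_length (E.length_code _), GG_succ h0 u i]

theorem cell_ans (E : Coding M A l) (adv : M.K) {n : ℕ} (hn : 1 ≤ n)
    (x a : List Bool) (hx : x.length = n) (T : ℕ) :
    (cell (simR E adv) n (4 + A + l) x a (2 * T + 1) 0).getD 0 false = ansA M adv x a T := by
  have h := cell_sim E adv hn x a hx (2 * T) 0
  rw [Nat.cast_zero] at h
  rw [h, E.code_getD_zero]
  unfold GG cfgA ansA
  rw [if_pos rfl]
  have e : (2 * T + 1) / 2 = T := by omega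
  rw [e]
  rfl

end Pool.Agent.H7CA
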