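import Pool.Agent.H7CA.TurC

/-!
# The lower bound for Turing machines with advice
-/

namespace Pool.Agent.H7CA

open Pool.Agent.PPS Pool.Agent.H7LS Filter Asymptotics

/-- The function that looks up a table, with trimmed arguments. -/
def tabS (z : List Bool) : List Bool :=
  entry (tlB (tlB (hdB z))) (hdB (tlB (hdB z))).length
    (valCap (tlB (tlB (hdB z))).length
      ((tlB z).take (hdB (hdB z)).length ++
        (((tlB z).drop (hdB (tlB (hdB z))).length).take (hdB (tlB (hdB z))).length ++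
          ((tlB z).drop ((hdB (tlB (hdB z))).length + (hdB (tlB (hdB z))).length)).take
            (hdB (hdB z)).length)))

theorem tabS_mem : tabS ∈ FLIN := by
  refine mem_FLIN_of_LT ?_
  unfold tabS
  fun_prop

/-- The table of a function of three words of lengths `B`, `s`, `B`. -/
def tableS (ψ : List Bool → List Bool → List Bool → List Bool) (B s : ℕ) : List Bool :=
  blk (List.replicate B true) ++ (blk (List.replicate s true) ++
    (List.range (2 ^ (B + (s + B)))).flatMap (fun j =>
      fit s (ψ ((wordN (B + (s + B)) j).take B) (((wordN (B + (s + B)) j).drop B).take s)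
        ((wordN (B + (s + B)) j).drop (B + s)))))

theorem length_tableS (ψ : List Bool → List Bool → List Bool → List Bool) (B s : ℕ) :
    (tableS ψ B s).length = (2 * B + 1) + ((2 * s + 1) + 2 ^ (B + (s + B)) * s) := by
  unfold tableS
  rw [List.length_append, List.length_append, length_blk, length_blk, List.length_flatMap]
  simp [length_fit]

theorem fit_tabS (ψ : List Bool → List Bool → List Bool → List Bool) {B s : ℕ}
    {u v w : List Bool} (hB : B ≤ s) (hs : 1 ≤ s) (hu : u.length = s) (hv : v.length = s)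
    (hw : w.length = s) :
    fit s (ruleD tabS (tableS ψ B s) [u, v, w]) = fit s (ψ (u.take B) v (w.take B)) := by
  obtain ⟨u', hu'⟩ : ∃ u', u' = u.take B := ⟨_, rfl⟩
  obtain ⟨w', hw'⟩ : ∃ w', w' = w.take B := ⟨_, rfl⟩
  have lu : u'.length = B := by rw [hu', List.length_take, hu]; omega
  have lw : w'.length = B := by rw [hw', List.length_take, hw]; omega
  obtain ⟨tb, htb⟩ : ∃ tb, tb = (List.range (2 ^ (B + (s + B)))).flatMap (fun j =>
      fit s (ψ ((wordN (B + (s + B)) j).take B) (((wordN (B + (s + B)) j).drop B).take s)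
        ((wordN (B + (s + B)) j).drop (B + s)))) := ⟨_, rfl⟩
  have htl : tb.length = 2 ^ (B + (s + B)) * s := by
    rw [htb, List.length_flatMap]
    simp [length_fit]
  have hfl : [u, v, w].flatten = u ++ (v ++ w) := by simp
  have e1 : ruleD tabS (tableS ψ B s) [u, v, w] =
      entry tb s (valCap tb.length (u' ++ (v ++ w'))) := by
    unfold ruleD tabS
    rw [hdB_blk, tlB_blk]
    unfold tableS
    rw [hdB_blk, tlB_blk, hdB_blk, tlB_blk, ← htb, hfl, List.length_replicate,
      List.length_replicate]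
    have t1 : (u ++ (v ++ w)).take B = u' := by
      rw [List.take_append_of_le_length (by omega), hu']
    have t2 : ((u ++ (v ++ w)).drop s).take s = v := by
      rw [List.drop_left' hu]
      exact List.take_left' hv
    have t3 : ((u ++ (v ++ w)).drop (s + s)).take B = w' := by
      rw [← List.append_assoc, List.drop_left' (by rw [List.length_append, hu, hv]), hw']
    rw [t1, t2, t3]
  rw [e1, ← hu', ← hw']
  obtain ⟨y, hy⟩ : ∃ y, y = u' ++ (v ++ w') := ⟨_, rfl⟩
  have hlen : y.length = B + (s + B) := by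
    rw [hy, List.length_append, List.length_append, lu, hv, lw]
  have h1 : valW y < 2 ^ (B + (s + B)) := by
    have h := valW_lt y
    rwa [hlen] at h
  have h3 : valCap tb.length y = valW y := by
    unfold valCap
    rw [htl, Nat.min_eq_right]
    exact h1.le.trans (Nat.le_mul_of_pos_right _ hs)
  rw [← hy, h3]
  obtain ⟨j, hj⟩ : ∃ j, j = valW y := ⟨_, rfl⟩
  rw [← hj] at h1 ⊢
  unfold entry
  rw [htb, iter_drop_flatMap _ (fun j => length_fit _ _)]
  have h4 : (List.range (2 ^ (B + (s + B)))).drop j =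
      j :: (List.range (2 ^ (B + (s + B)))).drop (j + 1) := by
    have h4 := List.drop_eq_getElem_cons (l := List.range (2 ^ (B + (s + B)))) (i := j)
      (by simpa using h1)
    rw [h4]
    simp
  have h5 : wordN (B + (s + B)) j = y := by rw [hj, ← hlen, wordN_valW]
  rw [h4, List.flatMap_cons, List.take_left' (length_fit _ _), h5,
    fit_of_length (length_fit _ _), hy, List.take_left' lu, List.drop_left' lu,
    List.take_left' hv, ← List.append_assoc,
    List.drop_left' (by rw [List.length_append, lu, hv])]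

theorem cell_tabS (ψ : List Bool → List Bool → List Bool → List Bool) {B s : ℕ} (hB : B ≤ s)
    (hs : 1 ≤ s) (n : ℕ) (x a : List Bool) (t : ℕ) : ∀ z : ℤ,
    cell (fun u v w => ruleD tabS (tableS ψ B s) [u, v, w]) n s x a t z =
      cell (fun u v w => ψ (u.take B) v (w.take B)) n s x a t z := by
  induction t with
  | zero => intro z; rw [cell, cell]
  | succ t ih =>
    intro z
    rw [cell, cell, ih, ih, ih]
    exact fit_tabS ψ hB hs (length_cell _ _ _ _ _ _ _) (length_cell _ _ _ _ _ _ _)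
      (length_cell _ _ _ _ _ _ _)

/-- The lower bound for Turing machines with advice, on the average. -/
theorem turing_average (k : ℕ) (hk : 1 ≤ k) (K : ℕ) (c : ℝ) (hc : c < 1 / 2) :
    ∃ L ∈ SPC k, ∀ (κ γ : ℕ) (l T : ℕ → ℕ),
      (fun n : ℕ => (2 : ℝ) ^ l n * (l n + 1)) =o[atTop] (fun n : ℕ => (n : ℝ) ^ k) →
      (fun n : ℕ => (T n : ℝ) * (l n + 1) * Nat.log 2 n) =o[atTop]
        (fun n : ℕ => (n : ℝ) ^ (2 * k)) →
      ∀ᶠ n : ℕ in atTop, ∀ (M : TM) (adv : M.K) (a : List Bool),
        Nat.card M.K ≤ κ → Nat.card M.Γ ≤ γ → Nat.card M.Q ≤ 2 ^ l n → a.length ≤ K * n ^ k →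
        |({x : List Bool | x.length = n ∧ (ansA M adv x a (T n) = true ↔ x ∈ L)}.ncard : ℝ) /
          2 ^ n - 1 / 2| ≤ 2 ^ (-(c * n)) := by
  obtain ⟨L, hL, h⟩ := arraysD k hk K c hc
  refine ⟨L, hL, ?_⟩
  intro κ γ l T ho1 ho2
  obtain ⟨A, hA⟩ : ∃ A : ℕ, A = 3 * ((γ + 2) ^ 6) ^ κ := ⟨_, rfl⟩
  obtain ⟨C, hC⟩ : ∃ C : ℕ, C = 4 + A + 1 := ⟨_, rfl⟩
  have hC1 : (1 : ℝ) ≤ C := by
    have : 1 ≤ C := by omega
    exact_mod_cast this
  have hpow : (fun n : ℕ => (n : ℝ)) =O[atTop] (fun n : ℕ => (n : ℝ) ^ k) := by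
    refine IsBigO.of_bound 1 ?_
    filter_upwards [eventually_ge_atTop 1] with n hn
    rw [one_mul, Real.norm_of_nonneg (by positivity), Real.norm_of_nonneg (by positivity)]
    have := le_pow_self' n hk
    exact_mod_cast this
  have hlo : (fun n : ℕ => ((l n : ℝ) + 1)) =o[atTop] (fun n : ℕ => (n : ℝ) ^ k) := by
    refine IsBigO.trans_isLittleO (IsBigO.of_bound 1 (Eventually.of_forall fun n => ?_)) ho1
    rw [one_mul, Real.norm_of_nonneg (by positivity), Real.norm_of_nonneg (by positivity)]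
    have h1 : (1 : ℝ) ≤ 2 ^ l n := one_le_pow₀ (by norm_num)
    have h2 : (0 : ℝ) ≤ (l n : ℝ) + 1 := by positivity
    nlinarith
  have key := h 0 tabS tabS_mem
    (fun n => (2 * (4 + A) + 1) + ((2 * (4 + A + (l n + 1)) + 1) +
      2 ^ ((4 + A) + ((4 + A + (l n + 1)) + (4 + A))) * (4 + A + (l n + 1))))
    (fun n => 4 + A + (l n + 1)) (fun n => 2 * T n + 1) (by
      refine IsBigO.trans_isLittleO (IsBigO.of_bound
        (2 ^ (3 * (4 + A) + 1) * C + 6 * C) (Eventually.of_forall fun n => ?_)) ho1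
      rw [Real.norm_of_nonneg (by positivity), Real.norm_of_nonneg (by positivity)]
      push_cast
      have e1 : (2 : ℝ) ^ (4 + A + (4 + A + (l n + 1) + (4 + A))) =
          2 ^ (3 * (4 + A) + 1) * 2 ^ l n := by
        rw [← pow_add]
        congr 1
        ring
      rw [e1]
      have h1 : (1 : ℝ) ≤ 2 ^ l n := one_le_pow₀ (by norm_num)
      have h2 : (0 : ℝ) ≤ (l n : ℝ) := Nat.cast_nonneg _
      have h3 : (C : ℝ) = 4 + A + 1 := by rw [hC]; push_cast; ring
      have h4 : (4 : ℝ) + A + (l n + 1) ≤ C * (l n + 1) := by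
        rw [h3]
        have h5 : (0 : ℝ) ≤ (A : ℝ) * l n := by positivity
        nlinarith
      have h5 : (0 : ℝ) ≤ 2 ^ (3 * (4 + A) + 1) := by positivity
      have h6 : (C : ℝ) * (l n + 1) ≤ C * (2 ^ l n * (l n + 1)) := by
        have h7 : (l n : ℝ) + 1 ≤ 2 ^ l n * (l n + 1) := by nlinarith
        exact mul_le_mul_of_nonneg_left h7 (by linarith)
      have h8 : (2 : ℝ) ^ (3 * (4 + A) + 1) * 2 ^ l n * (4 + A + (l n + 1)) ≤
          2 ^ (3 * (4 + A) + 1) * C * (2 ^ l n * (l n + 1)) := by
        have h9 : (2 : ℝ) ^ l n * (4 + A + (l n + 1)) ≤ 2 ^ l n * (C * (l n + 1)) :=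
          mul_le_mul_of_nonneg_left h4 (by linarith)
        calc (2 : ℝ) ^ (3 * (4 + A) + 1) * 2 ^ l n * (4 + A + (l n + 1)) =
            2 ^ (3 * (4 + A) + 1) * (2 ^ l n * (4 + A + (l n + 1))) := by ring
          _ ≤ 2 ^ (3 * (4 + A) + 1) * (2 ^ l n * (C * (l n + 1))) :=
            mul_le_mul_of_nonneg_left h9 h5
          _ = _ := by ring
      have h10 : (2 : ℝ) * (4 + A) + 1 + (2 * (4 + A + (l n + 1)) + 1) + (4 + A + (l n + 1)) ≤
          6 * (C * (l n + 1)) := by
        have h11 : (0 : ℝ) ≤ (A : ℝ) := Nat.cast_nonneg _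
        linarith
      linarith) (by
      have hlog : (fun n : ℕ => (Nat.log 2 n : ℝ)) =O[atTop] (fun n : ℕ => (n : ℝ) ^ k) := by
        refine IsBigO.trans (IsBigO.of_bound 1 (Eventually.of_forall fun n => ?_)) hpow
        rw [one_mul, Real.norm_of_nonneg (by positivity), Real.norm_of_nonneg (by positivity)]
        exact_mod_cast Nat.log_le_self 2 n
      have h1 : (fun n : ℕ => ((l n : ℝ) + 1) * Nat.log 2 n) =o[atTop]
          (fun n : ℕ => (n : ℝ) ^ (2 * k)) := by
        have h2 := hlo.mul_isBigO hlog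
        refine h2.congr_right (fun n => ?_)
        rw [← pow_add]
        congr 1
        ring
      have h2 : (fun n : ℕ => 2 * C * ((T n : ℝ) * (l n + 1) * Nat.log 2 n) +
          C * (((l n : ℝ) + 1) * Nat.log 2 n)) =o[atTop] (fun n : ℕ => (n : ℝ) ^ (2 * k)) :=
        (ho2.const_mul_left _).add (h1.const_mul_left _)
      have e2 : k * (0 + 2) = 2 * k := by ring
      rw [e2]
      refine IsBigO.trans_isLittleO (IsBigO.of_bound 1 (Eventually.of_forall fun n => ?_)) h2
      rw [one_mul, Real.norm_of_nonneg (by positivity), Real.norm_of_nonneg (by positivity)]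
      push_cast
      have h3 : (C : ℝ) = 4 + A + 1 := by rw [hC]; push_cast; ring
      have h4 : (4 : ℝ) + A + (l n + 1) ≤ C * (l n + 1) := by
        rw [h3]
        have h5 : (0 : ℝ) ≤ (A : ℝ) * l n := by positivity
        have h2 : (0 : ℝ) ≤ (l n : ℝ) := Nat.cast_nonneg _
        nlinarith
      rw [pow_one]
      calc (2 * (T n : ℝ) + 1) * Nat.log 2 n * (4 + A + (l n + 1)) ≤
          (2 * (T n : ℝ) + 1) * Nat.log 2 n * (C * (l n + 1)) :=
            mul_le_mul_of_nonneg_left h4 (by positivity)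
        _ = _ := by ring)
  filter_upwards [key, eventually_ge_atTop 1] with n hn hn1
  intro M adv a hM1 hM2 hM3 ha
  have hcF : Nat.card (FT M) ≤ 2 ^ A := by
    refine (card_FT M hM1 hM2).trans ?_
    rw [← hA]
    exact (Nat.lt_two_pow_self).le
  have hcC : Nat.card (Option M.Q) ≤ 2 ^ (l n + 1) := by
    rw [Finite.card_option, pow_succ]
    have : 1 ≤ 2 ^ l n := Nat.one_le_two_pow
    omega
  obtain ⟨E⟩ := exists_coding M hcF hcC
  have h1 := hn (tableS (E.psi adv) (4 + A) (4 + A + (l n + 1))) a (length_tableS _ _ _).le ha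
  have h2 : ∀ x : List Bool, x.length = n →
      (arr 0 (ruleD tabS (tableS (E.psi adv) (4 + A) (4 + A + (l n + 1)))) n
        (4 + A + (l n + 1)) x a (2 * T n + 1) 0).getD 0 false = ansA M adv x a (T n) := by
    intro x hx
    rw [arr_zero_eq, cell_tabS _ (by omega) (by omega)]
    exact cell_ans E adv hn1 x a hx (T n)
  have h3 : {x : List Bool | x.length = n ∧
      ((arr 0 (ruleD tabS (tableS (E.psi adv) (4 + A) (4 + A + (l n + 1)))) n
        (4 + A + (l n + 1)) x a (2 * T n + 1) 0).getD 0 false = true ↔ x ∈ L)} =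
      {x : List Bool | x.length = n ∧ (ansA M adv x a (T n) = true ↔ x ∈ L)} := by
    ext x
    simp only [Set.mem_setOf_eq]
    refine and_congr_right (fun hx => ?_)
    rw [h2 x hx]
  rw [h3] at h1
  exact h1

end Pool.Agent.H7CA
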