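import Pool.Agent.H7CA.TurD

/-!
# The correlation bound for Turing machines is optimal
-/

namespace Pool.Agent.H7CA

open Pool.Agent.PPS Pool.Agent.H7LS

/-- A machine that computes the inner product of the input and the advice. -/
def ipTM : TM where
  K := Bool
  io := false
  Γ := Bool
  bit := id
  bit_inj := fun _ _ h => h
  Q := Bool
  start := false
  accept := id
  δ := fun q s => match s false with
    | none => none
    | some b => some (xor q (b && (s true).getD false), fun k => (s k, Move.right))

theorem ipTM_run (x a : List Bool) (t : ℕ) (ht : t ≤ x.length) :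
    ∃ r : Bool, ipTM.run t (initA ipTM true x a) =
      { state := r, head := fun _ => (t : ℤ), tape := (initA ipTM true x a).tape } ∧
      (bz r : ZMod 2) = ∑ i ∈ Finset.range t, bz (x.getD i false && a.getD i false) := by
  induction t with
  | zero => exact ⟨false, rfl, by simp [bz]⟩
  | succ t ih =>
    obtain ⟨r, h1, h2⟩ := ih (by omega)
    refine ⟨xor r (x.getD t false && a.getD t false), ?_, ?_⟩
    · have e1 : ipTM.run (t + 1) (initA ipTM true x a) =
        (ipTM.step (ipTM.run t (initA ipTM true x a))).getD
          (ipTM.run t (initA ipTM true x a)) := by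
        unfold TM.run
        rw [Function.iterate_succ_apply']
      have hx : (initA ipTM true x a).tape false (t : ℤ) = some (x.getD t false) := by
        show ipTM.word x (t : ℤ) = _
        unfold TM.word
        rw [if_pos (Int.natCast_nonneg t), Int.toNat_natCast,
          List.getElem?_eq_getElem (by omega), List.getD_eq_getElem _ _ (by omega)]
        rfl
      have ha : (initA ipTM true x a).tape true (t : ℤ) = some (a.getD t false) := by
        show (if (0 : ℤ) ≤ (t : ℤ) then some (a.getD (t : ℤ).toNat false) else none) = _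
        rw [if_pos (Int.natCast_nonneg t), Int.toNat_natCast]
      rw [e1, h1]
      unfold TM.step
      have e2 : ipTM.δ r (fun k => (initA ipTM true x a).tape k (t : ℤ)) =
          some (xor r (x.getD t false && a.getD t false),
            fun k => ((initA ipTM true x a).tape k (t : ℤ), Move.right)) := by
        show (match (initA ipTM true x a).tape false (t : ℤ) with
          | none => none
          | some b => some (xor r (b && ((initA ipTM true x a).tape true (t : ℤ)).getD false),
              fun k => ((initA ipTM true x a).tape k (t : ℤ), Move.right))) = _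
        rw [hx, ha]
        rfl
      rw [e2]
      have e3 : (fun k : ipTM.K => Function.update ((initA ipTM true x a).tape k) (t : ℤ)
          ((initA ipTM true x a).tape k (t : ℤ))) = (initA ipTM true x a).tape :=
        funext fun k => Function.update_eq_self _ _
      have e4 : (fun _ : ipTM.K => (t : ℤ) + Move.right.toInt) =
          fun _ : ipTM.K => ((t + 1 : ℕ) : ℤ) := by
        funext k
        simp [Move.toInt]
      show TM.Cfg.mk (M := ipTM) (xor r (x.getD t false && a.getD t false))
        (fun _ => (t : ℤ) + Move.right.toInt)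
        (fun k => Function.update ((initA ipTM true x a).tape k) (t : ℤ)
          ((initA ipTM true x a).tape k (t : ℤ))) = _
      rw [e3, e4]
    · rw [Finset.sum_range_succ, ← h2, bz_xor]

theorem ipTM_ans (x a : List Bool) (hxa : a.length = x.length) :
    ansA ipTM true x a x.length = ip a x := by
  obtain ⟨r, h1, h2⟩ := ipTM_run x a x.length le_rfl
  unfold ansA
  rw [h1]
  show r = _
  refine bz_inj ?_
  rw [h2, bz_ip a x x.length (by omega) (by omega)]

open Classical in
/-- With `n` bits of advice, one fixed machine with two tapes and two states achieves a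
correlation `2 ^ (- n / 2)` with any language in `n` steps. -/
theorem turing_sharp (L : Set (List Bool)) (n : ℕ) : ∃ a : List Bool, a.length = n ∧
    (2 : ℝ) ^ (-((n : ℝ) / 2 + 1)) ≤ |({x : List Bool | x.length = n ∧
      (ansA ipTM true x a n = true ↔ x ∈ L)}.ncard : ℝ) / 2 ^ n - 1 / 2| := by
  obtain ⟨a, ha, hcorr⟩ := exists_corr n (fun x => decide (x ∈ L))
  rw [mem_WF] at ha
  refine ⟨a, ha, ?_⟩
  have hset : {x : List Bool | x.length = n ∧ (ansA ipTM true x a n = true ↔ x ∈ L)} =
      (((WF n).filter (fun x => decide (x ∈ L) = ip a x) : Finset (List Bool)) :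
        Set (List Bool)) := by
    ext x
    simp only [Set.mem_ofPred_eq, Finset.coe_filter, mem_WF]
    refine and_congr_right (fun hx => ?_)
    have h := ipTM_ans x a (ha.trans hx.symm)
    rw [hx] at h
    rw [h, Bool.eq_iff_iff (a := decide (x ∈ L)), decide_eq_true_iff]
    exact iff_comm
  rw [hset, Set.ncard_coe_finset]
  have hag : (((WF n).filter (fun x => decide (x ∈ L) = ip a x)).card : ℝ) =
      (corr n (fun x => decide (x ∈ L)) a + 2 ^ n) / 2 := by
    have h2 := cor_eq n (fun x => decide (x ∈ L)) (ip a)
    have h3 : cor n (fun x => decide (x ∈ L)) (ip a) = corr n (fun x => decide (x ∈ L)) a := rfl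
    rw [← h3, h2]
    unfold agree
    ring
  rw [hag]
  generalize corr n (fun x => decide (x ∈ L)) a = r at hcorr
  have e1 : (r + 2 ^ n) / 2 / 2 ^ n - 1 / 2 = r / (2 * 2 ^ n) := by
    field_simp
    ring
  rw [e1, abs_div, abs_of_pos (show (0 : ℝ) < 2 * 2 ^ n by positivity),
    le_div_iff₀ (by positivity)]
  have h2 : (2 : ℝ) ^ (-((n : ℝ) / 2 + 1)) * (2 * 2 ^ n) = 2 ^ ((n : ℝ) / 2) := by
    rw [← pow_succ', ← Real.rpow_natCast 2 (n + 1), ← Real.rpow_add (by norm_num)]
    congr 1
    push_cast
    ring
  rw [h2]
  refine le_of_sq_le_sq ?_ (abs_nonneg r)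
  rw [sq_abs, ← Real.rpow_natCast, ← Real.rpow_mul (by norm_num)]
  have h3 : (n : ℝ) / 2 * ((2 : ℕ) : ℝ) = (n : ℝ) := by push_cast; ring
  rw [h3, Real.rpow_natCast]
  exact hcorr

theorem card_ipTM : Nat.card ipTM.K = 2 ∧ Nat.card ipTM.Γ = 2 ∧ Nat.card ipTM.Q = 2 := by
  refine ⟨?_, ?_, ?_⟩
  · show Nat.card Bool = 2
    simp
  · show Nat.card Bool = 2
    simp
  · show Nat.card Bool = 2
    simp

end Pool.Agent.H7CA
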